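import Pool.Agent.Helper10.SP.GoalsA

/-! Wirtinger calculus (packet WIRT). -/

open Complex Metric Set Filter Topology MeasureTheory
open scoped ContDiff ComplexConjugate ComplexOrder Manifold Matrix

namespace Pool.Agent.Helper10.SP.Wirt

open Pool.Agent.Helper95.Lin Pool.Agent.Helper16.Abund Pool.Agent.Helper92.Orb
open Pool.Agent.Helper10.SP

variable {n : ℕ} {W : Set (Cn n)} {f g : Cn n → ℂ}

lemma dAt (hW : IsOpen W) (hf : ContDiffOn ℝ ∞ f W) {x : Cn n} (hx : x ∈ W) :
    DifferentiableAt ℝ f x :=
  (hf.contDiffAt (hW.mem_nhds hx)).differentiableAt (by simp)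

lemma fd_smooth (hW : IsOpen W) (hf : ContDiffOn ℝ ∞ f W) (v : Cn n) :
    ContDiffOn ℝ ∞ (fun x => fderiv ℝ f x v) W :=
  (hf.fderiv_of_isOpen hW (by simp)).clm_apply contDiffOn_const

lemma cd_smooth (hW : IsOpen W) (hf : ContDiffOn ℝ ∞ f W) (l : Fin n) :
    ContDiffOn ℝ ∞ (cd l f) W := by
  have h1 := fd_smooth hW hf (Pi.single l 1)
  have h2 := fd_smooth hW hf (Pi.single l I)
  exact h1.sub (contDiffOn_const.mul h2)

lemma cdb_smooth (hW : IsOpen W) (hf : ContDiffOn ℝ ∞ f W) (l : Fin n) :
    ContDiffOn ℝ ∞ (cdb l f) W := by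
  have h1 := fd_smooth hW hf (Pi.single l 1)
  have h2 := fd_smooth hW hf (Pi.single l I)
  exact h1.add (contDiffOn_const.mul h2)

lemma snd (hW : IsOpen W) (hf : ContDiffOn ℝ ∞ f W) {x : Cn n} (hx : x ∈ W) (u v : Cn n) :
    fderiv ℝ (fderiv ℝ f) x u v = fderiv ℝ (fderiv ℝ f) x v u := by
  have h : ContDiffAt ℝ ∞ f x := hf.contDiffAt (hW.mem_nhds hx)
  exact (h.isSymmSndFDerivAt (by simp only [minSmoothness_of_isRCLikeNormedField]; exact ENat.LEInfty.out)) u v

lemma fd_fd (hW : IsOpen W) (hf : ContDiffOn ℝ ∞ f W) {x : Cn n} (hx : x ∈ W) (c : ℂ)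
    (u p q : Cn n) :
    fderiv ℝ (fun y => fderiv ℝ f y p + c * fderiv ℝ f y q) x u =
      fderiv ℝ (fderiv ℝ f) x u p + c * fderiv ℝ (fderiv ℝ f) x u q := by
  have h : DifferentiableAt ℝ (fderiv ℝ f) x :=
    ((hf.fderiv_of_isOpen hW (m := ∞) (by simp)).contDiffAt (hW.mem_nhds hx)).differentiableAt
      (by simp)
  have hp : HasFDerivAt (fun y => fderiv ℝ f y p) ((fderiv ℝ (fderiv ℝ f) x).flip p) x := by
    refine (h.hasFDerivAt.clm_apply (hasFDerivAt_const p x)).congr_fderiv ?_
    ext w
    simp
  have hq : HasFDerivAt (fun y => fderiv ℝ f y q) ((fderiv ℝ (fderiv ℝ f) x).flip q) x := by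
    refine (h.hasFDerivAt.clm_apply (hasFDerivAt_const q x)).congr_fderiv ?_
    ext w
    simp
  have := hp.add (hq.const_mul c)
  rw [show (fun y => fderiv ℝ f y p + c * fderiv ℝ f y q) =
    ((fun y => fderiv ℝ f y p) + fun y => c * fderiv ℝ f y q) from rfl, this.fderiv]
  simp

theorem wirt : S_WIRT := by
  intro n W hW f g hf hg
  refine ⟨fun l => ⟨cd_smooth hW hf l, cdb_smooth hW hf l⟩, ?_, ?_, ?_, ?_, ?_⟩
  · intro l x hx
    have h := fderiv_fun_add (dAt hW hf hx) (dAt hW hg hx)
    constructor
    · show fderiv ℝ (fun y => f y + g y) x _ - I * fderiv ℝ (fun y => f y + g y) x _ = _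
      rw [h]
      simp only [cd, add_apply]
      ring
    · show fderiv ℝ (fun y => f y + g y) x _ + I * fderiv ℝ (fun y => f y + g y) x _ = _
      rw [h]
      simp only [cdb, add_apply]
      ring
  · intro l x hx
    have h := fderiv_fun_mul (dAt hW hf hx) (dAt hW hg hx)
    constructor
    · show fderiv ℝ (fun y => f y * g y) x _ - I * fderiv ℝ (fun y => f y * g y) x _ = _
      rw [h]
      simp only [cd, add_apply, smul_apply, smul_eq_mul]
      ring
    · show fderiv ℝ (fun y => f y * g y) x _ + I * fderiv ℝ (fun y => f y * g y) x _ = _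
      rw [h]
      simp only [cdb, add_apply, smul_apply, smul_eq_mul]
      ring
  · intro l x hx
    have h : ∀ v, fderiv ℝ (fun y => conj (f y)) x v = conj (fderiv ℝ f x v) := by
      intro v
      have h1 := (Complex.conjCLE.toContinuousLinearMap.hasFDerivAt (x := f x)).comp x
        (dAt hW hf hx).hasFDerivAt
      have h2 : HasFDerivAt (fun y => conj (f y))
        (Complex.conjCLE.toContinuousLinearMap.comp (fderiv ℝ f x)) x := h1
      rw [h2.fderiv]
      rfl
    constructor
    · show fderiv ℝ (fun y => conj (f y)) x _ - I * fderiv ℝ (fun y => conj (f y)) x _ = _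
      rw [h, h]
      simp [cdb]
      ring
    · show fderiv ℝ (fun y => conj (f y)) x _ + I * fderiv ℝ (fun y => conj (f y)) x _ = _
      rw [h, h]
      simp [cd]
  · intro l m x hx
    have e1 : ∀ k : Fin n, cd k f = fun y => fderiv ℝ f y (Pi.single k 1) +
        (-I) * fderiv ℝ f y (Pi.single k I) := by
      intro k
      funext y
      simp only [cd]
      ring
    have e2 : ∀ k : Fin n, cdb k f = fun y => fderiv ℝ f y (Pi.single k 1) +
        I * fderiv ℝ f y (Pi.single k I) := fun k => rfl
    have a : ∀ (k : Fin n) (F : Cn n → ℂ), cd k F x = fderiv ℝ F x (Pi.single k 1) -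
      I * fderiv ℝ F x (Pi.single k I) := fun _ _ => rfl
    have b : ∀ (k : Fin n) (F : Cn n → ℂ), cdb k F x = fderiv ℝ F x (Pi.single k 1) +
      I * fderiv ℝ F x (Pi.single k I) := fun _ _ => rfl
    refine ⟨?_, ?_, ?_⟩
    · rw [a, a, e1 m, e1 l]
      simp only [fd_fd hW hf hx]
      rw [snd hW hf hx (Pi.single l 1) (Pi.single m 1), snd hW hf hx (Pi.single l 1) (Pi.single m I),
        snd hW hf hx (Pi.single l I) (Pi.single m 1), snd hW hf hx (Pi.single l I) (Pi.single m I)]
      ring
    · rw [b, b, e2 m, e2 l]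
      simp only [fd_fd hW hf hx]
      rw [snd hW hf hx (Pi.single l 1) (Pi.single m 1), snd hW hf hx (Pi.single l 1) (Pi.single m I),
        snd hW hf hx (Pi.single l I) (Pi.single m 1), snd hW hf hx (Pi.single l I) (Pi.single m I)]
      ring
    · rw [a, b, e2 m, e1 l]
      simp only [fd_fd hW hf hx]
      rw [snd hW hf hx (Pi.single l 1) (Pi.single m 1), snd hW hf hx (Pi.single l 1) (Pi.single m I),
        snd hW hf hx (Pi.single l I) (Pi.single m 1), snd hW hf hx (Pi.single l I) (Pi.single m I)]
      ring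
  · constructor
    · intro h x hx
      have hd := dAt hW hf hx
      have hs : ∀ (l : Fin n) (c : ℂ), fderiv ℝ f x (Pi.single l c) =
          c * fderiv ℝ f x (Pi.single l 1) := by
        intro l c
        have h0 : fderiv ℝ f x (Pi.single l 1) + I * fderiv ℝ f x (Pi.single l I) = 0 := h l x hx
        have h1 : fderiv ℝ f x (Pi.single l I) = I * fderiv ℝ f x (Pi.single l 1) := by
          linear_combination (-I) * h0 + fderiv ℝ f x (Pi.single l I) * I_mul_I
        have h2 : (Pi.single l c : Cn n) =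
            c.re • (Pi.single l (1 : ℂ) : Cn n) + c.im • (Pi.single l I : Cn n) := by
          rw [← Pi.single_smul, ← Pi.single_smul, ← Pi.single_add]
          congr 1
          apply Complex.ext <;> simp
        rw [h2, map_add, map_smul, map_smul, h1]
        conv_rhs => rw [← Complex.re_add_im c]
        simp only [Complex.real_smul]
        ring
      have hv : ∀ v : Cn n, fderiv ℝ f x v = ∑ l, v l * fderiv ℝ f x (Pi.single l 1) := by
        intro v
        conv_lhs => rw [show v = ∑ l, (Pi.single l (v l) : Cn n) from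
          (Finset.univ_sum_single v).symm]
        rw [map_sum]
        exact Finset.sum_congr rfl fun l _ => hs l (v l)
      let A : Cn n →L[ℂ] ℂ := ∑ l, (fderiv ℝ f x (Pi.single l 1)) •
        (ContinuousLinearMap.proj l : Cn n →L[ℂ] ℂ)
      have hA : A.restrictScalars ℝ = fderiv ℝ f x := by
        ext v
        rw [hv v]
        simp [A, mul_comm]
      have : HasFDerivAt f A x := hasFDerivAt_of_restrictScalars ℝ hd.hasFDerivAt hA
      exact this.differentiableAt.differentiableWithinAt
    · intro h l x hx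
      have hd : DifferentiableAt ℂ f x := h.differentiableAt (hW.mem_nhds hx)
      have e : fderiv ℝ f x = (fderiv ℂ f x).restrictScalars ℝ :=
        (hd.hasFDerivAt.restrictScalars ℝ).fderiv
      show fderiv ℝ f x _ + I * fderiv ℝ f x _ = 0
      rw [e]
      have h2 : (Pi.single l I : Cn n) = I • Pi.single l (1 : ℂ) := by
        rw [← Pi.single_smul]
        simp
      rw [h2]
      simp only [ContinuousLinearMap.coe_restrictScalars', map_smul, smul_eq_mul]
      linear_combination (fderiv ℂ f x) (Pi.single l 1) * I_mul_I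

end Pool.Agent.Helper10.SP.Wirt
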