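import Pool.Agent.Helper10.SP.Defs

/-! # Semipositive canonical bundles of corank one: the leaf map, étale relations, pseudogroups -/

open Complex Metric Set Filter Topology MeasureTheory
open scoped ContDiff ComplexConjugate ComplexOrder Manifold

namespace Pool.Agent.Helper10.SP

open Pool.Agent.Helper95.Lin Pool.Agent.Helper16.Abund Pool.Agent.Helper92.Orb

universe u v

/-! ## The leaf map -/

/-- `E : D × ℂ → M`, `D` the disjoint union of the balls of radius `R` about the points `c i`, is a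
local parametrization in which the density does not depend on the last coordinate and has positive
Levi form in the others, and the translates of the image of `Bd c 1 × (unit disc)` cover `M`. -/
structure LMap {b N : ℕ} (G : Type u) {M : Type v} [Group G] [MulAction G M] [TopologicalSpace M]
    [ChartedSpace (Fin (b + 1) → ℂ) M] (v : M → ℝ) (c : Fin N → Cn b) (R : ℝ) (E : Cn (b + 1) → M)
    (Φ : Cn b → ℝ) : Prop where
  posN : 0 < N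
  one_lt : 1 < R
  sep : ∀ i j, i ≠ j → 10 * R ≤ ‖c i - c j‖
  par : Par (b + 1) E (tubeS (Bd c R))
  smooth : ContDiffOn ℝ ∞ Φ (Bd c R)
  pos : ∀ z ∈ Bd c R, ∀ e, e ≠ 0 → 0 < lev Φ z e
  pot : ∀ x ∈ tubeS (Bd c R), lpot (b + 1) v E x = Φ (base x)
  cov : ∀ p : M, ∃ γ : G, ∃ z ∈ Bd c 1, ∃ w : ℂ, ‖w‖ < 1 ∧ γ • p = E (pt z w)

/-- The relation `γ • E x = E y` on the part of `D × ℂ` over `Bd c r`. -/
def RelE {b N : ℕ} {G : Type u} {M : Type v} [Group G] [MulAction G M]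
    (c : Fin N → Cn b) (r : ℝ) (E : Cn (b + 1) → M) (γ : G) (x y : Cn (b + 1)) : Prop :=
  x ∈ tubeS (Bd c r) ∧ y ∈ tubeS (Bd c r) ∧ γ • E x = E y

/-! ## Étale equivalence relations on an open set of `ℂⁿ` -/

/-- A proper cocompact étale groupoid on the open set `T` of `ℂⁿ`, with arrows `(γ, x, y)`,
`R γ x y`. (In the application `R γ x y` means `γ • E x = E y`.) -/
structure Et {n : ℕ} (T : Set (Cn n)) {G : Type u} [Group G] (R : G → Cn n → Cn n → Prop) :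
    Prop where
  isOpen : IsOpen T
  nonempty : T.Nonempty
  mem : ∀ γ x y, R γ x y → x ∈ T ∧ y ∈ T
  one : ∀ x ∈ T, R 1 x x
  inv : ∀ γ x y, R γ x y → R γ⁻¹ y x
  mul : ∀ γ γ' x y z, R γ x y → R γ' y z → R (γ' * γ) x z
  loc : ∀ γ x y, R γ x y → ∃ (τ : Cn n → Cn n) (U W : Set (Cn n)), IsOpen U ∧ IsOpen W ∧
    x ∈ U ∧ y ∈ W ∧ U ⊆ T ∧ W ⊆ T ∧ DifferentiableOn ℂ τ U ∧ InjOn τ U ∧ MapsTo τ U W ∧
    (∀ x' ∈ U, (fderiv ℂ τ x').det ≠ 0) ∧ ∀ x' ∈ U, ∀ y' ∈ W, R γ x' y' ↔ y' = τ x'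
  closed : ∀ γ, ∀ x ∈ T, ∀ y ∈ T, (∀ U ∈ 𝓝 x, ∀ W ∈ 𝓝 y, ∃ x' ∈ U, ∃ y' ∈ W, R γ x' y') → R γ x y
  fin : ∀ C ⊆ T, IsCompact C → {γ | ∃ x ∈ C, ∃ y ∈ C, R γ x y}.Finite
  coc : ∃ C ⊆ T, IsCompact C ∧ ∀ x ∈ T, ∃ γ, ∃ y ∈ C, R γ x y
  conn : ∀ S ⊆ T, IsOpen S → IsOpen (T \ S) → (∀ γ x y, R γ x y → (x ∈ S ↔ y ∈ S)) →
    S = ∅ ∨ S = T

/-- `τ` is a local arrow on the open set `U`. -/
def Arr {n : ℕ} {G : Type u} (R : G → Cn n → Cn n → Prop) (U : Set (Cn n)) (τ : Cn n → Cn n) :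
    Prop :=
  IsOpen U ∧ DifferentiableOn ℂ τ U ∧ ∃ γ, ∀ x ∈ U, R γ x (τ x)

/-- An étale equivalence relation which preserves the Kähler metric `H`. -/
structure KEt {n : ℕ} (T : Set (Cn n)) {G : Type u} [Group G] (R : G → Cn n → Cn n → Prop)
    (H : Cn n → Matrix (Fin n) (Fin n) ℂ) : Prop where
  et : Et T R
  posDef : ∀ x ∈ T, (H x).PosDef
  smooth : ∀ i j, ContDiffOn ℝ ∞ (fun x => H x i j) T
  closed : ∀ x ∈ T, ∀ i j l, cd l (fun y => H y i j) x = cd i (fun y => H y l j) x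
  inv : ∀ U τ, Arr R U τ → ∀ x ∈ U, ∀ u v,
    hermi (H (τ x)) (fderiv ℂ τ x u) (fderiv ℂ τ x v) = hermi (H x) u v

/-! ## The pseudogroup -/

/-- The maps `(z, w) ↦ (g z, a z * w + β z)` on `U × ℂ` that belong to the relation `R` on
`D × ℂ`. -/
def PMap {b : ℕ} (D : Set (Cn b)) {G : Type u} (R : G → Cn (b + 1) → Cn (b + 1) → Prop)
    (U : Set (Cn b)) (t : Tri b) : Prop :=
  IsOpen U ∧ U ⊆ D ∧ DifferentiableOn ℂ t.g U ∧ DifferentiableOn ℂ t.a U ∧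
    DifferentiableOn ℂ t.β U ∧ (∀ z ∈ U, t.g z ∈ D ∧ t.a z ≠ 0) ∧
    ∃ γ, ∀ z ∈ U, ∀ w : ℂ, R γ (pt z w) (pt (t.g z) (t.a z * w + t.β z))

/-- The maps on the ball of radius `4` about `c i` which map some point of the ball of radius `2` into
the union of the balls of radius `2`. -/
def Big {b N : ℕ} (c : Fin N → Cn b) (P : Set (Cn b) → Tri b → Prop) (i : Fin N) (t : Tri b) :
    Prop :=
  P (ball (c i) 4) t ∧ ∃ z ∈ ball (c i) 2, t.g z ∈ Bd c 2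

/-- A complete, proper, cocompact pseudogroup `P` of maps `(z, w) ↦ (g z, a z * w + β z)` over the
union `Bd c R` of balls, preserving the density `exp (Φ z)`. All germs between points of
`Bd c 2` extend to the balls of radius `4`. -/
structure AFol {b N : ℕ} (c : Fin N → Cn b) (R : ℝ) (P : Set (Cn b) → Tri b → Prop) (Φ : Cn b → ℝ)
    (C : ℝ) : Prop where
  posb : 0 < b
  posN : 0 < N
  Rge : 8 + 8 * C ≤ R
  Cge : 1 ≤ C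
  sep : ∀ i j, i ≠ j → 10 * R ≤ ‖c i - c j‖
  smooth : ContDiffOn ℝ ∞ Φ (Bd c R)
  pos : ∀ z ∈ Bd c R, ∀ e, e ≠ 0 → 0 < lev Φ z e
  holo : ∀ U t, P U t → IsOpen U ∧ U ⊆ Bd c R ∧ DifferentiableOn ℂ t.g U ∧
    DifferentiableOn ℂ t.a U ∧ DifferentiableOn ℂ t.β U ∧
    ∀ z ∈ U, t.g z ∈ Bd c R ∧ t.a z ≠ 0
  pot : ∀ U t, P U t → ∀ z ∈ U, (fderiv ℂ t.g z).det ≠ 0 ∧
    Φ z = Φ (t.g z) + Real.log (‖(fderiv ℂ t.g z).det‖ ^ 2) + Real.log (‖t.a z‖ ^ 2)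
  one : ∀ U, IsOpen U → U ⊆ Bd c R → P U Tri.one
  mono : ∀ U U' t, P U t → IsOpen U' → U' ⊆ U → P U' t
  congr : ∀ U t t', P U t → t.EqOn t' U → P U t'
  comp : ∀ U U' U'' t s, P U t → P U' s → IsOpen U'' → U'' ⊆ U' → MapsTo s.g U'' U →
    P U'' (t.comp s)
  inv : ∀ U t, P U t → ∀ z ∈ U, ∃ s U' U'', P U' s ∧ t.g z ∈ U' ∧ IsOpen U'' ∧ z ∈ U'' ∧ U'' ⊆ U ∧
    MapsTo t.g U'' U' ∧ (s.comp t).EqOn Tri.one U''
  ext : ∀ i, ∀ z ∈ ball (c i) 2, ∀ U t, P U t → z ∈ U → t.g z ∈ Bd c 2 →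
    ∃ t' U', P (ball (c i) 4) t' ∧ IsOpen U' ∧ z ∈ U' ∧ U' ⊆ U ∧ t'.EqOn t U'
  lip : ∀ i t, Big c P i t → ∀ x ∈ ball (c i) 4, ∀ y ∈ ball (c i) 4,
    ‖t.g x - t.g y‖ ≤ C * ‖x - y‖
  abd : ∀ i t, Big c P i t → ∀ x ∈ ball (c i) 4, ‖t.a x‖ ≤ C ∧ 1 ≤ C * ‖t.a x‖
  bgr : ∀ i t, Big c P i t → ∀ x ∈ ball (c i) 4, ∀ y ∈ ball (c i) 4,
    ‖t.β x‖ ≤ C * (1 + ‖t.β y‖)
  fin : ∀ i, ∀ r : ℝ, ∀ s : ℕ → Tri b, (∀ k, Big c P i (s k) ∧ ‖(s k).β (c i)‖ ≤ r) →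
    ∃ k l, k ≠ l ∧ (s k).EqOn (s l) (ball (c i) 4)
  coc : ∀ z ∈ Bd c R, ∀ w : ℂ, ∃ U t, P U t ∧ z ∈ U ∧ t.g z ∈ Bd c 1 ∧ ‖t.a z * w + t.β z‖ < 1
  conn : ∀ S ⊆ Bd c 2, IsOpen S → IsOpen (Bd c 2 \ S) →
    (∀ U t, P U t → ∀ z ∈ U, z ∈ Bd c 2 → t.g z ∈ Bd c 2 → (z ∈ S ↔ t.g z ∈ S)) →
    S = ∅ ∨ S = Bd c 2

/-- `V` is an infinitesimal generator over the ball of radius `3` about `c i`. -/
def InfGen {b N : ℕ} (c : Fin N → Cn b) (P : Set (Cn b) → Tri b → Prop) (i : Fin N)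
    (V : Cn b → Cn b) : Prop :=
  DifferentiableOn ℂ V (ball (c i) 3) ∧ ∃ (t : ℕ → Tri b) (σ : ℕ → ℝ),
    (∀ n, P (ball (c i) 4) (t n)) ∧ (∀ n, 0 < σ n) ∧ Tendsto σ atTop (𝓝 0) ∧
    ∀ ε > 0, ∀ᶠ n in atTop, ∀ z ∈ ball (c i) 3, ‖(t n).g z - z - (σ n : ℂ) • V z‖ ≤ ε * σ n

/-- The transversal pseudogroup is discrete: maps near the identity act trivially on the base. -/
def Disc {b N : ℕ} (c : Fin N → Cn b) (P : Set (Cn b) → Tri b → Prop) : Prop :=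
  ∃ η > 0, ∀ i t, P (ball (c i) 4) t → (∀ z ∈ ball (c i) 3, ‖t.g z - z‖ ≤ η) →
    ∀ z ∈ ball (c i) 4, t.g z = z

/-- A commutative local system of infinitesimal generators: `V₁, …, V_m` are holomorphic fields over
the balls of radius `3`, linearly independent over `ℝ` on each ball, commute, all their real linear
combinations are infinitesimal generators, and the maps of the pseudogroup transform them by real
invertible matrices. -/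
structure CFam {b N : ℕ} (c : Fin N → Cn b) (P : Set (Cn b) → Tri b → Prop) (m : ℕ)
    (V : Fin m → Cn b → Cn b) : Prop where
  pos : 0 < m
  holo : ∀ k, DifferentiableOn ℂ (V k) (Bd c 3)
  bdd : ∃ B : ℝ, ∀ k, ∀ z ∈ Bd c 3, ‖V k z‖ ≤ B
  indep : ∀ i, ∀ x : Fin m → ℝ, (∀ z ∈ ball (c i) 3, ∑ k, (x k : ℂ) • V k z = 0) → x = 0
  comm : ∀ z ∈ Bd c 3, ∀ k l, fderiv ℂ (V l) z (V k z) = fderiv ℂ (V k) z (V l z)
  gen : ∀ i, ∀ x : Fin m → ℝ, InfGen c P i fun z => ∑ k, (x k : ℂ) • V k z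
  trans : ∀ U t, P U t → ∀ z ∈ U, z ∈ Bd c 2 → t.g z ∈ Bd c 2 →
    ∃ (A : Matrix (Fin m) (Fin m) ℝ) (U' : Set (Cn b)), A.det ≠ 0 ∧ IsOpen U' ∧ z ∈ U' ∧ U' ⊆ U ∧
      ∀ z' ∈ U', ∀ k, fderiv ℂ t.g z' (V k z') = ∑ l, ((A l k : ℝ) : ℂ) • V l (t.g z')

/-- `lam 0`, `lam 1` are holomorphic functions on the balls of radius `3`, linearly independent over
`ℝ` at every point, whose real span is preserved by the maps of the pseudogroup (acting by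
multiplication with `a`). -/
structure Per {b N : ℕ} (c : Fin N → Cn b) (P : Set (Cn b) → Tri b → Prop)
    (lam : Fin 2 → Cn b → ℂ) : Prop where
  holo : ∀ j, DifferentiableOn ℂ (lam j) (Bd c 3)
  bdd : ∃ B : ℝ, 0 < B ∧ ∀ z ∈ Bd c 3, (∀ j, ‖lam j z‖ ≤ B) ∧
    1 ≤ B * (conj (lam 0 z) * lam 1 z).im
  trans : ∀ U t, P U t → ∀ z ∈ U, z ∈ Bd c 2 → t.g z ∈ Bd c 2 →
    ∃ (Q : Matrix (Fin 2) (Fin 2) ℝ) (U' : Set (Cn b)), 0 < Q.det ∧ IsOpen U' ∧ z ∈ U' ∧ U' ⊆ U ∧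
      ∀ z' ∈ U', ∀ j, t.a z' * lam j z' = ∑ k, ((Q k j : ℝ) : ℂ) * lam k (t.g z')

/-- The étale relation `Rel` on `Bd c 2 × ℂ` together with the pseudogroup `P` of its maps. -/
structure FEt {b N : ℕ} (c : Fin N → Cn b) (R : ℝ) {G : Type u} [Group G]
    (Rel : G → Cn (b + 1) → Cn (b + 1) → Prop) (P : Set (Cn b) → Tri b → Prop) (Φ : Cn b → ℝ)
    (C : ℝ) (H : Cn (b + 1) → Matrix (Fin (b + 1)) (Fin (b + 1)) ℂ) : Prop where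
  fol : AFol c R P Φ C
  ket : KEt (tubeS (Bd c 2)) Rel H
  toP : ∀ γ x y, Rel γ x y → ∃ U t, P U t ∧ base x ∈ U ∧ U ⊆ Bd c 2 ∧ MapsTo t.g U (Bd c 2) ∧
    y = pt (t.g (base x)) (t.a (base x) * lc x + t.β (base x)) ∧
    ∀ z ∈ U, ∀ w, Rel γ (pt z w) (pt (t.g z) (t.a z * w + t.β z))
  ofP : ∀ U t, P U t → U ⊆ Bd c 2 → MapsTo t.g U (Bd c 2) →
    ∃ γ, ∀ z ∈ U, ∀ w, Rel γ (pt z w) (pt (t.g z) (t.a z * w + t.β z))

/-- FG. The goal of Sections F, G of the paper. -/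
def S_FG : Prop := ∀ {b N : ℕ} (c : Fin N → Cn b) (R : ℝ) (P : Set (Cn b) → Tri b → Prop)
  (Φ : Cn b → ℝ) (C : ℝ), AFol c R P Φ C → Disc c P ∨ ∃ (m : ℕ) (V : Fin m → Cn b → Cn b),
    CFam c P m V

/-- PER. The goal of Section E of the paper. -/
def S_PER : Prop := ∀ {b N : ℕ} (c : Fin N → Cn b) (R : ℝ) (P : Set (Cn b) → Tri b → Prop)
  (Φ : Cn b → ℝ) (C : ℝ), AFol c R P Φ C → ∃ lam : Fin 2 → Cn b → ℂ, Per c P lam

/-- GEO. The goal of Sections A, B, C, D of the paper. -/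
def S_GEO : Prop := ∀ {b : ℕ} {G : Type u} {M : Type v} [Group G] [MulAction G M]
  [TopologicalSpace M] [T2Space M] [ConnectedSpace M] [ChartedSpace (Fin (b + 1) → ℂ) M]
  [IsManifold 𝓘(ℂ, Fin (b + 1) → ℂ) ω M] {h : M → Matrix (Fin (b + 1)) (Fin (b + 1)) ℂ}
  {v : M → ℝ}, 0 < b → Data b G M h v → ∃ (N : ℕ) (c : Fin N → Cn b) (R : ℝ)
    (E : Cn (b + 1) → M) (Φ : Cn b → ℝ) (C : ℝ)
    (H : Cn (b + 1) → Matrix (Fin (b + 1)) (Fin (b + 1)) ℂ), LMap G v c R E Φ ∧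
    FEt c R (RelE (G := G) c 2 E) (PMap (Bd c R) (RelE (G := G) c R E)) Φ C H

end Pool.Agent.Helper10.SP
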