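import Pool.Agent.Helper10.SP.GoalsA
import Pool.Agent.Helper10.SP.DefsT

/-! # Goals C, D: the global leaf map; completeness of the pseudogroup -/

open Complex Metric Set Filter Topology MeasureTheory
open scoped ContDiff ComplexConjugate ComplexOrder Manifold

namespace Pool.Agent.Helper10.SP

open Pool.Agent.Helper95.Lin Pool.Agent.Helper16.Abund Pool.Agent.Helper92.Orb

universe u v

/-! ## Basics on parametrizations -/

/-- PARB. Basics on local parametrizations and the action (may be used by all packets of A, C, D).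
PROOF. (1), (2): chain rule for `mfderiv` (`mfderiv_comp`; on the open set `V` the map is
`MDifferentiableAt`; determinant of a composition), `vinv`: `v(γ • x) |jac γ x|² = v x`, so
`v (γ • ψ z) |jac (γ • ψ) z|² = v (γ • ψ z) |jac γ (ψ z)|² |jac ψ z|² = v (ψ z) |jac ψ z|²`, and
`Real.log` of a product of positive numbers. (3): read both maps in the chart at `p := ψ' x'`:
`κ := extChartAt p`; `f := κ ∘ (γ • ψ)` near `x` and `f' := κ ∘ ψ'` near `x'` are holomorphic maps between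
open sets of `ℂⁿ` with invertible differentials (their determinants are `jac`, up to the derivative of the
transition from the preferred chart at the image point: it is invertible), so they are local
homeomorphisms with holomorphic inverse (`HasStrictFDerivAt.toOpenPartialHomeomorph`;
holomorphic ⇒ analytic ⇒ strictly differentiable); `τ := f'⁻¹ ∘ f`. Choose `W` such that `f'` is
injective on `W` and `ψ' W` is in the chart domain, then `U` small with `γ • ψ (U) ⊆ ψ' (W)`. -/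
def S_PARB : Prop := ∀ {b : ℕ} {G : Type u} {M : Type v} [Group G] [MulAction G M]
  [TopologicalSpace M] [T2Space M] [ChartedSpace (Fin (b + 1) → ℂ) M]
  [IsManifold 𝓘(ℂ, Fin (b + 1) → ℂ) ω M] {h : M → Matrix (Fin (b + 1)) (Fin (b + 1)) ℂ}
  {v : M → ℝ}, Data b G M h v →
  (∀ (V V' : Set (Cn (b + 1))) (ψ : Cn (b + 1) → M) (φ : Cn (b + 1) → Cn (b + 1)),
    Par (b + 1) ψ V → IsOpen V' → DifferentiableOn ℂ φ V' → MapsTo φ V' V →
    (∀ x ∈ V', (fderiv ℂ φ x).det ≠ 0) → Par (b + 1) (ψ ∘ φ) V' ∧ ∀ x ∈ V',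
      jac (b + 1) (ψ ∘ φ) x = jac (b + 1) ψ (φ x) * (fderiv ℂ φ x).det ∧
      lpot (b + 1) v (ψ ∘ φ) x = lpot (b + 1) v ψ (φ x) +
        Real.log (‖(fderiv ℂ φ x).det‖ ^ 2)) ∧
  (∀ (γ : G) (V : Set (Cn (b + 1))) (ψ : Cn (b + 1) → M), Par (b + 1) ψ V →
    Par (b + 1) (fun x => γ • ψ x) V ∧ ∀ x ∈ V,
      lpot (b + 1) v (fun x => γ • ψ x) x = lpot (b + 1) v ψ x) ∧
  (∀ (V V' : Set (Cn (b + 1))) (ψ ψ' : Cn (b + 1) → M), Par (b + 1) ψ V → Par (b + 1) ψ' V' →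
    ∀ (γ : G), ∀ x ∈ V, ∀ x' ∈ V', γ • ψ x = ψ' x' →
    ∃ (τ : Cn (b + 1) → Cn (b + 1)) (U W : Set (Cn (b + 1))), IsOpen U ∧ IsOpen W ∧ x ∈ U ∧
      x' ∈ W ∧ U ⊆ V ∧ W ⊆ V' ∧ DifferentiableOn ℂ τ U ∧ InjOn τ U ∧ MapsTo τ U W ∧ τ x = x' ∧
      (∀ y ∈ U, (fderiv ℂ τ y).det ≠ 0) ∧ ∀ y ∈ U, ∀ y' ∈ W, γ • ψ y = ψ' y' ↔ y' = τ y) ∧
  (∀ (V : Set (Cn (b + 1))) (ψ : Cn (b + 1) → M), Par (b + 1) ψ V → ∀ U ⊆ V, IsOpen U →
    IsOpen (ψ '' U)) ∧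
  ∀ γ : G, Continuous (fun x : M => γ • x)

/-- IDM. The identity theorem for holomorphic maps into a manifold.
PROOF. `S := {x ∈ V | f =ᶠ[𝓝 x] f'}` is open, and closed in `V`: at a limit point `x ∈ V` of `S`,
`f x = f' x` by continuity (`T2`), and on a small ball `B` about `x` both maps have values in the chart
domain at `f x`; in the chart they are holomorphic maps `B → ℂⁿ` which agree near some point of `B`, so
on `B` (`AnalyticOnNhd.eqOn_of_preconnected_of_eventuallyEq`). Then `V` is preconnected. -/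
def S_IDM : Prop := ∀ {n : ℕ} {M : Type v} [TopologicalSpace M] [T2Space M]
  [ChartedSpace (Fin n → ℂ) M] [IsManifold 𝓘(ℂ, Fin n → ℂ) ω M] (V : Set (Cn n))
  (f f' : Cn n → M), IsPreconnected V → HoloOn n f V → HoloOn n f' V → ∀ x ∈ V, f =ᶠ[𝓝 x] f' →
  EqOn f f' V

/-! ## Special maps -/

/-- `ψ` is a local parametrization on `U × Δ` in which the density is `Ψ(z)` with positive Levi
form. -/
def Spec {b : ℕ} {M : Type v} [TopologicalSpace M] [ChartedSpace (Fin (b + 1) → ℂ) M] (v : M → ℝ)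
    (U : Set (Cn b)) (Δ : Set ℂ) (ψ : Cn (b + 1) → M) (Ψ : Cn b → ℝ) : Prop :=
  Par (b + 1) ψ (prodS U Δ) ∧ ContDiffOn ℝ ∞ Ψ U ∧ (∀ z ∈ U, ∀ e, e ≠ 0 → 0 < lev Ψ z e) ∧
    ∀ x ∈ prodS U Δ, lpot (b + 1) v ψ x = Ψ (base x)

/-- The isometry relation between two potentials satisfied by `t` at `z`. -/
def PotR {b : ℕ} (Ψ Ψ' : Cn b → ℝ) (t : Tri b) (z : Cn b) : Prop :=
  t.a z ≠ 0 ∧ (fderiv ℂ t.g z).det ≠ 0 ∧
    Ψ z = Ψ' (t.g z) + Real.log (‖(fderiv ℂ t.g z).det‖ ^ 2) + Real.log (‖t.a z‖ ^ 2)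

/-- `t` is holomorphic on `U`. -/
def Tri.HolOn {b : ℕ} (t : Tri b) (U : Set (Cn b)) : Prop :=
  DifferentiableOn ℂ t.g U ∧ DifferentiableOn ℂ t.a U ∧ DifferentiableOn ℂ t.β U

/-- ACB. A priori bounds. USES: WCH, LMF.
PROOF. Put `V' := V ∩ U ∩ g⁻¹ U'`... Since `log |det Dg|²` and `log |a|²` are pluriharmonic (`WCH`),
`LM Ψ z j k = ∑ p q, J p j * conj (J q k) * LM Ψ' (g z) p q`, `J = Dg(z)`, so `lev Ψ z e = lev Ψ' (g z) (Dg e)`
and `det (LM Ψ z) = |det J|² det (LM Ψ' (g z))`. By compactness (`LM Ψ`, `LM Ψ'` continuous and positive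
definite, `lev Ψ z e` is a continuous function of `(z, e)` positive for `e ≠ 0`) there are `0 < c₁ ≤ c₂` with
`c₁ |e|² ≤ lev Ψ z e ≤ c₂ |e|²` for `z ∈ K`, the same for `Ψ'` on `K'`, and bounds for the determinants and for
`|Ψ|, |Ψ'|`. So `‖Dg e‖² ≤ (c₂/c₁') ‖e‖²`, `|det J|²` is bounded above and below, and
`|a|² = exp (Ψ z - Ψ' (g z)) / |det J|²` is bounded above and below. -/
def S_ACB : Prop := ∀ {b : ℕ} (U U' K K' : Set (Cn b)) (Ψ Ψ' : Cn b → ℝ), IsOpen U → IsOpen U' →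
  IsCompact K → K ⊆ U → IsCompact K' → K' ⊆ U' → ContDiffOn ℝ ∞ Ψ U → ContDiffOn ℝ ∞ Ψ' U' →
  (∀ z ∈ U, ∀ e, e ≠ 0 → 0 < lev Ψ z e) → (∀ z ∈ U', ∀ e, e ≠ 0 → 0 < lev Ψ' z e) →
  ∃ C : ℝ, 1 ≤ C ∧ ∀ (V : Set (Cn b)) (t : Tri b), IsOpen V → V ⊆ U → t.HolOn V →
    MapsTo t.g V U' → (∀ z ∈ V, PotR Ψ Ψ' t z) → ∀ z ∈ V, z ∈ K → t.g z ∈ K' →
    ‖t.a z‖ ≤ C ∧ 1 ≤ C * ‖t.a z‖ ∧ ∀ e, ‖fderiv ℂ t.g z e‖ ≤ C * ‖e‖ ∧
      ‖e‖ ≤ C * ‖fderiv ℂ t.g z e‖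

/-- LIPP. Lipschitz bound. USES: ACB.
PROOF. `ACB` with `U = U' = Bd c R`, `K = K' = ⋃ closedBall (c i) r`, and the mean value inequality on
the convex set `V` (`Convex.norm_image_sub_le_of_norm_fderiv_le`; sup norm operator norm bound from
`∀ e`). -/
def S_LIPP : Prop := ∀ {b N : ℕ} (c : Fin N → Cn b) (R r : ℝ) (Φ : Cn b → ℝ), r < R →
  ContDiffOn ℝ ∞ Φ (Bd c R) → (∀ z ∈ Bd c R, ∀ e, e ≠ 0 → 0 < lev Φ z e) →
  ∃ C : ℝ, 1 ≤ C ∧ ∀ (V : Set (Cn b)) (t : Tri b), IsOpen V → Convex ℝ V → V ⊆ Bd c r →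
    t.HolOn V → MapsTo t.g V (Bd c r) → (∀ z ∈ V, PotR Φ Φ t z) →
    (∀ z ∈ V, ‖t.a z‖ ≤ C ∧ 1 ≤ C * ‖t.a z‖) ∧
    ∀ x ∈ V, ∀ y ∈ V, ‖t.g x - t.g y‖ ≤ C * ‖x - y‖

/-- TRS. Transition of special maps. USES: PARB, AFFT.
PROOF. `PARB` (3) gives `τ` near `x` with `γ • ψ y = ψ' (τ y)`, `τ x = x'`. On a small product of balls
`prodS (ball (base x) ρ) (ball (lc x) ρ)`, `lpot` of both sides gives `Ψ (base y) = Ψ' (base (τ y)) +
log |det Dτ y|²`; apply `AFFT` with `U = ball (base x) ρ`. -/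
def S_TRS : Prop := ∀ {b : ℕ} {G : Type u} {M : Type v} [Group G] [MulAction G M]
  [TopologicalSpace M] [T2Space M] [ChartedSpace (Fin (b + 1) → ℂ) M]
  [IsManifold 𝓘(ℂ, Fin (b + 1) → ℂ) ω M] {h : M → Matrix (Fin (b + 1)) (Fin (b + 1)) ℂ}
  {v : M → ℝ}, Data b G M h v → ∀ (U U' : Set (Cn b)) (Δ Δ' : Set ℂ) (ψ ψ' : Cn (b + 1) → M)
  (Ψ Ψ' : Cn b → ℝ), IsOpen U → IsOpen U' → IsOpen Δ → IsOpen Δ' → Spec v U Δ ψ Ψ →
  Spec v U' Δ' ψ' Ψ' → ∀ (γ : G), ∀ x ∈ prodS U Δ, ∀ x' ∈ prodS U' Δ', γ • ψ x = ψ' x' →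
  ∃ ρ > 0, ∃ t : Tri b, ball (base x) ρ ⊆ U ∧ ball (lc x) ρ ⊆ Δ ∧ t.HolOn (ball (base x) ρ) ∧
    x' = pt (t.g (base x)) (t.a (base x) * lc x + t.β (base x)) ∧
    (∀ z ∈ ball (base x) ρ, t.g z ∈ U' ∧ PotR Ψ Ψ' t z) ∧
    ∀ z ∈ ball (base x) ρ, ∀ w ∈ ball (lc x) ρ, t.a z * w + t.β z ∈ Δ' ∧
      γ • ψ (pt z w) = ψ' (pt (t.g z) (t.a z * w + t.β z))

/-- FINSP. A finite family of special charts. USES: SPEC, PARB, WCH.
PROOF. `SPEC` at `p` gives `r`, `ψ`, `Ψ`; `ψ' (x) := ψ ((r/6) x)` is special on `prodS (ball 0 6) (ball 0 6)`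
with `Ψ' z = Ψ ((r/6) z) + (b+1) log ((r/6)²)` (positivity: `WCH` or `lev` of a rescaled function). The set
`ψ' (prodS (ball 0 1) (ball 0 1))` is open (`PARB`) and contains `p`. Finitely many of them cover the
compact set of `OrbAction.cocompact`. `k > 0` since `M` is nonempty. -/
def S_FINSP : Prop := ∀ {b : ℕ} {G : Type u} {M : Type v} [Group G] [MulAction G M]
  [TopologicalSpace M] [T2Space M] [Nonempty M] [ChartedSpace (Fin (b + 1) → ℂ) M]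
  [IsManifold 𝓘(ℂ, Fin (b + 1) → ℂ) ω M] {h : M → Matrix (Fin (b + 1)) (Fin (b + 1)) ℂ}
  {v : M → ℝ}, Data b G M h v → ∃ (k : ℕ) (ψ : Fin k → Cn (b + 1) → M) (Ψ : Fin k → Cn b → ℝ),
    0 < k ∧ (∀ i, Spec v (ball 0 6) (ball 0 6) (ψ i) (Ψ i)) ∧
    ∀ p : M, ∃ (γ : G) (i : Fin k), ∃ x ∈ prodS (ball (0 : Cn b) 1) (ball 0 1), γ • p = ψ i x

/-- EXTS. The extension step. USES: PARB, IDM, TRS, ACB, WCH.
PROOF. Constant: `C ≥ 1` from `ACB` for all pairs `(Ψ i, Ψ j)`, `U = U' = ball 0 6`, `K = closedBall 0 5`,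
`K' = closedBall 0 1`; `r₀ := 1 / C`. Let `χ` be special on `(ball 0 5) × (ball 0 ρ)` with potential `Ψ i`.
(1) Local extension: let `z₀ ∈ ball 0 5`, `|w₀| < ρ`. There are `γ, j`, `x ∈ prodS (ball 0 1) (ball 0 1)` with
`γ • χ (z₀,w₀) = ψ j x`, so by `TRS` there are `t` and a ball `B' ∋ z₀` with `γ • χ (z,w) = ψ j (g z, a w + β)` for
`z ∈ B'`, `w` near `w₀`; by `ACB` `|a z₀| ≤ C`; shrink `B'` so that for `z ∈ B'`: `g z ∈ ball 0 2`, `|a z| ≤ 2C`,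
`|a z w₀ + β z| < 1`. Then `F (z,w) := γ⁻¹ • ψ j (g z, a w + β)` is defined on `B' × ball w₀ r₀` (`|a w + β| < 1 + 2C
r₀ ≤ 3`), is special there with potential `Ψ i` (`PARB`, `PotR`), and equals `χ` near `(z₀,w₀)`, so by `IDM` on
the convex set `B' × (ball w₀ r₀ ∩ ball 0 ρ)`.
(2) Fix `z₀`. Choose finitely many `w_l`, `|w_l| < ρ`, such that the balls of radius `r₀/4` about them cover
`ball 0 ρ` (total boundedness), and let `B'` be the intersection of the balls of (1), `F_l` the extensions.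
`F_l = F_m` on `B' × (ball w_l r₀ ∩ ball w_m r₀)`: if this convex set is not empty it contains
`B' × {(w_l+w_m)/2}`, near which both are `χ`; `IDM`. So they glue to a map `F` on `B' × ball 0 (ρ + r₀/2)`
(each `w` there is at distance `< 3r₀/4` of some `w_l`). (3) The maps `F` for different `z₀` agree on overlaps
`(B' ∩ B'') × ball 0 (ρ + r₀/2)` (convex, agree with `χ` on `|w| < ρ`; if `ρ > 0`; for `ρ ≤ 0` exclude). So `χ'`. -/
def S_EXTS : Prop := ∀ {b : ℕ} {G : Type u} {M : Type v} [Group G] [MulAction G M]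
  [TopologicalSpace M] [T2Space M] [ChartedSpace (Fin (b + 1) → ℂ) M]
  [IsManifold 𝓘(ℂ, Fin (b + 1) → ℂ) ω M] {h : M → Matrix (Fin (b + 1)) (Fin (b + 1)) ℂ}
  {v : M → ℝ}, Data b G M h v → ∀ (k : ℕ) (ψ : Fin k → Cn (b + 1) → M) (Ψ : Fin k → Cn b → ℝ),
  (∀ i, Spec v (ball 0 6) (ball 0 6) (ψ i) (Ψ i)) →
  (∀ p : M, ∃ (γ : G) (i : Fin k), ∃ x ∈ prodS (ball (0 : Cn b) 1) (ball 0 1), γ • p = ψ i x) →
  ∃ r₀ : ℝ, 0 < r₀ ∧ ∀ (i : Fin k) (ρ : ℝ) (χ : Cn (b + 1) → M), 0 < ρ →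
    Spec v (ball 0 5) (ball 0 ρ) χ (Ψ i) → ∃ χ' : Cn (b + 1) → M,
      Spec v (ball 0 5) (ball 0 (ρ + r₀)) χ' (Ψ i) ∧ EqOn χ' χ (prodS (ball 0 5) (ball 0 ρ))

/-- LMAP. The leaf map. USES: FINSP, EXTS, IDM, PARB, WCH.
PROOF. For each `i` iterate `EXTS` from `χ₀ = ψ i` on `(ball 0 5) × (ball 0 5)`: `χ_n` on
`(ball 0 5) × ball 0 (5 + n r₀)`, each extending the previous one; `E_i (z,w) := χ_n (z,w)` for the least `n` with
`|w| < 5 + n r₀`: near each point `E_i` agrees with one `χ_n`, so it is special on `(ball 0 5) × ℂ`. Let `c i :=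
100 i e₀` (`b > 0`), `E x := E_i (x - (c i, 0))` for `base x ∈ ball (c i) 5`, `Φ z := Ψ i (z - c i)`. -/
def S_LMAP : Prop := ∀ {b : ℕ} {G : Type u} {M : Type v} [Group G] [MulAction G M]
  [TopologicalSpace M] [T2Space M] [Nonempty M] [ChartedSpace (Fin (b + 1) → ℂ) M]
  [IsManifold 𝓘(ℂ, Fin (b + 1) → ℂ) ω M] {h : M → Matrix (Fin (b + 1)) (Fin (b + 1)) ℂ}
  {v : M → ℝ}, 0 < b → Data b G M h v → ∃ (N : ℕ) (c : Fin N → Cn b) (E : Cn (b + 1) → M)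
    (Φ : Cn b → ℝ), LMap G v c 5 E Φ

/-! ## The étale relation and the pseudogroup of a leaf map -/

/-- KET. The étale relation with its Kähler metric. USES: PARB.
PROOF. `T = tubeS (Bd c r)`, `R γ x y` iff `x, y ∈ T`, `γ • E x = E y`. `Et`: `loc` is `PARB` (3); `closed`:
continuity of `E` and of the action and `T2`; `fin`: `E '' C` is compact, `Data.proper`; `coc`: the compact set
`{x | base x ∈ ⋃ closedBall (c i) 1, |lc x| ≤ 1}` (contained in `T` as `1 < r`), by `LMap.cov`; `conn`: `⋃ γ, γ • E '' S`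
and the same for `T \ S` are disjoint open sets (`PARB`) that cover `M`, `M` is connected.
Metric: `H x j k := herm (h (E x)) (dvec E x e_j) (dvec E x e_k)`, independent of `r`. Smoothness and `closed` from
`KahlerMetric` for `ψ = E`: the real 2-form `Im H(u,v)` is smooth and closed; the identity `closed` is the
`(2,1)` part, see helper95's or helper94's proof of `S_KACT` (Lin) for the conversion. `inv`: if `E (τ x) = γ • E x`
near `x` then `dvec E (τ x) (Dτ u) = tvec γ (E x) (dvec E x u)` (chain rule) and `InvMetric`. -/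
def S_KET : Prop := ∀ {b N : ℕ} {G : Type u} {M : Type v} [Group G] [MulAction G M]
  [TopologicalSpace M] [T2Space M] [ConnectedSpace M] [ChartedSpace (Fin (b + 1) → ℂ) M]
  [IsManifold 𝓘(ℂ, Fin (b + 1) → ℂ) ω M] {h : M → Matrix (Fin (b + 1)) (Fin (b + 1)) ℂ}
  {v : M → ℝ}, Data b G M h v → ∀ (c : Fin N → Cn b) (R : ℝ) (E : Cn (b + 1) → M) (Φ : Cn b → ℝ),
  LMap G v c R E Φ → ∃ H : Cn (b + 1) → Matrix (Fin (b + 1)) (Fin (b + 1)) ℂ, ∀ r, 1 < r → r ≤ R →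
    KEt (tubeS (Bd c r)) (RelE (G := G) c r E) H

/-- `PMap` with a given group element. -/
def PMapG {b : ℕ} (D : Set (Cn b)) {G : Type u} [Group G] (R : G → Cn (b + 1) → Cn (b + 1) → Prop)
    (γ : G) (U : Set (Cn b)) (t : Tri b) : Prop :=
  IsOpen U ∧ U ⊆ D ∧ t.HolOn U ∧ (∀ z ∈ U, t.g z ∈ D ∧ t.a z ≠ 0) ∧
    ∀ z ∈ U, ∀ w : ℂ, R γ (pt z w) (pt (t.g z) (t.a z * w + t.β z))

/-- LOCP. Every arrow belongs to a map of the pseudogroup. USES: PARB, IDM, TRS.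
PROOF. `TRS` for `ψ = ψ' = E`, `U = U' = Bd c R`, `Δ = Δ' = ℂ` (`univ`) gives `t` on `ball (base x) ρ` with
`γ • E (z,w) = E (g z, a w + β)` for `w` near `lc x`. Both sides are holomorphic maps on the convex set
`tubeS (ball (base x) ρ)`, so they agree there (`IDM`). -/
def S_LOCP : Prop := ∀ {b N : ℕ} {G : Type u} {M : Type v} [Group G] [MulAction G M]
  [TopologicalSpace M] [T2Space M] [ChartedSpace (Fin (b + 1) → ℂ) M]
  [IsManifold 𝓘(ℂ, Fin (b + 1) → ℂ) ω M] {h : M → Matrix (Fin (b + 1)) (Fin (b + 1)) ℂ}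
  {v : M → ℝ}, Data b G M h v → ∀ (c : Fin N → Cn b) (R : ℝ) (E : Cn (b + 1) → M) (Φ : Cn b → ℝ),
  LMap G v c R E Φ → ∀ (γ : G) (x y : Cn (b + 1)), RelE c R E γ x y → ∃ ρ > 0, ∃ t : Tri b,
    PMapG (Bd c R) (RelE c R E) γ (ball (base x) ρ) t ∧
    y = pt (t.g (base x)) (t.a (base x) * lc x + t.β (base x))

/-- PAX. The pseudogroup axioms and the isometry relation. USES: PARB, WCH, IDM.
PROOF. Potential: on `tubeS U`, `E ∘ T = γ • E` with `T x = pt (g) (a lc + β)`, `det DT = a det Dg ≠ 0`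
(the differential of `E ∘ T` is invertible since that of `γ • E` is), `PARB` gives `Φ z = Φ (g z) + log |det DT|²`.
Axioms: `one`: `γ = 1`. `comp`: product of the group elements. `inv`: local inverse `g⁻¹` of `g` near
`t.g z` (`det Dg ≠ 0`), `s.a = 1 / (a ∘ g⁻¹)`, `s.β = -(β/a) ∘ g⁻¹`, group element `γ⁻¹`. Last item: two maps
on the ball with the same `γ` and the same value at one point `(z, w)`: `E` is injective near the image
point, so the maps agree near `(z, w)`; then `g, a, β` agree near `z` and on the ball (identity theorem). -/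
def S_PAX : Prop := ∀ {b N : ℕ} {G : Type u} {M : Type v} [Group G] [MulAction G M]
  [TopologicalSpace M] [T2Space M] [ChartedSpace (Fin (b + 1) → ℂ) M]
  [IsManifold 𝓘(ℂ, Fin (b + 1) → ℂ) ω M] {h : M → Matrix (Fin (b + 1)) (Fin (b + 1)) ℂ}
  {v : M → ℝ}, Data b G M h v → ∀ (c : Fin N → Cn b) (R : ℝ) (E : Cn (b + 1) → M) (Φ : Cn b → ℝ),
  LMap G v c R E Φ →
  (∀ γ U t, PMapG (Bd c R) (RelE (G := G) c R E) γ U t → ∀ z ∈ U, PotR Φ Φ t z) ∧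
  (∀ U, IsOpen U → U ⊆ Bd c R → PMapG (Bd c R) (RelE (G := G) c R E) 1 U Tri.one) ∧
  (∀ γ γ' U U' U'' t s, PMapG (Bd c R) (RelE (G := G) c R E) γ U t →
    PMapG (Bd c R) (RelE c R E) γ' U' s → IsOpen U'' → U'' ⊆ U' → MapsTo s.g U'' U →
    PMapG (Bd c R) (RelE c R E) (γ * γ') U'' (t.comp s)) ∧
  (∀ γ U t, PMapG (Bd c R) (RelE (G := G) c R E) γ U t → ∀ z ∈ U, ∃ s U' U'',
    PMapG (Bd c R) (RelE c R E) γ⁻¹ U' s ∧ t.g z ∈ U' ∧ IsOpen U'' ∧ z ∈ U'' ∧ U'' ⊆ U ∧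
    MapsTo t.g U'' U' ∧ (s.comp t).EqOn Tri.one U'') ∧
  ∀ (γ : G) (z₀ : Cn b) (r : ℝ) t s, PMapG (Bd c R) (RelE (G := G) c R E) γ (ball z₀ r) t →
    PMapG (Bd c R) (RelE c R E) γ (ball z₀ r) s → ∀ z ∈ ball z₀ r, ∀ w : ℂ, t.g z = s.g z →
    t.a z * w + t.β z = s.a z * w + s.β z → t.EqOn s (ball z₀ r)

/-- FIN1. Finiteness. USES: PAX.
PROOF. `x₀ := pt z₀ 0`; the arrows `(γ_k, x₀, y_k)`, `y_k = pt ((s k).g z₀) ((s k).β z₀)`, are in a compact set of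
`tubeS (Bd c R)`, so by `Data.proper` (for the compact set `E '' C`) only finitely many `γ_k` occur; infinitely
many `k` have the same `γ`. For these `E (y_k) = γ • E x₀ =: p`; the points `y` of a compact set with
`E y = p` are finitely many (`E` is locally injective). So there are `k ≠ l` with the same `γ` and `y_k = y_l`;
`PAX` (last item). -/
def S_FIN1 : Prop := ∀ {b N : ℕ} {G : Type u} {M : Type v} [Group G] [MulAction G M]
  [TopologicalSpace M] [T2Space M] [ChartedSpace (Fin (b + 1) → ℂ) M]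
  [IsManifold 𝓘(ℂ, Fin (b + 1) → ℂ) ω M] {h : M → Matrix (Fin (b + 1)) (Fin (b + 1)) ℂ}
  {v : M → ℝ}, Data b G M h v → ∀ (c : Fin N → Cn b) (R : ℝ) (E : Cn (b + 1) → M) (Φ : Cn b → ℝ),
  LMap G v c R E Φ → ∀ (z₀ : Cn b) (r q ρ : ℝ), 0 < ρ → q < R → ∀ s : ℕ → Tri b,
  (∀ k, PMap (Bd c R) (RelE (G := G) c R E) (ball z₀ ρ) (s k) ∧ (s k).g z₀ ∈ Bd c q ∧
    ‖(s k).β z₀‖ ≤ r) → ∃ k l, k ≠ l ∧ (s k).EqOn (s l) (ball z₀ ρ)

/-- BP. Bounded pairs. USES: LOCP, PAX.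
PROOF. By contradiction or by compactness: let `C₀ := {x | base x ∈ ⋃ closedBall (c i) 3, |lc x| ≤ W}`, compact.
Only finitely many `γ` occur (`Data.proper`). For fixed `γ` the set `A` of `(x,y) ∈ C₀ × C₀` with `γ • E x = E y` is
compact. For `(x₀,y₀) ∈ A` take `t` from `LOCP` on `ball (base x₀) ρ`, `g (ball) ⊆ Bd c 4` after shrinking (as
`g (base x₀) = base y₀ ∈ closedBall (c j) 3`) and `|β|` bounded on the smaller ball. If `(x,y) ∈ A` is close to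
`(x₀,y₀)` then `y = T x` (local injectivity of `E` near `y₀`, `T` continuous) and `t` restricted to
`ball (base x) (ρ/2)` works. Lebesgue number / finite subcover of `A`. -/
def S_BP : Prop := ∀ {b N : ℕ} {G : Type u} {M : Type v} [Group G] [MulAction G M]
  [TopologicalSpace M] [T2Space M] [ChartedSpace (Fin (b + 1) → ℂ) M]
  [IsManifold 𝓘(ℂ, Fin (b + 1) → ℂ) ω M] {h : M → Matrix (Fin (b + 1)) (Fin (b + 1)) ℂ}
  {v : M → ℝ}, Data b G M h v → ∀ (c : Fin N → Cn b) (E : Cn (b + 1) → M) (Φ : Cn b → ℝ),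
  LMap G v c 5 E Φ → ∀ W : ℝ, ∃ δ > 0, ∃ C : ℝ, ∀ (γ : G) (x y : Cn (b + 1)),
  RelE c 5 E γ x y → base x ∈ Bd c 3 → base y ∈ Bd c 3 → ‖lc x‖ ≤ W → ‖lc y‖ ≤ W →
  ∃ t : Tri b, PMapG (Bd c 5) (RelE c 5 E) γ (ball (base x) δ) t ∧
    MapsTo t.g (ball (base x) δ) (Bd c 4) ∧ (∀ z ∈ ball (base x) δ, ‖t.β z‖ ≤ C) ∧
    y = pt (t.g (base x)) (t.a (base x) * lc x + t.β (base x))

/-- The conclusion of the extension theorem for a leaf map of radius `5`. -/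
def Ext5 {b N : ℕ} (c : Fin N → Cn b) (P : Set (Cn b) → Tri b → Prop) (δ C : ℝ) : Prop :=
  0 < δ ∧ 1 ≤ C ∧ ∀ z₀ ∈ Bd c 3, ∀ U t, P U t → z₀ ∈ U → t.g z₀ ∈ Bd c 3 →
    ∃ t' U', P (ball z₀ δ) t' ∧ IsOpen U' ∧ z₀ ∈ U' ∧ U' ⊆ U ∧ t'.EqOn t U' ∧
      (∀ x ∈ ball z₀ δ, t'.g x ∈ Bd c 4 ∧ ‖t'.a x‖ ≤ C ∧ 1 ≤ C * ‖t'.a x‖ ∧
        ‖t'.β x‖ ≤ C * (1 + ‖t'.β z₀‖)) ∧
      ∀ x ∈ ball z₀ δ, ∀ y ∈ ball z₀ δ, ‖t'.g x - t'.g y‖ ≤ C * ‖x - y‖

/-- EXT5. The extension theorem (chains). USES: LOCP, PAX, LIPP, BP.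
PROOF. `C₁` from `LIPP` for `r = 4`, `R = 5`. `(δ₁, C₂)` from `BP` for `W := C₁ + 1`. `δ := δ₁ / (2 C₁)` (and
`δ ≤ 1`). Let `t` be a germ at `z₀`, `t.g z₀ =: y₀ ∈ Bd c 3`, with group element `γ`. Let `w⋆ := - β(z₀)/a(z₀)`, so
that `t` maps `(z₀, w⋆)` to `(y₀, 0)`. Let `n := ⌈|w⋆|⌉ + 1`, `w_i := (i/n) w⋆`, `|w_{i+1} - w_i| ≤ 1`. For `1 ≤ i ≤ n` the
point `p = E (z₀, w_i)` has by `LMap.cov` some `γ_i` with `γ_i • p = E (pt z_i v_i)`, `z_i ∈ Bd c 1`, `|v_i| < 1`; let `s_i`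
be the germ of `LOCP` at `z₀` with group element `γ_i`, `(z₀,w_i) ↦ (z_i, v_i)`. `s_0 := Tri.one`. CLAIM: for
each `i ≤ n`, `s_i` is (agrees near `z₀` with) a map `S_i` of the pseudogroup on `ball z₀ δ` with values in
`Bd c 4`. Given `S_i`: the germ `r := s_{i+1} s_i⁻¹` at `S_i.g z₀` (group element `γ_{i+1} γ_i⁻¹`) relates
`x := S_i (z₀, w_i)` (bounded: for `i = 0` it is `(z₀, 0)`, otherwise in `Bd c 1 × (unit disc)`) to `y :=
s_{i+1} (z₀, w_i)`, whose base is `z_{i+1} ∈ Bd c 1` and `|lc y| ≤ |v_{i+1}| + |a_{s_{i+1}}(z₀)| |w_i - w_{i+1}| ≤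
1 + C₁` (`LIPP` on a small ball). So by `BP` there is `r_i` on `ball (S_i.g z₀) δ₁` with `|β| ≤ C₂`; since `S_i` is
`C₁`-Lipschitz (`LIPP`) it maps `ball z₀ δ` into `ball (S_i.g z₀) δ₁`, and `S_{i+1} := r_i.comp S_i` is defined on
`ball z₀ δ` with values in `Bd c 4`; near `z₀` it is `s_{i+1}` (same group element, same value at `(z₀,w_i)`;
last item of `PAX`). Finally `t s_n⁻¹` relates `(z_n, v_n)` to `(y₀, 0)`, again a bounded pair, so `t' := r_n.comp S_n`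
on `ball z₀ δ`. All are `C₁`-Lipschitz with `|a|, 1/|a| ≤ C₁` by `LIPP`. Growth: `q := β/a` satisfies
`q_{r s}(x) = q_s(x) + q_r(g_s x)/a_s(x)`, so `|q_{S_{i+1}}(x) - q_{S_i}(x)| ≤ C₁² C₂`, and `q_{S_0} = 0`:
`|q_{t'}(x)| ≤ (n + 1) C₁² C₂`, `n ≤ |w⋆| + 2 = |q_{t}(z₀)| + 2`. So `|β_{t'}(x)| ≤ C (1 + |β_{t'}(z₀)|)`. -/
def S_EXT5 : Prop := ∀ {b N : ℕ} {G : Type u} {M : Type v} [Group G] [MulAction G M]
  [TopologicalSpace M] [T2Space M] [ChartedSpace (Fin (b + 1) → ℂ) M]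
  [IsManifold 𝓘(ℂ, Fin (b + 1) → ℂ) ω M] {h : M → Matrix (Fin (b + 1)) (Fin (b + 1)) ℂ}
  {v : M → ℝ}, Data b G M h v → ∀ (c : Fin N → Cn b) (E : Cn (b + 1) → M) (Φ : Cn b → ℝ),
  LMap G v c 5 E Φ → ∃ δ C : ℝ, Ext5 c (PMap (Bd c 5) (RelE (G := G) c 5 E)) δ C

/-- Extension of germs to whole balls. -/
def BigExt {b N : ℕ} (c : Fin N → Cn b) (R : ℝ) (P : Set (Cn b) → Tri b → Prop) (C : ℝ) : Prop :=
  1 ≤ C ∧ 8 + 8 * C ≤ R ∧
  (∀ i, ∀ z ∈ ball (c i) 2, ∀ U t, P U t → z ∈ U → t.g z ∈ Bd c 2 →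
    ∃ t' U', P (ball (c i) 4) t' ∧ IsOpen U' ∧ z ∈ U' ∧ U' ⊆ U ∧ t'.EqOn t U') ∧
  (∀ i t, Big c P i t → ∀ x ∈ ball (c i) 4, ∀ y ∈ ball (c i) 4,
    ‖t.g x - t.g y‖ ≤ C * ‖x - y‖) ∧
  (∀ i t, Big c P i t → ∀ x ∈ ball (c i) 4, ‖t.a x‖ ≤ C ∧ 1 ≤ C * ‖t.a x‖) ∧
  ∀ i t, Big c P i t → ∀ x ∈ ball (c i) 4, ∀ y ∈ ball (c i) 4, ‖t.β x‖ ≤ C * (1 + ‖t.β y‖)

/-- RESC. Passage to small balls. USES: PARB, PAX, WCH.
PROOF. `(δ, C)` from `Ext5`; `R' := 8 + 8 C`, `ρ := min (δ/16) (1/R')`. Cover the compact set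
`⋃ closedBall (c i) 1` by finitely many balls `ball (p_j) ρ`, `p_j` in this set, `j : Fin N'`; `c' j := 20 R' j e₀`
(`b > 0` as there are... if `b = 0` use the hypothesis `0 < b`). `E' x := E (pt (p_j + ρ (base x - c' j)) (lc x))`,
`Φ' z := Φ (p_j + ρ (z - c' j)) + log ((ρ ^ b) ^ 2)` for `base x`, `z ∈ ball (c' j) R'` (note `ρ R' ≤ 1`, so all these
points are over `Bd c 3`). Then `LMap G v c' R' E' Φ'` (`cov`: `Bd c 1 ⊆ ⋃ ball (p_j) ρ`). A map `t'` of the new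
pseudogroup near `z' ∈ ball (c' j) R'` with values in `ball (c' l) R'` is `t' = (p_l, ρ)⁻¹ ∘ t ∘ (p_j, ρ)`:
`t'.g z' = c' l + (t.g (p_j + ρ (z' - c' j)) - p_l)/ρ`, `t'.a z' = t.a (...)`, `t'.β z' = t.β (...)`, `t` a map of the old
one, and conversely. EXT: if `z' ∈ ball (c' j) 2`, `t'.g z' ∈ ball (c' l) 2`, then `z := p_j + ρ(z' - c' j) ∈ Bd c 3`,
`t.g z ∈ Bd c 3`, so `t` extends to `ball z δ ⊇ p_j + ρ ball 0 4` (`6 ρ < δ`), its values there differ from `t.g z`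
by at most `6 C ρ`, so those of `t'` are in `ball (c' l) (2 + 6 C) ⊆ ball (c' l) R'`. A `Big` map agrees with such an
extension on `ball (c' j) 4` (identity theorem). Lipschitz constant and bounds of `a` are unchanged. Growth: for
`x, y ∈ ball (c' j) 4` apply `Ext5` at the base point corresponding to `y` (`∈ Bd c 3`, its image is in
`p_l + ρ ball 0 (2 + 6C) ⊆ Bd c 3`), `8 ρ < δ`. -/
def S_RESC : Prop := ∀ {b N : ℕ} {G : Type u} {M : Type v} [Group G] [MulAction G M]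
  [TopologicalSpace M] [T2Space M] [ChartedSpace (Fin (b + 1) → ℂ) M]
  [IsManifold 𝓘(ℂ, Fin (b + 1) → ℂ) ω M] {h : M → Matrix (Fin (b + 1)) (Fin (b + 1)) ℂ}
  {v : M → ℝ}, 0 < b → Data b G M h v → ∀ (c : Fin N → Cn b) (E : Cn (b + 1) → M) (Φ : Cn b → ℝ),
  LMap G v c 5 E Φ → ∀ δ C : ℝ, Ext5 c (PMap (Bd c 5) (RelE (G := G) c 5 E)) δ C →
  ∃ (N' : ℕ) (c' : Fin N' → Cn b) (R' C' : ℝ) (E' : Cn (b + 1) → M) (Φ' : Cn b → ℝ),
    LMap G v c' R' E' Φ' ∧ BigExt c' R' (PMap (Bd c' R') (RelE (G := G) c' R' E')) C'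

/-- AFOL. Assembly of the structure. USES: PARB, LOCP, PAX, FIN1, KET.
PROOF. All fields of `AFol` for `P = PMap (Bd c R) (RelE c R E)` from `LMap`, `BigExt`, `PAX`. `fin`: a `Big` map
on `ball (c i) 4` maps `c i` into `Bd c (2 + 4C) `, `2 + 4C < R`; `FIN1`. `coc`: `LMap.cov` for the point
`E (pt z w)` and `LOCP`. `conn`: `S' := tubeS S ⊆ tubeS (Bd c 2)` is invariant under `RelE c 2 E` by `LOCP`; `Et.conn` of
`KET` for `r = 2`. `toP`, `ofP`: `LOCP` and the definitions (`U` shrunk by continuity of `g`). -/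
def S_AFOL : Prop := ∀ {b N : ℕ} {G : Type u} {M : Type v} [Group G] [MulAction G M]
  [TopologicalSpace M] [T2Space M] [ConnectedSpace M] [ChartedSpace (Fin (b + 1) → ℂ) M]
  [IsManifold 𝓘(ℂ, Fin (b + 1) → ℂ) ω M] {h : M → Matrix (Fin (b + 1)) (Fin (b + 1)) ℂ}
  {v : M → ℝ}, 0 < b → Data b G M h v → ∀ (c : Fin N → Cn b) (R C : ℝ) (E : Cn (b + 1) → M)
  (Φ : Cn b → ℝ), LMap G v c R E Φ → BigExt c R (PMap (Bd c R) (RelE (G := G) c R E)) C →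
  ∃ H : Cn (b + 1) → Matrix (Fin (b + 1)) (Fin (b + 1)) ℂ,
    FEt c R (RelE (G := G) c 2 E) (PMap (Bd c R) (RelE (G := G) c R E)) Φ C H

end Pool.Agent.Helper10.SP
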