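import Pool.Agent.Helper10.SP.GoalsC

/-! # Assembly of the sections A to D -/

open Complex Metric Set Filter Topology MeasureTheory
open scoped ContDiff ComplexConjugate ComplexOrder Manifold

namespace Pool.Agent.Helper10.SP

open Pool.Agent.Helper95.Lin Pool.Agent.Helper16.Abund Pool.Agent.Helper92.Orb

universe u v

theorem geo (hL : S_LMAP.{u, v}) (hE : S_EXT5.{u, v}) (hR : S_RESC.{u, v})
    (hA : S_AFOL.{u, v}) : S_GEO.{u, v} := by
  intro b G M _ _ _ _ _ _ _ h v hb hD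
  obtain ⟨N, c, E, Φ, h1⟩ := hL hb hD
  obtain ⟨δ, C, h2⟩ := hE hD c E Φ h1
  obtain ⟨N', c', R', C', E', Φ', h3, h4⟩ := hR hb hD c E Φ h1 δ C h2
  obtain ⟨H, h5⟩ := hA hb hD c' R' C' E' Φ' h3 h4
  exact ⟨N', c', R', E', Φ', C', H, h3, h5⟩

end Pool.Agent.Helper10.SP
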