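import Pool.Agent.Helper10.SP.Fin1
import Pool.Agent.Helper10.SP.GEO
import Pool.Agent.Helper10.SP.WIRT
import Pool.Agent.Helper13.SP.FIBT
import Pool.Agent.Helper13.SP.LMID
import Pool.Agent.Helper16.SP.ADDQ
import Pool.Agent.Helper16.SP.CMPQ
import Pool.Agent.Helper19.SP.HODC
import Pool.Agent.Helper19.SP.HOLL
import Pool.Agent.Helper19.SP.XLIM
import Pool.Agent.Helper2.SP.HVR
import Pool.Agent.Helper2.SP.MOL2
import Pool.Agent.Helper25.SP.DISF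
import Pool.Agent.Helper27.SP.LMAP
import Pool.Agent.Helper29.SP.DDQ
import Pool.Agent.Helper3.SP.KET
import Pool.Agent.Helper31.SP.KV
import Pool.Agent.Helper31.SP.SPEC
import Pool.Agent.Helper32.SP.ARRB
import Pool.Agent.Helper32.SP.NML
import Pool.Agent.Helper33.SP.FRIE
import Pool.Agent.Helper35.SP.BOX
import Pool.Agent.Helper35.SP.ETA
import Pool.Agent.Helper35.SP.L2C
import Pool.Agent.Helper35.SP.NORMW
import Pool.Agent.Helper35.SP.PAX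
import Pool.Agent.Helper35.SP.RK1
import Pool.Agent.Helper36.SP.HYER
import Pool.Agent.Helper36.SP.L2LIM
import Pool.Agent.Helper37.SP.AFOL
import Pool.Agent.Helper37.SP.SECT
import Pool.Agent.Helper38.SP.EXT5
import Pool.Agent.Helper38.SP.LTR
import Pool.Agent.Helper39.SP.RLT
import Pool.Agent.Helper4.SP.PARB
import Pool.Agent.Helper40.SP.LAMX
import Pool.Agent.Helper40.SP.LCPT
import Pool.Agent.Helper40.SP.LIOU
import Pool.Agent.Helper40.SP.STR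
import Pool.Agent.Helper40.SP.TAUB
import Pool.Agent.Helper45.SP.AssemblyFG
import Pool.Agent.Helper47.SP.GIND
import Pool.Agent.Helper48.SP.LFIN
import Pool.Agent.Helper48.SP.MU
import Pool.Agent.Helper52.SP.BOCF
import Pool.Agent.Helper53.SP.BID
import Pool.Agent.Helper53.SP.GFIN
import Pool.Agent.Helper53.SP.RESC
import Pool.Agent.Helper55.SP.AFFT
import Pool.Agent.Helper55.SP.BP
import Pool.Agent.Helper55.SP.PERA
import Pool.Agent.Helper56.SP.TRS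
import Pool.Agent.Helper57.SP.DDA
import Pool.Agent.Helper57.SP.LIPP
import Pool.Agent.Helper58.SP.LOCP
import Pool.Agent.Helper58.SP.NCV
import Pool.Agent.Helper58.SP.PIO
import Pool.Agent.Helper58.SP.WEYL
import Pool.Agent.Helper59.SP.CNJ
import Pool.Agent.Helper59.SP.WCH
import Pool.Agent.Helper62.SP.AUT
import Pool.Agent.Helper62.SP.FINV
import Pool.Agent.Helper63.SP.LA
import Pool.Agent.Helper63.SP.POIN
import Pool.Agent.Helper63.SP.ZZ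
import Pool.Agent.Helper64.SP.BOCH
import Pool.Agent.Helper64.SP.KHOL
import Pool.Agent.Helper67.SP.REG
import Pool.Agent.Helper70.SP.CONI
import Pool.Agent.Helper74.SP.DETC
import Pool.Agent.Helper74.SP.POIL
import Pool.Agent.Helper74.SP.RETN
import Pool.Agent.Helper74.SP.SECW
import Pool.Agent.Helper75.SP.BSUM
import Pool.Agent.Helper75.SP.LML2
import Pool.Agent.Helper75.SP.PUE
import Pool.Agent.Helper79.SP.ROOT
import Pool.Agent.Helper8.SP.AMAX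
import Pool.Agent.Helper8.SP.DETI
import Pool.Agent.Helper8.SP.DIVC
import Pool.Agent.Helper8.SP.FIN1
import Pool.Agent.Helper8.SP.MZ
import Pool.Agent.Helper8.SP.UEST
import Pool.Agent.Helper80.SP.CACC
import Pool.Agent.Helper80.SP.NONI
import Pool.Agent.Helper80.SP.SWAP
import Pool.Agent.Helper82.SP.NET
import Pool.Agent.Helper82.SP.PROJ
import Pool.Agent.Helper83.SP.DER
import Pool.Agent.Helper83.SP.FINSP
import Pool.Agent.Helper86.SP.ACB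
import Pool.Agent.Helper87.SP.LOCZ
import Pool.Agent.Helper87.SP.MAINSP
import Pool.Agent.Helper87.SP.PUE2
import Pool.Agent.Helper87.SP.TENS
import Pool.Agent.Helper89.SP.IDM
import Pool.Agent.Helper9.SP.BACK
import Pool.Agent.Helper9.SP.EXTS
import Pool.Agent.Helper9.SP.REGL
import Pool.Agent.Helper9.SP.VTAU
import Pool.Agent.Helper90.SP.LMF
import Pool.Agent.Helper93.SP.HODG
import Pool.Agent.Helper93.SP.INTB
import Pool.Agent.Helper93.SP.SONE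
import Pool.Agent.Helper97.SP.BNAT
import Pool.Agent.Helper97.SP.FCON

/-! Assembly: every packet proposition, in topological order. -/

set_option linter.style.longLine false

namespace Pool.Agent.Helper10.SP.Asm

theorem t_WIRT : Pool.Agent.Helper10.SP.S_WIRT :=
  _root_.Pool.Agent.Helper10.SP.Wirt.wirt
theorem t_LMF : Pool.Agent.Helper10.SP.S_LMF :=
  _root_.Pool.Agent.Helper90.SP.lmf t_WIRT
theorem t_KV : Pool.Agent.Helper10.SP.S_KV :=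
  _root_.Pool.Agent.Helper31.SP.kv t_LMF
theorem t_DER : Pool.Agent.Helper10.SP.S_DER :=
  _root_.Pool.Agent.Helper83.SP.der t_WIRT
theorem t_LA : Pool.Agent.Helper10.SP.S_LA :=
  _root_.Pool.Agent.Helper63.SP.la
theorem t_WCH : Pool.Agent.Helper10.SP.S_WCH :=
  _root_.Pool.Agent.Helper59.SP.wch
theorem t_FINV : Pool.Agent.Helper10.SP.S_FINV :=
  _root_.Pool.Agent.Helper62.SP.finv t_WIRT t_WCH t_LMF t_KV t_DER
theorem t_DDQ : Pool.Agent.Helper10.SP.S_DDQ :=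
  _root_.Pool.Agent.Helper29.SP.ddq t_WIRT t_DER
theorem t_DDA : Pool.Agent.Helper10.SP.S_DDA :=
  _root_.Pool.Agent.Helper57.SP.dda t_WIRT t_LMF t_KV t_DER
theorem t_AMAX : Pool.Agent.Helper10.SP.S_AMAX :=
  _root_.Pool.Agent.Helper8.SP.amax t_WIRT t_LMF t_KV t_DER t_LA t_DDQ t_DDA
theorem t_KHOL : Pool.Agent.Helper10.SP.S_KHOL :=
  _root_.Pool.Agent.Helper64.SP.khol t_WIRT t_LMF t_KV t_DER t_LA t_FINV t_AMAX
theorem t_STR : Pool.Agent.Helper10.SP.S_STR :=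
  _root_.Pool.Agent.Helper40.SP.str
theorem t_NORMW : Pool.Agent.Helper10.SP.S_NORMW :=
  _root_.Pool.Agent.Helper35.SP.normw t_WIRT t_WCH t_LMF
theorem t_SPEC : Pool.Agent.Helper10.SP.S_SPEC :=
  _root_.Pool.Agent.Helper31.SP.spec t_KV t_KHOL t_STR t_NORMW t_WCH
theorem t_PARB : Pool.Agent.Helper10.SP.S_PARB :=
  _root_.Pool.Agent.Helper4.SP.parb
theorem t_FINSP : Pool.Agent.Helper10.SP.S_FINSP :=
  _root_.Pool.Agent.Helper83.SP.finsp t_SPEC t_PARB t_WCH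
theorem t_IDM : Pool.Agent.Helper10.SP.S_IDM :=
  _root_.Pool.Agent.Helper89.SP.idm
theorem t_AFFT : Pool.Agent.Helper10.SP.S_AFFT :=
  _root_.Pool.Agent.Helper55.SP.afft t_WCH
theorem t_TRS : Pool.Agent.Helper10.SP.S_TRS :=
  _root_.Pool.Agent.Helper56.SP.trs t_PARB t_AFFT
theorem t_ACB : Pool.Agent.Helper10.SP.S_ACB :=
  _root_.Pool.Agent.Helper86.SP.acb t_WCH t_LMF
theorem t_EXTS : Pool.Agent.Helper10.SP.S_EXTS :=
  _root_.Pool.Agent.Helper9.SP.exts t_PARB t_IDM t_TRS t_ACB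
theorem t_LMAP : Pool.Agent.Helper10.SP.S_LMAP :=
  _root_.Pool.Agent.Helper27.SP.lmap t_FINSP t_EXTS t_PARB
theorem t_LOCP : Pool.Agent.Helper10.SP.S_LOCP :=
  _root_.Pool.Agent.Helper58.SP.locp t_PARB t_IDM t_TRS
theorem t_PAX : Pool.Agent.Helper10.SP.S_PAX :=
  _root_.Pool.Agent.Helper35.SP.pax t_PARB
theorem t_LIPP : Pool.Agent.Helper10.SP.S_LIPP :=
  _root_.Pool.Agent.Helper57.SP.lipp t_ACB
theorem t_BP : Pool.Agent.Helper10.SP.S_BP :=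
  _root_.Pool.Agent.Helper55.SP.bp t_PARB t_LOCP
theorem t_EXT5 : Pool.Agent.Helper10.SP.S_EXT5 :=
  _root_.Pool.Agent.Helper38.SP.ext5 t_LOCP t_PAX t_LIPP t_BP
theorem t_RESC : Pool.Agent.Helper10.SP.S_RESC :=
  _root_.Pool.Agent.Helper53.SP.resc t_PARB t_WCH
theorem t_FIN1 : Pool.Agent.Helper10.SP.S_FIN1 :=
  _root_.Pool.Agent.Helper8.SP.fin1 t_PARB t_PAX
theorem t_KET : Pool.Agent.Helper10.SP.S_KET :=
  _root_.Pool.Agent.Helper3.SP.ket t_PARB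
theorem t_AFOL : Pool.Agent.Helper10.SP.S_AFOL :=
  _root_.Pool.Agent.Helper37.SP.afol t_LOCP t_PAX t_FIN1 t_KET
theorem t_GEO : Pool.Agent.Helper10.SP.S_GEO :=
  _root_.Pool.Agent.Helper10.SP.geo t_LMAP t_EXT5 t_RESC t_AFOL
theorem t_FG : Pool.Agent.Helper10.SP.S_FG :=
  _root_.Pool.Agent.Helper45.SP.fg
theorem t_NCV : Pool.Agent.Helper10.SP.S_NCV :=
  _root_.Pool.Agent.Helper58.SP.ncv
theorem t_NET : Pool.Agent.Helper10.SP.S_NET :=
  _root_.Pool.Agent.Helper82.SP.net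
theorem t_RETN : Pool.Agent.Helper10.SP.S_RETN :=
  _root_.Pool.Agent.Helper74.SP.retn t_NCV t_NET
theorem t_NML : Pool.Agent.Helper10.SP.S_NML :=
  _root_.Pool.Agent.Helper32.SP.nml t_NCV
theorem t_CMPQ : Pool.Agent.Helper10.SP.S_CMPQ :=
  _root_.Pool.Agent.Helper16.SP.cmpq t_NML
theorem t_ADDQ : Pool.Agent.Helper10.SP.S_ADDQ :=
  _root_.Pool.Agent.Helper16.SP.addq t_NML t_CMPQ
theorem t_HYER : Pool.Agent.Helper10.SP.S_HYER :=
  _root_.Pool.Agent.Helper36.SP.hyer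
theorem t_LAMX : Pool.Agent.Helper10.SP.S_LAMX :=
  _root_.Pool.Agent.Helper40.SP.lamx t_RETN t_CMPQ t_ADDQ t_HYER
theorem t_CNJ : Pool.Agent.Helper10.SP.S_CNJ :=
  _root_.Pool.Agent.Helper59.SP.cnj t_NCV
theorem t_LTR : Pool.Agent.Helper10.SP.S_LTR :=
  _root_.Pool.Agent.Helper38.SP.ltr t_RETN t_CNJ
theorem t_PERA : Pool.Agent.Helper10.SP.S_PERA :=
  _root_.Pool.Agent.Helper55.SP.pera t_LAMX t_LTR
theorem t_PER : Pool.Agent.Helper10.SP.S_PER := t_PERA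
theorem t_TAUB : Pool.Agent.Helper10.SP.S_TAUB :=
  _root_.Pool.Agent.Helper40.SP.taub
theorem t_ZZ : Pool.Agent.Helper10.SP.S_ZZ :=
  _root_.Pool.Agent.Helper63.SP.zz t_TAUB
theorem t_ARRB : Pool.Agent.Helper10.SP.S_ARRB :=
  _root_.Pool.Agent.Helper32.SP.arrb
theorem t_LFIN : Pool.Agent.Helper10.SP.S_LFIN :=
  _root_.Pool.Agent.Helper48.SP.lfin t_ARRB
theorem t_ASI : Pool.Agent.Helper10.SP.S_ASI :=
  _root_.Pool.Agent.Helper75.SP.asi
theorem t_PUE : Pool.Agent.Helper10.SP.S_PUE :=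
  _root_.Pool.Agent.Helper75.SP.pue t_LFIN t_ASI
theorem t_DETI : Pool.Agent.Helper10.SP.S_DETI :=
  _root_.Pool.Agent.Helper8.SP.deti t_WIRT
theorem t_SWAP : Pool.Agent.Helper10.SP.S_SWAP :=
  _root_.Pool.Agent.Helper80.SP.swap t_LFIN
theorem t_DIVC : Pool.Agent.Helper10.SP.S_DIVC :=
  _root_.Pool.Agent.Helper8.SP.divc t_WIRT t_WCH t_LFIN t_SWAP t_DETI
theorem t_BOX : Pool.Agent.Helper10.SP.S_BOX :=
  _root_.Pool.Agent.Helper35.SP.box t_WIRT t_WCH t_DETI t_DIVC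
theorem t_L2C : Pool.Agent.Helper10.SP.S_L2C :=
  _root_.Pool.Agent.Helper35.SP.l2c t_WIRT t_WCH t_ARRB t_DETI
theorem t_L2LIM : Pool.Agent.Helper10.SP.S_L2LIM :=
  _root_.Pool.Agent.Helper36.SP.l2lim
theorem t_AUT : Pool.Agent.Helper10.SP.S_AUT :=
  _root_.Pool.Agent.Helper62.SP.aut t_WIRT t_WCH t_ARRB t_LFIN t_ASI t_SWAP t_DETI
theorem t_MOL2 : Pool.Agent.Helper10.SP.S_MOL2 :=
  _root_.Pool.Agent.Helper2.SP.mol2
theorem t_FRIE : Pool.Agent.Helper10.SP.S_FRIE :=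
  _root_.Pool.Agent.Helper33.SP.frie
theorem t_CACC : Pool.Agent.Helper10.SP.S_CACC :=
  _root_.Pool.Agent.Helper80.SP.cacc t_WIRT
theorem t_REGL : Pool.Agent.Helper10.SP.S_REGL :=
  _root_.Pool.Agent.Helper9.SP.regl t_WIRT t_MOL2 t_FRIE t_CACC
theorem t_HOLL : Pool.Agent.Helper10.SP.S_HOLL :=
  _root_.Pool.Agent.Helper19.SP.holl t_WIRT t_MOL2
theorem t_REG : Pool.Agent.Helper10.SP.S_REG :=
  _root_.Pool.Agent.Helper67.SP.reg t_WIRT t_ARRB t_DETI t_LFIN t_BOX t_L2C t_AUT t_REGL t_HOLL t_L2LIM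
theorem t_PROJ : Pool.Agent.Helper10.SP.S_PROJ :=
  _root_.Pool.Agent.Helper82.SP.proj t_WIRT t_DETI t_BOX t_REG
theorem t_CONI : Pool.Agent.Helper10.SP.S_CONI :=
  _root_.Pool.Agent.Helper70.SP.coni
theorem t_POIL : Pool.Agent.Helper10.SP.S_POIL :=
  _root_.Pool.Agent.Helper74.SP.poil
theorem t_POIN : Pool.Agent.Helper10.SP.S_POIN :=
  _root_.Pool.Agent.Helper63.SP.poin t_DETI t_L2C t_POIL
theorem t_LMID : Pool.Agent.Helper10.SP.S_LMID :=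
  _root_.Pool.Agent.Helper13.SP.lmid t_WIRT t_WCH t_LMF t_ARRB t_DETI t_DIVC
theorem t_LML2 : Pool.Agent.Helper10.SP.S_LML2 :=
  _root_.Pool.Agent.Helper75.SP.lml2 t_WCH t_LMF t_ARRB t_DETI
theorem t_WEYL : Pool.Agent.Helper10.SP.S_WEYL :=
  _root_.Pool.Agent.Helper58.SP.weyl
theorem t_HODG : Pool.Agent.Helper10.SP.S_HODG :=
  _root_.Pool.Agent.Helper93.SP.hodg t_WIRT t_ARRB t_DETI t_PUE t_BOX t_L2C t_L2LIM t_PROJ t_CONI t_POIN t_LMID t_LML2 t_WEYL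
theorem t_LIOU : Pool.Agent.Helper10.SP.S_LIOU :=
  _root_.Pool.Agent.Helper40.SP.liou
theorem t_HODC : Pool.Agent.Helper10.SP.S_HODC :=
  _root_.Pool.Agent.Helper19.SP.hodc t_WCH t_LFIN t_ASI t_PUE t_HODG t_LIOU
theorem t_DETC : Pool.Agent.Helper10.SP.S_DETC :=
  _root_.Pool.Agent.Helper74.SP.detc t_HODC
theorem t_VTAU : Pool.Agent.Helper10.SP.S_VTAU :=
  _root_.Pool.Agent.Helper9.SP.vtau
theorem t_RK1 : Pool.Agent.Helper10.SP.S_RK1 :=
  _root_.Pool.Agent.Helper35.SP.rk1 t_DETC t_TAUB t_VTAU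
theorem t_MU : Pool.Agent.Helper10.SP.S_MU :=
  _root_.Pool.Agent.Helper48.SP.mu t_WCH t_LMF t_HODC t_TAUB
theorem t_HVR : Pool.Agent.Helper10.SP.S_HVR :=
  _root_.Pool.Agent.Helper2.SP.hvr
theorem t_RLT : Pool.Agent.Helper10.SP.S_RLT :=
  _root_.Pool.Agent.Helper39.SP.rlt t_WIRT t_LMF t_MU t_HVR
theorem t_GIND : Pool.Agent.Helper10.SP.S_GIND :=
  _root_.Pool.Agent.Helper47.SP.gind t_LMF
theorem t_PIO : Pool.Agent.Helper10.SP.S_PIO :=
  _root_.Pool.Agent.Helper58.SP.pio t_WIRT t_WCH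
theorem t_INTB : Pool.Agent.Helper10.SP.S_INTB :=
  _root_.Pool.Agent.Helper93.SP.intb t_ARRB t_PUE t_DIVC t_PIO
theorem t_TENS : Pool.Agent.Helper10.SP.S_TENS :=
  _root_.Pool.Agent.Helper87.SP.tens
theorem t_BID : Pool.Agent.Helper10.SP.S_BID :=
  _root_.Pool.Agent.Helper53.SP.bid t_WIRT t_LMF
theorem t_BNAT : Pool.Agent.Helper10.SP.S_BNAT :=
  _root_.Pool.Agent.Helper97.SP.bnat t_WIRT t_WCH t_PIO
theorem t_BOCF : Pool.Agent.Helper10.SP.S_BOCF :=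
  _root_.Pool.Agent.Helper52.SP.bocf t_LMF t_MU t_DETC t_RLT t_GIND t_INTB t_TENS t_BID t_BNAT
theorem t_DISF : Pool.Agent.Helper10.SP.S_DISF :=
  _root_.Pool.Agent.Helper25.SP.disf t_FG t_PER t_ZZ t_RK1 t_BOCF
theorem t_LLCONV : Pool.Agent.Helper45.SP.S_LCONV :=
  _root_.Pool.Agent.Helper45.SP.t_LCONV
theorem t_LPG : Pool.Agent.Helper45.SP.S_PG :=
  _root_.Pool.Agent.Helper45.SP.t_PG
theorem t_GFIN : Pool.Agent.Helper10.SP.S_GFIN :=
  _root_.Pool.Agent.Helper53.SP.gfin t_NET t_LLCONV t_LPG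
theorem t_FIBT : Pool.Agent.Helper10.SP.S_FIBT :=
  _root_.Pool.Agent.Helper13.SP.fibt t_GFIN
theorem t_ROOT : Pool.Agent.Helper10.SP.S_ROOT :=
  _root_.Pool.Agent.Helper79.SP.root t_FIBT
theorem t_MZ : Pool.Agent.Helper10.SP.S_MZ :=
  _root_.Pool.Agent.Helper8.SP.mz t_GFIN t_ROOT
theorem t_BSUM : Pool.Agent.Helper10.SP.S_BSUM :=
  _root_.Pool.Agent.Helper75.SP.bsum
theorem t_SECW : Pool.Agent.Helper10.SP.S_SECW :=
  _root_.Pool.Agent.Helper74.SP.secw t_ARRB t_WCH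
theorem t_LOCZ : Pool.Agent.Helper10.SP.S_LOCZ :=
  _root_.Pool.Agent.Helper87.SP.locz
theorem t_SONE : Pool.Agent.Helper10.SP.S_SONE :=
  _root_.Pool.Agent.Helper93.SP.sone t_BSUM
theorem t_ETA : Pool.Agent.Helper10.SP.S_ETA :=
  _root_.Pool.Agent.Helper35.SP.eta t_LMF t_BSUM
theorem t_BOCH : Pool.Agent.Helper10.SP.S_BOCH :=
  _root_.Pool.Agent.Helper64.SP.boch t_WIRT t_WCH t_LMF t_DETI t_DIVC t_BOX
theorem t_UEST : Pool.Agent.Helper10.SP.S_UEST :=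
  _root_.Pool.Agent.Helper8.SP.uest t_WIRT t_LMF t_DETI t_BOX t_PROJ t_BOCH
theorem t_PUE2 : Pool.Agent.Helper10.SP.S_PUE2 :=
  _root_.Pool.Agent.Helper87.SP.pue2 t_LFIN t_ASI
theorem t_NONI : Pool.Agent.Helper10.SP.S_NONI :=
  _root_.Pool.Agent.Helper80.SP.noni
theorem t_LCPT : Pool.Agent.Helper10.SP.S_LCPT :=
  _root_.Pool.Agent.Helper40.SP.lcpt t_L2C
theorem t_XLIM : Pool.Agent.Helper10.SP.S_XLIM :=
  _root_.Pool.Agent.Helper19.SP.xlim t_GFIN t_MZ t_BSUM t_SECW t_LOCZ t_SONE t_ETA t_UEST t_PUE2 t_NONI t_LCPT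
theorem t_FCON : Pool.Agent.Helper10.SP.S_FCON :=
  _root_.Pool.Agent.Helper97.SP.fcon t_FIBT
theorem t_SECT : Pool.Agent.Helper10.SP.S_SECT :=
  _root_.Pool.Agent.Helper37.SP.sect t_XLIM t_FCON
theorem t_BACK : Pool.Agent.Helper10.SP.S_BACK :=
  _root_.Pool.Agent.Helper9.SP.back t_PARB
theorem t_MAINSP : Pool.Agent.Helper10.SP.S_MAINSP :=
  _root_.Pool.Agent.Helper87.SP.mainsp t_GEO t_DISF t_SECT t_BACK

end Pool.Agent.Helper10.SP.Asm
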