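import Pool.Agent.Helper10.SP.GoalsT
import Pool.Agent.Helper10.SP.GoalsC

/-! # Goals H, I: flat line bundles, basic integration, Bochner formula: no commuting generators -/

open Complex Metric Set Filter Topology MeasureTheory
open scoped ContDiff ComplexConjugate ComplexOrder Manifold

namespace Pool.Agent.Helper10.SP

open Pool.Agent.Helper95.Lin Pool.Agent.Helper16.Abund Pool.Agent.Helper92.Orb

universe u v

/-- Maps of the pseudogroup between points of `Bd c 2`. -/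
def PB {b N : ℕ} (c : Fin N → Cn b) (P : Set (Cn b) → Tri b → Prop) (U : Set (Cn b))
    (t : Tri b) : Prop := P U t ∧ U ⊆ Bd c 2 ∧ MapsTo t.g U (Bd c 2)

/-- `cc` is a bounded locally constant cocycle on the arrows. -/
structure Coc {n : ℕ} {G : Type u} [Group G] (R : G → Cn n → Cn n → Prop)
    (cc : G → Cn n → Cn n → ℝ) : Prop where
  bdd : ∃ B : ℝ, ∀ γ x y, R γ x y → |cc γ x y| ≤ B
  mul : ∀ γ γ' x y z, R γ x y → R γ' y z → cc (γ' * γ) x z = cc γ x y + cc γ' y z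
  loc : ∀ γ x y, R γ x y → ∃ U ∈ 𝓝 x, ∃ W ∈ 𝓝 y, ∀ x' ∈ U, ∀ y' ∈ W, R γ x' y' →
    cc γ x' y' = cc γ x y

/-- LIOU. Bounded pluriharmonic functions on `D × ℂ` do not depend on the last variable.
PROOF. For fixed `z` the function `w ↦ u (pt z w)` is smooth with vanishing Laplacian (`lev` in the direction
`ew b`) and bounded. Liouville: harmonic functions on `ℂ` are real parts of entire functions `f`
(`∂_w u` is entire; primitive), `exp f` is bounded, so constant. Or: the gradient `∂_w u` is entire and bounded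
by the Cauchy/mean value estimate `|∂_w u(w)| ≤ C B / r` for all `r`. -/
def S_LIOU : Prop := ∀ {b : ℕ} (D : Set (Cn b)), IsOpen D → ∀ u : Cn (b + 1) → ℝ,
  ContDiffOn ℝ ∞ u (tubeS D) → (∀ x ∈ tubeS D, ∀ e, lev u x e = 0) →
  (∃ B : ℝ, ∀ x ∈ tubeS D, |u x| ≤ B) → ∀ z ∈ D, ∀ w w' : ℂ, u (pt z w) = u (pt z w')

/-- HODC. Bounded cocycles are coboundaries of basic pluriharmonic functions. USES: ARRB, LFIN, ASI, PUE,
HODG, LIOU.
PROOF. `κ` from `PUE`; `v x := - AS Rel x (fun γ y => κ y * cc γ x y)` on `T = tubeS (Bd c 2)`. Near `x₀` (`LFIN`, `C =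
tsupport κ`): `v x = - ∑ k, κ (τ_k x) cc (γ_k) x (τ_k x)` and `cc (γ_k) x (τ_k x)` is constant near `x₀` (`loc`): smooth. For
an arrow `(γ₀, x, x')`: `- v x = AS x (κ y cc γ x y)`, reindex (`ASI`: the arrows at `x` are `(γ' γ₀, x, y)`, `(γ', x', y)` arrow
at `x'`), `cc (γ' γ₀) x y = cc γ₀ x x' + cc γ' x' y`, `∑ κ = 1`: `- v x = cc γ₀ x x' - v x'`. So `v x' - v x = cc γ₀ x x'`, `DInv`
(the difference is locally constant along a local arrow). `|v| ≤ B`. `HODG`: `φ` invariant, bounded (`|φ|` is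
continuous, invariant, `Et.coc`), `u₁ := v - φ` pluriharmonic and bounded, `LIOU`; `u z := u₁ (pt z 0)`; `lev u z e =
lev u₁ (pt z 0) (pt e 0)`. `u (base y) - u (base x) = u₁ y - u₁ x = cc γ x y`. -/
def S_HODC : Prop := ∀ {b N : ℕ} {G : Type u} [Group G] (c : Fin N → Cn b) (R : ℝ)
  (Rel : G → Cn (b + 1) → Cn (b + 1) → Prop) (P : Set (Cn b) → Tri b → Prop) (Φ : Cn b → ℝ)
  (C : ℝ) (H : Cn (b + 1) → Matrix (Fin (b + 1)) (Fin (b + 1)) ℂ), FEt c R Rel P Φ C H →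
  ∀ cc, Coc Rel cc → ∃ u : Cn b → ℝ, ContDiffOn ℝ ∞ u (Bd c 2) ∧
    (∀ z ∈ Bd c 2, ∀ e, lev u z e = 0) ∧
    ∀ γ x y, Rel γ x y → u (base y) - u (base x) = cc γ x y

/-- DETC. The flat line bundle of a commutative family. USES: HODC (and Lin `S_MONTEL`, `S_IDT`).
PROOF. (1) Uniqueness: if `Dg (V_k z') = ∑ A l k V_l (g z') = ∑ A' l k V_l (g z')` near `z` then `∑ (A - A') l k V_l = 0` on an
open subset of a ball `ball (c j) 2` (`g` is open: `det Dg ≠ 0`), so on `ball (c j) 3`, and `A = A'` by `indep`.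
(2) Bounds: the entries of all such `A` (for `PB` germs at `z ∈ Bd c 2`) are bounded: otherwise there are
germs `t_n` at `z_n ∈ ball (c i) 2`, `t_n.g z_n ∈ ball (c j) 2`, `‖A_n‖ → ∞`; replace `t_n` by its extension to
`ball (c i) 4` (`ext`); the relation holds on a ball of fixed radius `ρ = 1/C` about `z_n` (there `t_n.g ∈ ball (c j) 3`;
identity theorem). Subsequence: `z_n → z_∞ ∈ closedBall (c i) 2`, `t_n.g → g` uniformly near `z_∞` with derivatives,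
`A_n/‖A_n‖ → A ≠ 0`: `0 = ∑ A l k V_l (g z)` near `z_∞`; `g` has invertible differential (`pot`: `|det Dt_n.g|²` is bounded
below since `Φ` and `a` are bounded), so it is open and `A = 0` as in (1). (3) The inverse germ has matrix
`A⁻¹`, so `|det A|` is bounded above and below by positive constants. (4) For an arrow `(γ, x, y)` let
`cc γ x y := - log |det A|` for the germ of `toP` at `base x` (independent of choices: `A` depends only on the germ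
of `g`, which is determined by the arrow: `ARRB`-type uniqueness or the identity `Rel γ (pt z w) (pt (g z) ..)`
near `x`). Multiplicative, locally constant, bounded. `HODC`. -/
def S_DETC : Prop := ∀ {b N : ℕ} {G : Type u} [Group G] (c : Fin N → Cn b) (R : ℝ)
  (Rel : G → Cn (b + 1) → Cn (b + 1) → Prop) (P : Set (Cn b) → Tri b → Prop) (Φ : Cn b → ℝ)
  (C : ℝ) (H : Cn (b + 1) → Matrix (Fin (b + 1)) (Fin (b + 1)) ℂ), FEt c R Rel P Φ C H →
  ∀ (m : ℕ) (V : Fin m → Cn b → Cn b), CFam c P m V → ∃ u : Cn b → ℝ,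
    ContDiffOn ℝ ∞ u (Bd c 2) ∧ (∀ z ∈ Bd c 2, ∀ e, lev u z e = 0) ∧
    ∀ U t, PB c P U t → ∀ z ∈ U, ∀ A : Matrix (Fin m) (Fin m) ℝ,
      (∀ᶠ z' in 𝓝 z, ∀ k, fderiv ℂ t.g z' (V k z') = ∑ l, ((A l k : ℝ) : ℂ) • V l (t.g z')) →
      A.det ≠ 0 ∧ u (t.g z) - u z = - Real.log |A.det|

/-- The period map. -/
noncomputable def tau {b : ℕ} (lam : Fin 2 → Cn b → ℂ) (z : Cn b) : ℂ := lam 1 z / lam 0 z

/-- TAUB. Basics on the period map.
PROOF. `lam 0 z ≠ 0` since `Im (conj (lam 0) lam 1) > 0`; `Im tau = Im (conj (lam 0) lam 1) / |lam 0|²`. (3): divide the two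
relations. (4): `Im (conj (a lam 0) (a lam 1)) = det Q · Im (conj (lam 0 ∘ g) (lam 1 ∘ g))` (real `2 × 2` matrices).
Möbius: `Im ((Q 0 1 + Q 1 1 τ)/(Q 0 0 + Q 1 0 τ)) = det Q Im τ / |Q 0 0 + Q 1 0 τ|²`; derivative of the Möbius map is
`det Q / (Q 0 0 + Q 1 0 τ)²`. -/
def S_TAUB : Prop := ∀ {b N : ℕ} (c : Fin N → Cn b) (P : Set (Cn b) → Tri b → Prop)
  (lam : Fin 2 → Cn b → ℂ), Per c P lam →
  (∀ z ∈ Bd c 3, lam 0 z ≠ 0 ∧ 0 < (tau lam z).im ∧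
    (conj (lam 0 z) * lam 1 z).im = ‖lam 0 z‖ ^ 2 * (tau lam z).im) ∧
  DifferentiableOn ℂ (tau lam) (Bd c 3) ∧
  ∀ (t : Tri b) (Q : Matrix (Fin 2) (Fin 2) ℝ) (z : Cn b), z ∈ Bd c 3 → t.g z ∈ Bd c 3 →
    DifferentiableAt ℂ t.g z → (∀ᶠ z' in 𝓝 z, ∀ j, t.a z' * lam j z' =
      ∑ k, ((Q k j : ℝ) : ℂ) * lam k (t.g z')) → t.a z ≠ 0 →
    0 < Q.det ∧ (Q 0 0 : ℂ) + Q 1 0 * tau lam (t.g z) ≠ 0 ∧
    tau lam z = (Q 0 1 + Q 1 1 * tau lam (t.g z)) / (Q 0 0 + Q 1 0 * tau lam (t.g z)) ∧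
    (tau lam z).im = Q.det * (tau lam (t.g z)).im / ‖(Q 0 0 : ℂ) + Q 1 0 * tau lam (t.g z)‖ ^ 2 ∧
    (∀ e, fderiv ℂ (tau lam) z e = Q.det / ((Q 0 0 : ℂ) + Q 1 0 * tau lam (t.g z)) ^ 2 *
      fderiv ℂ (tau lam) (t.g z) (fderiv ℂ t.g z e)) ∧
    ‖t.a z‖ ^ 2 * (conj (lam 0 z) * lam 1 z).im =
      Q.det * (conj (lam 0 (t.g z)) * lam 1 (t.g z)).im

/-- MU. The invariant density on the base. USES: WCH, LMF, HODC, TAUB.
PROOF. (1) Cocycle: for an arrow `(γ, x, y)`, germ `t` of `toP`, `Q` from `Per.trans`: `cc := - log det Q`. `det Q =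
|a|² D(z)/D(g z)`, `D = Im (conj (lam 0) lam 1)`, so it is bounded, locally constant and depends only on the arrow;
multiplicative. `HODC`: `u₁`. (2) `μ := exp (Φ - u₁) D`. Invariance: `Φ z = Φ (g z) + log |det Dg|² + log |a|²`,
`exp (- u₁ z) D z = exp (- u₁ (g z)) (det Q)⁻¹ D z = exp (-u₁ (g z)) D (g z) / |a|²`. (3) `LM (log μ) = LM Φ - 0 +
LM (log |lam 0|²) + LM (log Im tau)` and `LM (log Im τ) j k = - τ_j conj(τ_k)/(Im τ)²`, `τ_j = fderiv τ z e_j`. -/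
def S_MU : Prop := ∀ {b N : ℕ} {G : Type u} [Group G] (c : Fin N → Cn b) (R : ℝ)
  (Rel : G → Cn (b + 1) → Cn (b + 1) → Prop) (P : Set (Cn b) → Tri b → Prop) (Φ : Cn b → ℝ)
  (C : ℝ) (H : Cn (b + 1) → Matrix (Fin (b + 1)) (Fin (b + 1)) ℂ), FEt c R Rel P Φ C H →
  ∀ lam, Per c P lam → ∃ μ : Cn b → ℝ, ContDiffOn ℝ ∞ μ (Bd c 2) ∧ (∀ z ∈ Bd c 2, 0 < μ z) ∧
    (∀ U t, PB c P U t → ∀ z ∈ U, μ z = μ (t.g z) * ‖(fderiv ℂ t.g z).det‖ ^ 2) ∧
    ∀ z ∈ Bd c 2, ∀ j k, LM (fun y => Real.log (μ y)) z j k = LM Φ z j k -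
      fderiv ℂ (tau lam) z (Pi.single j 1) * conj (fderiv ℂ (tau lam) z (Pi.single k 1)) /
        (((tau lam z).im ^ 2 : ℝ) : ℂ)

/-- VTAU. Generators act on the period map by real quadratic polynomials. USES: TAUB.
PROOF. Let `τ = tau lam` on `B = ball (c i) 3`; if `τ` is constant take `p = q = r = 0`. Otherwise `τ (B')` is open for a
small ball `B' ⊆ B` (or: contains infinitely many values). `V = lim (t_n.g - id)/σ_n`, `t_n` is `Big` for large `n`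
(`t_n.g (c i) ∈ ball (c i) 1`). `Q_n` from `Per.trans` at `c i`; the relation holds on `ball (c i) (5/2)` for large `n`
(identity theorem, `t_n.g` maps it into `ball (c i) 3`). Put `N_n := Q_n/‖Q_n‖`; along a subsequence `N_n → N ≠ 0`, real.
From `τ z (Q 0 0 + Q 1 0 τ(g z)) = Q 0 1 + Q 1 1 τ(g z)` and `g_n → id`: `N 0 1 + (N 1 1 - N 0 0) τ - N 1 0 τ² = 0` for
infinitely many values, so `N 0 1 = N 1 0 = 0`, `N 0 0 = N 1 1 ≠ 0`. Then `(τ(g z) - τ(z)) (N 0 0 + N 1 0 τ(g z)) =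
N 0 0 τ(g z) + N 1 0 τ(g z)² - N 0 1 - N 1 1 τ(g z)`, so `[- N_n 0 1 + (N_n 0 0 - N_n 1 1) τ(g_n z) + N_n 1 0 τ(g_n z)²]/σ_n →
N 0 0 · dτ(V)(z)`. At three points with different values of `τ` the vectors `(1, τ(g_n z), τ(g_n z)²)` converge to
linearly independent ones, so the real coefficients divided by `σ_n` converge: to real numbers. -/
def S_VTAU : Prop := ∀ {b N : ℕ} (c : Fin N → Cn b) (R : ℝ) (P : Set (Cn b) → Tri b → Prop)
  (Φ : Cn b → ℝ) (C : ℝ), AFol c R P Φ C → ∀ lam, Per c P lam → ∀ (i : Fin N) (V : Cn b → Cn b),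
  InfGen c P i V → ∃ p q r : ℝ, ∀ z ∈ ball (c i) 3,
    fderiv ℂ (tau lam) z (V z) = p + q * tau lam z + r * tau lam z ^ 2

/-- ZZ. The generators of a commutative family that kill the period map form a commutative family.
USES: TAUB.
PROOF. `K_i := {x | fderiv τ (∑ x_k V_k) = 0 on ball (c i) 3}`, a subspace of `ℝᵐ` (linear in `x`). For a germ `t` of the
pseudogroup at `z ∈ ball (c i) 2`, `t.g z ∈ ball (c j) 2`, with matrix `A` (`CFam.trans`): by `TAUB` (derivative of `τ`)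
`fderiv τ z' (∑ x_k V_k z') = (nonzero) * fderiv τ (g z') (∑ (A x)_l V_l (g z'))`, so `A K_i = K_j` (identity theorem on balls).
So `dim K_i = dim K_j`; `conn` for `S = ⋃ {ball (c i) 2 | dim K_i = d}`: all `K_i` have the same dimension `m'`. If `m' = 0`:
second alternative. Otherwise choose bases `x^i_1, …, x^i_{m'}` of `K_i` and put `V'_k := ∑_l (x^i_k)_l V_l` on
`ball (c i) 3`; `trans`: the matrix of `A : K_i → K_j` in these bases, invertible; the other fields are clear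
(`comm`: bilinearity, on each ball the coefficients are constant). -/
def S_ZZ : Prop := ∀ {b N : ℕ} (c : Fin N → Cn b) (R : ℝ) (P : Set (Cn b) → Tri b → Prop)
  (Φ : Cn b → ℝ) (C : ℝ), AFol c R P Φ C → ∀ lam, Per c P lam → ∀ (m : ℕ)
  (V : Fin m → Cn b → Cn b), CFam c P m V →
  (∃ (m' : ℕ) (V' : Fin m' → Cn b → Cn b), CFam c P m' V' ∧
    ∀ k, ∀ z ∈ Bd c 3, fderiv ℂ (tau lam) z (V' k z) = 0) ∨
  ∀ i, ∀ x : Fin m → ℝ, (∀ z ∈ ball (c i) 3, fderiv ℂ (tau lam) z (∑ k, (x k : ℂ) • V k z) = 0) →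
    x = 0

/-- RK1. The second alternative is impossible. USES: WCH, DETC, TAUB, VTAU.
PROOF. (1) `τ` is not constant on any `ball (c i) 3` (`m > 0`). (2) `m = 1`: fix `i`; by `VTAU` (all real combinations
are generators) `V_k τ = ξ_k(τ)`, real polynomials of degree `≤ 2`. For `V = V_k`, `W = V_l`: `V (W τ) = W (V τ)` since
they commute (`comm` and symmetry of the second derivative), so `ξ_W'(τ) ξ_V(τ) = ξ_V'(τ) ξ_W(τ)`, as polynomials (`τ`
has infinitely many values); `ξ_V ≠ 0` (hypothesis), so `ξ_W = c ξ_V` (the Wronskian of two polynomials vanishes),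
`c` real, `(W - c V) τ = 0`, so `W = c V` by the hypothesis, contradiction to independence if `k ≠ l`.
(3) `V := V_0`, `F := |fderiv τ z (V z)| / Im τ` on `Bd c 2`, continuous; for a germ `t` with `A` (a real number `α = A 0 0 ≠ 0`):
`TAUB`: `|fderiv τ z (V z)| = (det Q/|·|²) |α| |fderiv τ (g z) (V (g z))|` and `Im τ z = det Q Im τ(g z)/|·|²`, so
`F z = |α| F (g z)`. `u` from `DETC`: `u (g z) - u z = - log |α|`: `F exp(-u)` is invariant: `F(g z) e^{-u(g z)} =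
|α|⁻¹ F z e^{-u z} |α|`. It is continuous on `Bd c 2`, every point is equivalent to a point of the compact set
`⋃ closedBall (c i) 1` (`coc`), so it has a maximum at some `z₁ ∈ Bd c 2`, which is positive (`F` is not identically
zero). (4) Near `z₁` `log F - u = log |h| - log Im τ - u`, `h := fderiv τ z (V z)` holomorphic and nonzero at `z₁`; its
Levi form in the direction `e` is `|fderiv τ z e|²/(Im τ)²` (`WCH` and the computation of `MU` (3)), and at a local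
maximum it is `≤ 0`: so `fderiv τ z₁ e = 0` for all `e`, and `h z₁ = 0`: contradiction. -/
def S_RK1 : Prop := ∀ {b N : ℕ} {G : Type u} [Group G] (c : Fin N → Cn b) (R : ℝ)
  (Rel : G → Cn (b + 1) → Cn (b + 1) → Prop) (P : Set (Cn b) → Tri b → Prop) (Φ : Cn b → ℝ)
  (C : ℝ) (H : Cn (b + 1) → Matrix (Fin (b + 1)) (Fin (b + 1)) ℂ), FEt c R Rel P Φ C H →
  ∀ lam, Per c P lam → ∀ (m : ℕ) (V : Fin m → Cn b → Cn b), CFam c P m V →
  ¬ ∀ i, ∀ x : Fin m → ℝ, (∀ z ∈ ball (c i) 3, fderiv ℂ (tau lam) z (∑ k, (x k : ℂ) • V k z) = 0) →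
    x = 0

/-- The divergence of `V` with respect to the density `μ`. -/
noncomputable def hV {b : ℕ} (μ : Cn b → ℝ) (V : Cn b → Cn b) (z : Cn b) : ℂ :=
  ∑ j, (cd j (fun y => ((Real.log (μ y) : ℝ) : ℂ)) z * V z j + cd j (fun y => V y j) z)

/-- HVR. Generators preserve invariant densities.
PROOF. `z ∈ ball (c i) 2`; for large `n` `t_n.g` maps a neighbourhood of `z` into `ball (c i) 2`, so
`log μ(t_n.g z) - log μ z + log |det Dt_n.g z|² = 0`. Divide by `σ_n`: `t_n.g = id + σ_n V + o(σ_n)` uniformly on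
`ball (c i) 3`, so also the derivatives (Cauchy estimates): the limit is `fderiv ℝ (log μ) z (V z) + 2 Re tr (DV z) = 0`,
and this is `Re (hV μ V z)`: `fderiv ℝ f z v = Re ∑ cd_j f v_j` for real `f`, `cd_j (V_j) = 2 ∂_j V_j` for holomorphic `V_j`. -/
def S_HVR : Prop := ∀ {b N : ℕ} (c : Fin N → Cn b) (R : ℝ) (P : Set (Cn b) → Tri b → Prop)
  (Φ : Cn b → ℝ) (C : ℝ), AFol c R P Φ C → ∀ μ : Cn b → ℝ, ContDiffOn ℝ ∞ μ (Bd c 2) →
  (∀ z ∈ Bd c 2, 0 < μ z) →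
  (∀ U t, PB c P U t → ∀ z ∈ U, μ z = μ (t.g z) * ‖(fderiv ℂ t.g z).det‖ ^ 2) →
  ∀ (i : Fin N) (V : Cn b → Cn b), InfGen c P i V → ∀ z ∈ ball (c i) 2, (hV μ V z).re = 0

/-- RLT. The curvature is real on a commutative family that kills the period map. USES: WIRT, LMF, MU,
HVR.
PROOF. `μ` from `MU`, `h_k := hV μ (V k)` on `Bd c 2`, purely imaginary (`HVR`). `cdb_l h_k = ∑ j LM(log μ) j l V_k^j = ∑ j LM Φ j l
V_k^j` (the second term is `fderiv τ (V_k) * … = 0`; `V` is holomorphic). Since `conj h = -h`: `cd_l h_k = - conj (cdb_l h_k) =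
- ∑ j LM Φ l j conj (V_k^j)`. Commuting fields: `∑ l V_k^l cd_l h_m = ∑ l V_m^l cd_l h_k` (expand: with `ℓ = log μ`, the
terms `V^l W^j cd_l cd_j ℓ` are symmetric, `∑ cd_j ℓ (V^l cd_l W^j - W^l cd_l V^j) = 0` and `∑ l j (V^l cd_l cd_j W^j -
W^l cd_l cd_j V^j) = ∑ j cd_j (…) = 0` by `comm`). So `∑ V_k^l LM Φ l j conj (V_m^j) = ∑ V_m^l LM Φ l j conj (V_k^j)`, i.e.
`hermi Θ V_k V_m = hermi Θ V_m V_k = conj (hermi Θ V_k V_m)`. -/
def S_RLT : Prop := ∀ {b N : ℕ} {G : Type u} [Group G] (c : Fin N → Cn b) (R : ℝ)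
  (Rel : G → Cn (b + 1) → Cn (b + 1) → Prop) (P : Set (Cn b) → Tri b → Prop) (Φ : Cn b → ℝ)
  (C : ℝ) (H : Cn (b + 1) → Matrix (Fin (b + 1)) (Fin (b + 1)) ℂ), FEt c R Rel P Φ C H →
  ∀ lam, Per c P lam → ∀ (m : ℕ) (V : Fin m → Cn b → Cn b), CFam c P m V →
  (∀ k, ∀ z ∈ Bd c 3, fderiv ℂ (tau lam) z (V k z) = 0) →
  ∀ k l, ∀ z ∈ Bd c 2, (hermi (LM Φ z) (V k z) (V l z)).im = 0

/-- GIND. Generic independence. USES: LMF.
PROOF. (1) If `∑ λ_k V_k z = 0` with complex `λ_k` then `∑ (Re λ_k) V_k z = 0 = ∑ (Im λ_k) V_k z` (`z ∈ Bd c 2`): `P + I Q = 0`,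
`hermi Θ P Q` is real (real combinations), and `= - I hermi Θ Q Q`, so `hermi Θ Q Q = 0`, `Q = 0` (`Θ = LM Φ z` positive
definite), `P = 0`. (2) Fix `i`. Let `S ⊆ Fin m` be maximal such that `(V_k z)_{k ∈ S}` is linearly independent over `ℂ`
at some point of `ball (c i) 2`; then it is so on a small ball `B` about it. If `S ≠ univ` let `l ∉ S`: on `B`
`V_l = ∑_{k ∈ S} c_k V_k` with holomorphic `c_k` (Cramer's rule, a nonvanishing minor). By (1) and independence the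
`c_k` are real, so constant; then `V_l - ∑ c_k V_k = 0` on `B`, so on `ball (c i) 3`: contradiction to `indep`. -/
def S_GIND : Prop := ∀ {b N : ℕ} (c : Fin N → Cn b) (R : ℝ) (P : Set (Cn b) → Tri b → Prop)
  (Φ : Cn b → ℝ) (C : ℝ), AFol c R P Φ C → ∀ (m : ℕ) (V : Fin m → Cn b → Cn b), CFam c P m V →
  (∀ k l, ∀ z ∈ Bd c 2, (hermi (LM Φ z) (V k z) (V l z)).im = 0) →
  ∀ i, ∃ z ∈ ball (c i) 2, LinearIndependent ℂ fun k => V k z

/-! ## Integration over the base -/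

/-- PIO. The Piola identity.
PROOF. Direct: `Z = ‖J‖² (Dg)⁻¹ (Y ∘ g) = conj(J) adj(Dg) (Y ∘ g)`; `cd k` kills `conj(J)`; `∑ k cd_k (adj(Dg) k p) = 0` (the
cofactors of a holomorphic Jacobian matrix are divergence free) and `∑ k adj(Dg) k p cd_k ((Y^q) ∘ g) =
∑ k adj(Dg) k p ∑ r (∂_k g_r) (cd_r Y^q) ∘ g = J δ_{pr} …` (`WCH` chain rule: `cd_k (f ∘ g) = ∑ r ∂_k g_r (cd_r f) ∘ g` for
smooth `f`, `g` holomorphic). Or weakly: test functions, integration by parts and change of variables near `x`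
where `g` is injective. -/
def S_PIO : Prop := ∀ {n : ℕ} (U U' : Set (Cn n)) (g : Cn n → Cn n), IsOpen U → IsOpen U' →
  DifferentiableOn ℂ g U → MapsTo g U U' → (∀ x ∈ U, (fderiv ℂ g x).det ≠ 0) →
  ∀ Y Z : Cn n → Cn n, ContDiffOn ℝ ∞ Y U' → ContDiffOn ℝ ∞ Z U →
  (∀ x ∈ U, fderiv ℂ g x (Z x) = ((‖(fderiv ℂ g x).det‖ ^ 2 : ℝ) : ℂ) • Y (g x)) →
  ∀ x ∈ U, ∑ k, cd k (fun y => Z y k) x =
    ((‖(fderiv ℂ g x).det‖ ^ 2 : ℝ) : ℂ) * ∑ k, cd k (fun y => Y y k) (g x)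

/-- INTB. Integration over the base. USES: WIRT, WCH, ARRB, PUE, DETI, DIVC, PIO.
PROOF. `T = tubeS (Bd c 2)`, index `w := Fin.natAdd b 0`. `Y'^j := μ(base) H w w Y^j` for `j` in the base,
`Y'^w := - μ(base) ∑ j H j w Y^j`. For an arrow `τ = (g, a w + β)` (`toP`): `H w w x = |a|² H w w (τ x)`, and the horizontal
lift `Y^j e_j - (∑ j H j w Y^j / H w w) e_w` (orthogonal to `e_w` for `H`) is mapped to the horizontal lift of
`Dg (Y z) = Y (g z)` at `τ x`; with `μ z = μ (g z) |det Dg|²`, `det Dτ = a det Dg`: the hypothesis of `DIVC` holds.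
`∑ cd_k Y'^k = H w w ∑ j cd_j (μ Y^j) + ∑ j μ Y^j (cd_j (H w w) - cd_w (H j w)) = H w w ∑ j cd_j (μ Y^j)` (`closed`; `μ, Y` do not
depend on `w`). So `∫ κ H w w μ f = 0`, `f := μ⁻¹ ∑ cd_j (μ Y^j)` at the base point. With `Re f ≥ 0`, continuity and
`H w w > 0`: `κ Re f = 0` on `T`. `f` is invariant: `PIO` for `μ Y` (`Z := μ Y` near `z`, `Dg Z = μ z Y (g z) =
|det Dg|² (μ Y)(g z)`). At `x ∈ T` some arrow leads to a point with `κ > 0`: `Re f = 0` everywhere. -/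
def S_INTB : Prop := ∀ {b N : ℕ} {G : Type u} [Group G] (c : Fin N → Cn b) (R : ℝ)
  (Rel : G → Cn (b + 1) → Cn (b + 1) → Prop) (P : Set (Cn b) → Tri b → Prop) (Φ : Cn b → ℝ)
  (C : ℝ) (H : Cn (b + 1) → Matrix (Fin (b + 1)) (Fin (b + 1)) ℂ), FEt c R Rel P Φ C H →
  ∀ μ : Cn b → ℝ, ContDiffOn ℝ ∞ μ (Bd c 2) → (∀ z ∈ Bd c 2, 0 < μ z) →
  (∀ U t, PB c P U t → ∀ z ∈ U, μ z = μ (t.g z) * ‖(fderiv ℂ t.g z).det‖ ^ 2) →
  ∀ Y : Cn b → Cn b, ContDiffOn ℝ ∞ Y (Bd c 2) →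
  (∀ U t, PB c P U t → ∀ z ∈ U, fderiv ℂ t.g z (Y z) = Y (t.g z)) →
  (∀ z ∈ Bd c 2, 0 ≤ ((μ z : ℂ)⁻¹ * ∑ j, cd j (fun y => (μ y : ℂ) * Y y j) z).re) →
  ∀ z ∈ Bd c 2, ((μ z : ℂ)⁻¹ * ∑ j, cd j (fun y => (μ y : ℂ) * Y y j) z).re = 0

/-! ## The Bochner formula -/

/-- The components of `V₀ ∧ … ∧ V_p`. -/
noncomputable def sg {b p : ℕ} (V : Fin (p + 1) → Cn b → Cn b) (z : Cn b)
    (I : Fin (p + 1) → Fin b) : ℂ := (Matrix.of fun k l => V k z (I l)).det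

/-- The components of the divergence of `V₀ ∧ … ∧ V_p` with respect to the weight `W`. -/
noncomputable def dsg {b p : ℕ} (W : Cn b → ℝ) (V : Fin (p + 1) → Cn b → Cn b) (z : Cn b)
    (J : Fin p → Fin b) : ℂ :=
  (W z : ℂ)⁻¹ * ∑ i, cd i (fun y => (W y : ℂ) * sg V y (Fin.cons i J)) z

/-- Products of the entries of `θ`. -/
noncomputable def thp {b p : ℕ} (θ : Matrix (Fin b) (Fin b) ℂ) (J L : Fin p → Fin b) : ℂ :=
  ∏ s, θ (J s) (L s)

/-- The Hermitian form on tensors. -/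
noncomputable def tf {b p : ℕ} (θ : Matrix (Fin b) (Fin b) ℂ) (x y : (Fin p → Fin b) → ℂ) : ℂ :=
  ∑ J, ∑ L, thp θ J L * x J * conj (y L)

/-- The Bochner field. -/
noncomputable def YB {b p : ℕ} (Φ μ u : Cn b → ℝ) (V : Fin (p + 1) → Cn b → Cn b) (z : Cn b) :
    Cn b := fun i => (Real.exp (-2 * u z) : ℂ) * tf (LM Φ z) (fun J => sg V z (Fin.cons i J))
      (dsg (fun y => μ y * Real.exp (-2 * u y)) V z)

/-- TENS. Positivity of the form on tensors.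
PROOF. `θ = Q Qᴴ` with `Q` invertible (as in `Matrix.PosDef`); `tf θ x x = ∑_K |∑_J (∏ s, Q (J s) (K s)) x J|²`, and the
matrix `∏ s, Q (J s) (K s)` is invertible (inverse `∏ s, Q⁻¹ ..`). -/
def S_TENS : Prop := ∀ {b p : ℕ} (θ : Matrix (Fin b) (Fin b) ℂ), θ.PosDef →
  ∀ x : (Fin p → Fin b) → ℂ, (tf θ x x).im = 0 ∧ 0 ≤ (tf θ x x).re ∧
    ((tf θ x x).re = 0 → x = 0)

/-- BID. The Bochner identity (pointwise). USES: WIRT, LMF.
PROOF. `σ = sg V`, `W = μ exp(-2u)`, `δ = dsg W V`, `Θ = LM Φ`. `μ YB_i = W tf Θ (σ (cons i ·)) δ`.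
`∑ i cd_i (μ YB_i) = ∑ J L [ (∑ i cd_i (W σ (cons i J))) thp conj(δ L) + W ∑ i σ(cons i J) (cd_i thp) conj(δ L) +
W ∑ i σ (cons i J) thp conj (cdb_i (δ L)) ]`. First: `W δ J thp conj(δ L)`. Second: `cd_i (thp Θ J L) = ∑ s (cd_i Θ (J s) (L s))
∏_{s' ≠ s} …`; `σ (cons i J)` is antisymmetric under the exchange of `i` and `J s`, `cd_i Θ (J s) (L s)` symmetric (`LMF`),
so the sum over `i` and `J` vanishes. Third: `σ` is holomorphic, so `cdb_i (δ L) = ∑ k (cdb_i cd_k log W) σ (cons k L) =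
∑ k LM (log W) k i σ (cons k L)`, `LM (log W) = LM (log μ) - 2 LM u`, `LM u = 0` (`lev u = 0` for all `e`, polarization), and
`∑ k (fderiv τ e_k) σ (cons k L) = 0` (it is the determinant of the matrix with column `(fderiv τ (V_s))_s = 0`); so
`cdb_i (δ L) = ∑ k Θ k i σ (cons k L)`, `conj = ∑ k Θ i k conj (σ (cons k L))`, and `∑ i k J L σ(cons i J) Θ i k thp Θ J L
conj(σ (cons k L)) = tf Θ σ σ` (`Fin.consEquiv`, `Fin.prod_univ_succ`). -/
def S_BID : Prop := ∀ {b p : ℕ} (D : Set (Cn b)), IsOpen D → ∀ (Φ μ u : Cn b → ℝ) (τ : Cn b → ℂ)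
  (V : Fin (p + 1) → Cn b → Cn b), ContDiffOn ℝ ∞ Φ D → ContDiffOn ℝ ∞ μ D → ContDiffOn ℝ ∞ u D →
  (∀ z ∈ D, 0 < μ z) → DifferentiableOn ℂ τ D → (∀ k, DifferentiableOn ℂ (V k) D) →
  (∀ z ∈ D, ∀ e, lev u z e = 0) → (∀ k, ∀ z ∈ D, fderiv ℂ τ z (V k z) = 0) →
  (∀ z ∈ D, ∀ j k, LM (fun y => Real.log (μ y)) z j k = LM Φ z j k -
    fderiv ℂ τ z (Pi.single j 1) * conj (fderiv ℂ τ z (Pi.single k 1)) /
      (((τ z).im ^ 2 : ℝ) : ℂ)) →
  ContDiffOn ℝ ∞ (YB Φ μ u V) D ∧ ∀ z ∈ D,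
    (μ z : ℂ)⁻¹ * ∑ i, cd i (fun y => (μ y : ℂ) * YB Φ μ u V y i) z =
      (Real.exp (-2 * u z) : ℂ) * (tf (LM Φ z) (dsg (fun y => μ y * Real.exp (-2 * u y)) V z)
        (dsg (fun y => μ y * Real.exp (-2 * u y)) V z) + tf (LM Φ z) (sg V z) (sg V z))

/-- BNAT. Invariance of the Bochner field. USES: WIRT, WCH, PIO.
PROOF. `G p i := fderiv g z (e_i) p`, `G^Q_J := ∏ s, G (Q s) (J s)`. `∑_I G^I'_I σ(z) I = det A · σ (g z) I'` (multilinearity:
the matrix `V_k^{I l}` transforms by `G` on the columns and by `Aᵀ` on the rows). `W z = W (g z) |J|² |det A|⁻²`,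
`J = det Dg` (invariance of `μ`, `u (g z) - u z = - log |det A|`; `|det A|` is locally constant). For fixed `Q : Fin p → Fin b`
the vector field `Z^i := ∑_J G^Q_J W σ (cons i J)` satisfies `(Dg Z)^p = det A W z σ(g z) (cons p Q) =
|J|² (det A)⁻¹ (W σ)(g z) (cons p Q)` (`det A` real), so `PIO` gives `∑ i cd_i Z^i = |J|² (det A)⁻¹ W(g z) δ(g z) Q =
W z det A δ (g z) Q`; and `cd_i (G^Q_J)` contracts to zero with `σ (cons i J)` (symmetric in `i, J s`). So `∑_J G^Q_J δ(z) J =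
det A δ (g z) Q`. With `LM Φ z j l = ∑ G p j conj(G q l) LM Φ (g z) p q` (`WCH` and `PotR`: `log |det Dg|²`, `log |a|²` are
pluriharmonic) the field `exp(-2u) σ conj(δ) Θ` is transformed by `G` only: factors `exp(-2u(g z)) = |det A|² exp(-2u z)`,
`(det A)⁻¹`, `(det A)⁻¹`. -/
def S_BNAT : Prop := ∀ {b p : ℕ} (U U' : Set (Cn b)) (Φ μ u : Cn b → ℝ)
  (V : Fin (p + 1) → Cn b → Cn b) (t : Tri b) (A : Matrix (Fin (p + 1)) (Fin (p + 1)) ℝ),
  IsOpen U → IsOpen U' → ContDiffOn ℝ ∞ Φ (U ∪ U') → ContDiffOn ℝ ∞ μ (U ∪ U') →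
  ContDiffOn ℝ ∞ u (U ∪ U') → (∀ z ∈ U ∪ U', 0 < μ z) →
  (∀ k, DifferentiableOn ℂ (V k) (U ∪ U')) → t.HolOn U → MapsTo t.g U U' →
  (∀ z ∈ U, PotR Φ Φ t z) → (∀ z ∈ U, μ z = μ (t.g z) * ‖(fderiv ℂ t.g z).det‖ ^ 2) →
  A.det ≠ 0 → (∀ z ∈ U, u (t.g z) - u z = - Real.log |A.det|) →
  (∀ z ∈ U, ∀ k, fderiv ℂ t.g z (V k z) = ∑ l, ((A l k : ℝ) : ℂ) • V l (t.g z)) →
  ∀ z ∈ U, fderiv ℂ t.g z (YB Φ μ u V z) = YB Φ μ u V (t.g z)

/-- BOCF. There is no commutative family that kills the period map. USES: WIRT, LMF, MU, DETC, RLT, GIND,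
INTB, TENS, BID, BNAT.
PROOF. `m = p + 1`. `μ` (`MU`), `u` (`DETC`), `Y := YB Φ μ u V`. `BNAT` (locally near each point of a `PB` map, with `A`
from `CFam.trans` and `DETC`): `Y` is invariant. `BID` on `D = Bd c 2` and `TENS`: the hypothesis `0 ≤ Re` of `INTB` holds,
so `tf Θ (sg V z) (sg V z) = 0`, and by `TENS` `sg V z = 0` for all `z ∈ Bd c 2`. But `GIND` (with `RLT`) gives a point where
`V_0, …, V_p` are linearly independent over `ℂ`, so some minor `sg V z I ≠ 0`. (`N > 0`.) -/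
def S_BOCF : Prop := ∀ {b N : ℕ} {G : Type u} [Group G] (c : Fin N → Cn b) (R : ℝ)
  (Rel : G → Cn (b + 1) → Cn (b + 1) → Prop) (P : Set (Cn b) → Tri b → Prop) (Φ : Cn b → ℝ)
  (C : ℝ) (H : Cn (b + 1) → Matrix (Fin (b + 1)) (Fin (b + 1)) ℂ), FEt c R Rel P Φ C H →
  ∀ lam, Per c P lam → ∀ (m : ℕ) (V : Fin m → Cn b → Cn b), CFam c P m V →
  ¬ ∀ k, ∀ z ∈ Bd c 3, fderiv ℂ (tau lam) z (V k z) = 0

/-- DISF. The transversal pseudogroup is discrete. USES: FG, PER, ZZ, RK1, BOCF.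
PROOF. `S_FG`: if not `Disc` there is a `CFam`; `S_PER` gives `lam`; `ZZ` and `RK1`, `BOCF`. -/
def S_DISF : Prop := ∀ {b N : ℕ} {G : Type u} [Group G] (c : Fin N → Cn b) (R : ℝ)
  (Rel : G → Cn (b + 1) → Cn (b + 1) → Prop) (P : Set (Cn b) → Tri b → Prop) (Φ : Cn b → ℝ)
  (C : ℝ) (H : Cn (b + 1) → Matrix (Fin (b + 1)) (Fin (b + 1)) ℂ), FEt c R Rel P Φ C H →
  Disc c P

end Pool.Agent.Helper10.SP
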