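import Pool.Agent.Helper10.SP.GoalsC

/-! # Goals E: generalised periods -/

open Complex Metric Set Filter Topology MeasureTheory
open scoped ContDiff ComplexConjugate

namespace Pool.Agent.Helper10.SP

open Pool.Agent.Helper95.Lin

/-- Elements near the identity. -/
def NrA {b N : ℕ} (c : Fin N → Cn b) (P : Set (Cn b) → Tri b → Prop) (i : Fin N) (ρ ε : ℝ)
    (t : Tri b) : Prop :=
  Big c P i t ∧ ∀ z ∈ ball (c i) ρ, ‖t.g z - z‖ ≤ ε ∧ ‖t.a z - 1‖ ≤ ε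

/-- NCV. Near the identity on a small ball implies near the identity on larger balls.
PROOF. Otherwise there is a sequence of `Big` elements `t_n`, `1/(n+1)`-near on `ball x ρ₀` but not `ε`-near on
`ball (c i) ρ`. The pairs `(t_n.g, t_n.a)` are uniformly bounded on `ball (c i) 4` (`lip` and the point of `Big`, `abd`),
so by Montel (Lin, `S_MONTEL`, proved: `t_MONTEL` in `Helper95/Lin/Assembly.lean`) a subsequence converges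
uniformly on compact subsets of `ball (c i) 4`; the limit is `(z, 1)` on `ball x ρ₀` and so everywhere (identity
theorem); contradiction on `closedBall (c i) ρ`. -/
def S_NCV : Prop := ∀ {b N : ℕ} (c : Fin N → Cn b) (R : ℝ) (P : Set (Cn b) → Tri b → Prop)
  (Φ : Cn b → ℝ) (C : ℝ), AFol c R P Φ C → ∀ (i : Fin N) (x : Cn b) (ρ₀ : ℝ), 0 < ρ₀ →
  ball x ρ₀ ⊆ ball (c i) 4 → ∀ ρ < (4 : ℝ), ∀ ε > 0, ∃ η > 0, ∀ t, Big c P i t →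
  (∀ z ∈ ball x ρ₀, ‖t.g z - z‖ ≤ η ∧ ‖t.a z - 1‖ ≤ η) →
  ∀ z ∈ ball (c i) ρ, ‖t.g z - z‖ ≤ ε ∧ ‖t.a z - 1‖ ≤ ε

/-- NML. Products and inverses of elements near the identity. USES: NCV (and helper45's `S_PG`,
`S_LMUL`, `S_SURJ` in Helper45/SP/GoalsFG.lean, GoalsF.lean if convenient).
PROOF. `η` small such that (`NCV`) both are `δ`-near on `ball (c i) ρ'`, `ρ < ρ' < 4`. Product: `comp` on
`U'' = ball (c i) 1`, then `ext` at `c i` gives `u`, `Big`; equality on `ball (c i) ρ` by the identity theorem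
(`s.g` maps `ball (c i) ρ` into `ball (c i) 4`). Inverse: `inv` at `c i`, `ext` at `t.g (c i)`; `u.comp t = one` near `c i`,
so on `ball (c i) ρ'`. By `SURJ` each `w ∈ ball (c i) ρ` is `t.g z`, `z ∈ ball (c i) ρ'`, so `u.g w = z`, and the other
components as in helper45's `LMUL`. `‖u.g w - w‖ = ‖z - t.g z‖`, `u.a w = 1 / t.a z`. -/
def S_NML : Prop := ∀ {b N : ℕ} (c : Fin N → Cn b) (R : ℝ) (P : Set (Cn b) → Tri b → Prop)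
  (Φ : Cn b → ℝ) (C : ℝ), AFol c R P Φ C → ∀ (i : Fin N), ∀ ρ < (4 : ℝ), ∀ ε > 0, ∃ η > 0,
  ∀ t, NrA c P i 3 η t →
    (∀ s, NrA c P i 3 η s → MapsTo s.g (ball (c i) ρ) (ball (c i) 4) ∧ ∃ u, NrA c P i ρ ε u ∧
      u.EqOn (t.comp s) (ball (c i) ρ)) ∧
    MapsTo t.g (ball (c i) ρ) (ball (c i) 4) ∧ ∃ u, NrA c P i ρ ε u ∧
      MapsTo u.g (ball (c i) ρ) (ball (c i) 4) ∧ (u.comp t).EqOn Tri.one (ball (c i) ρ) ∧
      (t.comp u).EqOn Tri.one (ball (c i) ρ)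

/-- NET. Finite nets.
PROOF. Otherwise choose inductively `t_0, t_1, …` such that no two are `η`-close on `ball (c i) 3`; by Montel the
pairs `(t_n.g, t_n.a)` have a subsequence converging uniformly on `closedBall (c i) 3 ⊆ ball (c i) 4`:
contradiction. -/
def S_NET : Prop := ∀ {b N : ℕ} (c : Fin N → Cn b) (R : ℝ) (P : Set (Cn b) → Tri b → Prop)
  (Φ : Cn b → ℝ) (C : ℝ), AFol c R P Φ C → ∀ (i : Fin N) (A : Set (Tri b)),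
  (∀ t ∈ A, Big c P i t) → ∀ η > 0, ∃ (n : ℕ) (s : Fin n → Tri b), (∀ k, s k ∈ A) ∧
  ∀ t ∈ A, ∃ k, ∀ z ∈ ball (c i) 3, ‖t.g z - (s k).g z‖ ≤ η ∧ ‖t.a z - (s k).a z‖ ≤ η

/-- RETN. Returns near the identity. USES: NCV, NET.
PROOF. `A := {s | Big c P i s ∧ s.g (c i) ∈ Bd c 1}`. For `w` take by `coc` (at `z = c i`, point `-w`) and `ext` an element
`s_w ∈ A` with `|s_w.a (c i) (-w) + s_w.β (c i)| < 1`. Let `s_1, …, s_n` be a net of `A` (`NET`, `η` small). For each `k`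
let `y_k = (s_k).g (c i) ∈ ball (c j_k) 1` and `r_k` the inverse of `s_k` at `c i` (`inv`, then `ext` at `y_k`): `Big` over
`ball (c j_k) 4`, `r_k.comp s_k = one` near `c i`, and so on `V := ball (c i) (2/C)` (`s_k.g` is `C`-Lipschitz, so it maps `V`
into `ball (c j_k) 3`; identity theorem). Given `w`, let `s_w` be `η`-close to `s_k` (`η < 1`): `s_w.g (c i) ∈ ball (c j_k) 2`,
`‖r_k.g (s_w.g (c i)) - c i‖ ≤ C η < 2`: `comp` and `ext` give `t`, `Big c P i t`, `t = r_k.comp s_w` near `c i` and on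
`ball (c i) (1/C)`. There `‖t.g z - z‖ = ‖r_k.g (s_w.g z) - r_k.g (s_k.g z)‖ ≤ C η` and
`t.a z = r_k.a (s_w.g z) s_w.a z` is close to `r_k.a (s_k.g z) s_k.a z = 1` (`r_k.a` is Lipschitz on `ball (c j_k) 3`, Cauchy
estimates for the finitely many `k`; the constant depends only on `C`). `NCV`: `NrA c P i 3 ε t` for `η` small. `t` maps
`(c i, -w)` to `r_k (point with fibre coordinate of modulus < 1)`, so `|t.a (c i) (-w) + t.β (c i)| ≤ C + max_k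
sup_{ball (c j_k) 2} |r_k.β| =: B`, `|q_t (c i) - w| ≤ C B`. -/
def S_RETN : Prop := ∀ {b N : ℕ} (c : Fin N → Cn b) (R : ℝ) (P : Set (Cn b) → Tri b → Prop)
  (Φ : Cn b → ℝ) (C : ℝ), AFol c R P Φ C → ∀ (i : Fin N), ∀ ε > 0, ∃ B : ℝ, ∀ w : ℂ,
  ∃ t, NrA c P i 3 ε t ∧ ‖t.q (c i) - w‖ ≤ B

/-- CMPQ. Comparison of the functions `q`. USES: NML.
PROOF. `u` the inverse of `t`, `d := t'.comp u` (an element, `NML`, with radius `7/2`): `t' = d.comp t` on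
`ball (c i) 3`. `q_{t'}(x) = q_t(x) + q_d(t.g x)/t.a x`. So `q_d (t.g x) = t.a x (q_{t'} x - q_t x)`; `bgr` for `d` and the points
`t.g x`, `t.g (c i)`, and `abd`. The last item: `bgr`, `abd` for `t`. -/
def S_CMPQ : Prop := ∀ {b N : ℕ} (c : Fin N → Cn b) (R : ℝ) (P : Set (Cn b) → Tri b → Prop)
  (Φ : Cn b → ℝ) (C : ℝ), AFol c R P Φ C → ∀ (i : Fin N), ∃ ε₀ > 0, ∃ K : ℝ, ∀ t t',
  NrA c P i 3 ε₀ t → NrA c P i 3 ε₀ t' → ∀ x ∈ ball (c i) 4,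
  (x ∈ ball (c i) 3 → ‖t'.q x - t.q x‖ ≤ K * (1 + ‖t'.q (c i) - t.q (c i)‖)) ∧
  ∀ y ∈ ball (c i) 4, ‖t.q x‖ ≤ K * (1 + ‖t.q y‖)

/-- ADDQ. Near additivity. USES: NCV, NML, CMPQ.
PROOF. `q_{t' t}(x) = q_t(x) + q_{t'}(t.g x)/t.a x`. `q_{t'}` is bounded by `K (1 + |q_{t'}(c i)|)` on `ball (c i) 4`, so by the
Cauchy estimates `|q_{t'}(t.g x) - q_{t'}(x)| ≤ K' ‖t.g x - x‖ (1 + |q_{t'}(c i)|)` for `x ∈ ball (c i) 3`, and
`|1/t.a x - 1| ≤ 2η`. -/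
def S_ADDQ : Prop := ∀ {b N : ℕ} (c : Fin N → Cn b) (R : ℝ) (P : Set (Cn b) → Tri b → Prop)
  (Φ : Cn b → ℝ) (C : ℝ), AFol c R P Φ C → ∀ (i : Fin N), ∀ ε > 0, ∃ η > 0, ∀ t t',
  NrA c P i 3 η t → NrA c P i 3 η t' → ∃ u, NrA c P i 3 ε u ∧ ∀ x ∈ ball (c i) 3,
    ‖u.q x - t.q x - t'.q x‖ ≤ ε * (1 + ‖t'.q (c i)‖)

/-- HYER. Almost additive maps (Hyers type lemma).
PROOF. `(1)` `‖F (n • w) x - n F w x‖ ≤ n (ε ‖w‖ + K)` by induction (`F ((n+1) w) = F (n w) + F w + ...`). `(2)` with `n m`: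
`‖F (n m w)/(n m) - F (m w)/m‖ ≤ ε ‖w‖ + K/m` and symmetric, so `F (n w)/n` is Cauchy, uniformly in `x`; `Λ` the limit.
Letting the multiple go to infinity in (1): `‖Λ w x - F w x‖ ≤ ε ‖w‖ + K`. Additivity: divide the hypothesis
for `n w, n w'` by `n`: `‖Λ (w+w') - Λ w - Λ w'‖ ≤ ε ‖w'‖` for all `ε`. `‖Λ w x‖ ≤ K ‖w‖` (from the growth bound),
so the additive `Λ · x` is continuous, hence real linear. -/
def S_HYER : Prop := ∀ (X : Type) (F : ℂ → X → ℂ),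
  (∀ ε > 0, ∃ K : ℝ, ∀ w w' x, ‖F (w + w') x - F w x - F w' x‖ ≤ ε * ‖w'‖ + K) →
  (∃ K : ℝ, ∀ w x, ‖F w x‖ ≤ K * (1 + ‖w‖)) →
  ∃ Λ : ℂ → X → ℂ, (∀ w w' x, Λ (w + w') x = Λ w x + Λ w' x) ∧
    (∀ (r : ℝ) w x, Λ (r * w) x = r * Λ w x) ∧
    ∀ ε > 0, ∃ K : ℝ, ∀ w x, ‖F w x - Λ w x‖ ≤ ε * ‖w‖ + K

/-- LAMX. The real linear family of limits over one ball. USES: RETN, CMPQ, ADDQ, HYER.
PROOF. `ε₀, K` from `CMPQ` (`ε₀` smaller if necessary). For each `w` choose `t_w` with `NrA 3 ε₀` and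
`|q (c i) - w| ≤ B₀` (`RETN`), `F w x := t_w.q x` for `x ∈ ball (c i) 3` (`X` = this ball as a subtype).
(1) Near additivity: let `ε > 0`; `η` from `ADDQ` for `ε' = min ε ε₀`; `B` from `RETN` for `η`. Choose `s, s'`, `NrA 3 η`, with
`|q_s (c i) - w| ≤ B`, `|q_{s'} (c i) - w'| ≤ B`. By `CMPQ` `‖F w - q_s‖ ≤ K (1 + B₀ + B)`, same for `w'`. `u` from `ADDQ`:
`‖q_u - q_s - q_{s'}‖ ≤ ε (1 + |w'| + B)`; at `c i` this gives `|q_u (c i) - (w + w')| ≤ 2B + ε (1 + |w'| + B)`, so by `CMPQ`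
`‖F (w+w') - q_u‖ ≤ K (1 + B₀ + 2B + ε (1 + |w'| + B))`. Sum: `≤ (K+1) ε |w'| + K_ε`. (2) `|F w x| ≤ K (1 + |F w (c i)|)`.
(3) `HYER`: `Λ`. For any `t` with `NrA 3 ε₀ t`, `v := t.q (c i)`: `‖t.q x - F v x‖ ≤ K (1 + B₀)` (`CMPQ`), so
`‖t.q x - Λ v x‖ ≤ ε ‖v‖ + K_ε`. (4) `Λ w (c i) = w` since `|F (n w) (c i) - n w| ≤ B₀`. (5) `Λ w` is holomorphic on
`ball (c i) 3`: uniform limit of `F (n w)/n`. (6) `|F (n w)(c i)| ≤ K (1 + |F (n w)(x)|)`, divide by `n`: `|w| ≤ K |Λ w x|`;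
and `|Λ w x| ≤ K |w|`. -/
def S_LAMX : Prop := ∀ {b N : ℕ} (c : Fin N → Cn b) (R : ℝ) (P : Set (Cn b) → Tri b → Prop)
  (Φ : Cn b → ℝ) (C : ℝ), AFol c R P Φ C → ∀ (i : Fin N), ∃ (Λ : ℂ → Cn b → ℂ) (ε₀ K : ℝ),
  0 < ε₀ ∧ 0 < K ∧ (∀ w w', ∀ x ∈ ball (c i) 3, Λ (w + w') x = Λ w x + Λ w' x) ∧
  (∀ (r : ℝ) w, ∀ x ∈ ball (c i) 3, Λ (r * w) x = r * Λ w x) ∧ (∀ w, Λ w (c i) = w) ∧
  (∀ w, DifferentiableOn ℂ (Λ w) (ball (c i) 3)) ∧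
  (∀ w, ∀ x ∈ ball (c i) 3, ‖w‖ ≤ K * ‖Λ w x‖ ∧ ‖Λ w x‖ ≤ K * ‖w‖) ∧
  ∀ ε > 0, ∃ B : ℝ, ∀ t, NrA c P i 3 ε₀ t → ∀ x ∈ ball (c i) 3,
    ‖t.q x - Λ (t.q (c i)) x‖ ≤ ε * ‖t.q (c i)‖ + B

/-- CNJ. Conjugation of elements near the identity. USES: NCV.
PROOF. As helper45's `S_CONJ`: the inverse germ of `s` at `y = s.g x` is `k` (`inv`), `s.g` is open near `x`; the germ of
`s t k` at `y` belongs to the pseudogroup (`comp`), maps `y` near `y`, so it extends by `ext` to `T`, `Big c P j T`, with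
`T.comp s = s.comp t` near `x`, and on `ball x e` by the identity theorem (`e` fixed with `ball x (2e) ⊆ U ∩ ball (c i) 3`,
`s.g (ball x (2e)) ⊆ ball (c j) 3`, `η < e`). On `s.g (ball x e)`, which contains a ball about `y`, `T` is close to the
identity: `T.g (s.g z) - s.g z = s.g (t.g z) - s.g z`, `T.a (s.g z) s.a z = s.a (t.g z) t.a z`; `NCV` for `j`. -/
def S_CNJ : Prop := ∀ {b N : ℕ} (c : Fin N → Cn b) (R : ℝ) (P : Set (Cn b) → Tri b → Prop)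
  (Φ : Cn b → ℝ) (C : ℝ), AFol c R P Φ C → ∀ (i j : Fin N) (U : Set (Cn b)) (s : Tri b), P U s →
  ∀ x ∈ U, x ∈ ball (c i) 2 → s.g x ∈ ball (c j) 2 → ∃ e > 0, ball x e ⊆ U ∧
    ball x e ⊆ ball (c i) 3 ∧ MapsTo s.g (ball x e) (ball (c j) 3) ∧ ∀ ε > 0, ∃ η > 0, ∀ t,
    NrA c P i 3 η t → MapsTo t.g (ball x e) U ∧ ∃ T, NrA c P j 3 ε T ∧
      (T.comp s).EqOn (s.comp t) (ball x e)

/-- LTR. Transformation of the limits. USES: RETN, LAMX, CNJ.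
PROOF. The functions `Λ_i`, `Λ_j` are any functions with the properties of `LAMX`. `η` from `CNJ` for `ε = ε₀ (j)`, and
`η ≤ ε₀ (i)`. For `n ≥ 1` choose `t_n` with `NrA i 3 η` and `|q (c i) - n w| ≤ B` (`RETN`); `T_n` from `CNJ`. From
`T s = s t`: `q_T (s.g z) = s.a z q_t z + s.β (t.g z)/T.a (s.g z) - s.β z` on `ball x e`. So `q_{T_n}(s.g z)/n → s.a z Λ_i w z`
(`q_{t_n}(z)/n → Λ_i w z` by the last property of `LAMX` and linearity). With `v_n := q_{T_n}(c j)`: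
`q_{T_n}(y')/n - Λ_j (v_n/n) y' → 0` if `v_n = O(n)`; and `v_n = O(n)` because `|v_n| ≤ K |Λ_j v_n y'| ≤ K(|q_{T_n} y'| +
ε |v_n| + B)`, `K ε ≤ 1/2`. So `Λ_j (v_n/n)(s.g z) → s.a z Λ_i w z` for each `z`; by the lower bound `v_n/n` is Cauchy, limit
`w'`, and `Λ_j w' (s.g z) = s.a z Λ_i w z` for all `z ∈ ball x e`. -/
def S_LTR : Prop := ∀ {b N : ℕ} (c : Fin N → Cn b) (R : ℝ) (P : Set (Cn b) → Tri b → Prop)
  (Φ : Cn b → ℝ) (C : ℝ), AFol c R P Φ C → ∀ (Λ : Fin N → ℂ → Cn b → ℂ) (ε₀ K : ℝ), 0 < ε₀ →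
  0 < K → (∀ i w w', ∀ x ∈ ball (c i) 3, Λ i (w + w') x = Λ i w x + Λ i w' x) →
  (∀ i, ∀ (r : ℝ) w, ∀ x ∈ ball (c i) 3, Λ i (r * w) x = r * Λ i w x) →
  (∀ i w, DifferentiableOn ℂ (Λ i w) (ball (c i) 3)) →
  (∀ i w, ∀ x ∈ ball (c i) 3, ‖w‖ ≤ K * ‖Λ i w x‖ ∧ ‖Λ i w x‖ ≤ K * ‖w‖) →
  (∀ i, ∀ ε > 0, ∃ B : ℝ, ∀ t, NrA c P i 3 ε₀ t → ∀ x ∈ ball (c i) 3,
    ‖t.q x - Λ i (t.q (c i)) x‖ ≤ ε * ‖t.q (c i)‖ + B) →
  ∀ (i j : Fin N) (U : Set (Cn b)) (s : Tri b), P U s → ∀ x ∈ U, x ∈ ball (c i) 2 →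
  s.g x ∈ ball (c j) 2 → ∃ e > 0, ball x e ⊆ U ∧ MapsTo s.g (ball x e) (ball (c j) 3) ∧
    ∀ w, ∃ w', ∀ z ∈ ball x e, s.a z * Λ i w z = Λ j w' (s.g z)

/-- PERA. Assembly of the periods. USES: LAMX, LTR.
PROOF. `Λ i` from `LAMX` for each `i` (common `ε₀` = minimum, `K` = maximum). `lam 0 z := Λ i 1 z`, `lam 1 z := Λ i I z`
for `z ∈ ball (c i) 3` (disjoint balls, `sep`). `Λ i (p + q I) z = p lam 0 z + q lam 1 z`. `D(z) := Im (conj (lam 0) lam 1)`: the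
lower bound `|p lam 0 + q lam 1| ≥ |p + q I|/K` gives `|D| ≥ K⁻²` (`|D|` is the determinant of a real 2×2 matrix whose
inverse has norm `≤ K`), `D (c i) = 1`, `D` continuous on the connected ball, so `D ≥ K⁻²`. `trans`: `w' =: Q 0 0 +
Q 1 0 I` for `w = 1`, `w' = Q 0 1 + Q 1 1 I` for `w = I`; `|a|² D(z) = det Q · D(g z)`, so `det Q > 0`. -/
def S_PERA : Prop := S_PER

end Pool.Agent.Helper10.SP
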