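import Pool.Agent.Helper10.SP.GoalsI
import Pool.Agent.Helper10.SP.GoalsE
import Pool.Agent.Helper95.Lin.GoalsI

/-! # Goals J, K: the discrete case; construction of sections -/

open Complex Metric Set Filter Topology MeasureTheory
open scoped ContDiff ComplexConjugate ComplexOrder Manifold

namespace Pool.Agent.Helper10.SP

open Pool.Agent.Helper95.Lin Pool.Agent.Helper16.Abund Pool.Agent.Helper92.Orb

universe u v

/-! ## The discrete case -/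

/-- The Jacobian determinant of `(z, w) ↦ (g z, a z * w + β z)`. -/
noncomputable def Jt {b : ℕ} (t : Tri b) (z : Cn b) : ℂ := (fderiv ℂ t.g z).det * t.a z

/-- `s i k`, `k < n i`, are the different base maps of the `Big` elements over `ball (c i) 4`. -/
structure GCl {b N : ℕ} (c : Fin N → Cn b) (P : Set (Cn b) → Tri b → Prop) (n : Fin N → ℕ)
    (s : ∀ i, Fin (n i) → Tri b) : Prop where
  big : ∀ i k, Big c P i (s i k)
  cov : ∀ i t, Big c P i t → ∃ k, ∀ z ∈ ball (c i) 4, t.g z = (s i k).g z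
  dist : ∀ i k l, (∀ z ∈ ball (c i) 4, (s i k).g z = (s i l).g z) → k = l

/-- GFIN. Finitely many base maps. USES: NCV (or helper45's `LCONV`, `PG`).
PROOF. Suppose there are `Big` elements `t_n` over `ball (c i) 4` with pairwise different `g`; points
`z_n ∈ ball (c i) 2`, `t_n.g z_n ∈ Bd c 2`. Subsequence: `t_n.g z_n =: y_n ∈ ball (c j) 2` for one `j`, `z_n → z_∞`, `y_n → y_∞`,
`t_n.g`, `t_n.a` converge uniformly on compact subsets of `ball (c i) 4` (Montel). Let `r_m` be the inverse of `t_m` at `y_m`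
(`inv`, `ext`): `Big` over `ball (c j) 4`, `r_m.comp t_m = one` near `z_m`. For `n, m` large choose `z'` in `ball (c i) 2` close to
`z_n`, strictly inside such that `r_m.g (t_n.g z') ∈ ball (c i) 2` (`r_m.g (t_n.g z') = r_m.g (t_m.g z') + O(C |t_n.g z' - t_m.g z'|)`
and `r_m.g (t_m.g z') = z'` for `z'` in the connected set of `ball (c i) 4` around `z_m` which `t_m.g` maps to `ball (c j) 4`, it
contains `ball z_m (2/C)`). `comp` on a small neighbourhood of `z'` and `ext` at `z'` give a `Big` `u` with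
`u.g = r_m.g ∘ t_n.g` near `z'`, `η'`-near the identity on a ball of fixed radius; so `η`-near on `ball (c i) 3` (`LCONV`: `g`
only), and `Disc` gives `u.g = id`: `t_n.g = t_m.g` near `z'` and on `ball (c i) 4`: contradiction. So there are finitely
many classes; choose representatives. -/
def S_GFIN : Prop := ∀ {b N : ℕ} (c : Fin N → Cn b) (R : ℝ) (P : Set (Cn b) → Tri b → Prop)
  (Φ : Cn b → ℝ) (C : ℝ), AFol c R P Φ C → Disc c P → ∃ (n : Fin N → ℕ)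
  (s : ∀ i, Fin (n i) → Tri b), GCl c P n s

/-- FIBT. Two independent translations of each fibre. USES: GFIN (and Lin `S_CRYST`, proved: `t_CRYST`).
PROOF. Fix `i`, `z ∈ ball (c i) 2`. `𝓕 := {t | Big c P i t, t.g = id on ball (c i) 4}`. For `t ∈ 𝓕` `pot` gives `|a| = 1`, `a`
is holomorphic on the ball, so constant. `𝓕` is closed under composition (`comp` on the ball) and inverses
(`inv` at `c i`, `ext`, identity theorem), up to equality on the ball. Proper at `z`: if `|w| ≤ r`, `|a w + β z| ≤ r` then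
`|β z| ≤ 2r`, `|β (c i)|` is bounded (`bgr`), and by `fin` there are finitely many such `t` up to equality on the ball.
Cocompact at `z`: for `w ∈ ℂ` take (`coc`, `ext`) `s_w`, `Big`, `s_w.g z ∈ Bd c 1`, `|s_w.a z w + s_w.β z| < 1`; for each of the finitely
many base maps that occur fix one `w_k`; `t := s_{w_k}⁻¹ s_w` (composition near `z`, `ext` at `z`) is in `𝓕` (base map the
identity near `z`, so on the ball) and maps `(z, w)` to `s_{w_k}⁻¹ (y, v)`, `|v| < 1`, `y = s_{w_k}.g z`: bounded. Apply `CRYST`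
to the group of all maps `w ↦ a w + β z` of `ℂ`, `t ∈ 𝓕` (a subgroup of `Equiv.Perm ℂ`, `α f = f 1 - f 0`, `β f = f 0`). -/
def S_FIBT : Prop := ∀ {b N : ℕ} (c : Fin N → Cn b) (R : ℝ) (P : Set (Cn b) → Tri b → Prop)
  (Φ : Cn b → ℝ) (C : ℝ), AFol c R P Φ C → Disc c P → ∀ i, ∀ z ∈ ball (c i) 2,
  ∃ t₁ t₂ : Tri b, Big c P i t₁ ∧ Big c P i t₂ ∧
    (∀ y ∈ ball (c i) 4, t₁.g y = y ∧ t₂.g y = y ∧ t₁.a y = 1 ∧ t₂.a y = 1) ∧
    LinearIndependent ℝ ![t₁.β z, t₂.β z]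

/-- ROOT. The fibre parts are roots of unity of bounded order. USES: FIBT.
PROOF. Fix `i`; `t₁` from `FIBT` at `z = c i`, `β₁ := t₁.β (c i) ≠ 0`. By `fin` the set of numbers `t.β (c i)` for `t ∈ 𝓕` with
`a = 1`, `|t.β (c i)| ≤ |β₁|` is finite, with `L` elements. For `t ∈ 𝓕` (`a` constant, `|a| = 1`) the elements `t^p t₁ t^(-p)` of
`𝓕` are translations with `β (c i) = a^p β₁`. So `a^p = 1` for some `1 ≤ p ≤ L`, `a^(L!) = 1`. Product over `i`. -/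
def S_ROOT : Prop := ∀ {b N : ℕ} (c : Fin N → Cn b) (R : ℝ) (P : Set (Cn b) → Tri b → Prop)
  (Φ : Cn b → ℝ) (C : ℝ), AFol c R P Φ C → Disc c P → ∃ m₀ : ℕ, 1 ≤ m₀ ∧ ∀ i t, Big c P i t →
  (∀ z ∈ ball (c i) 4, t.g z = z) → ∀ z ∈ ball (c i) 4, t.a z ^ m₀ = 1

/-- `M`-th powers of the Jacobians depend only on the base map, and are `1` at fixed points. -/
def JM {b N : ℕ} (c : Fin N → Cn b) (P : Set (Cn b) → Tri b → Prop) (M : ℕ) : Prop :=
  (∀ i t t', Big c P i t → Big c P i t' → (∀ z ∈ ball (c i) 4, t.g z = t'.g z) →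
    ∀ z ∈ ball (c i) 4, Jt t z ^ M = Jt t' z ^ M) ∧
  ∀ i t, Big c P i t → ∀ z ∈ ball (c i) 2, t.g z = z → Jt t z ^ M = 1

/-- MZ. USES: GFIN, ROOT.
PROOF. (1) `t, t'` with the same base map, `z ∈ ball (c i) 2`, `t'.g z ∈ Bd c 2`; `r` the inverse of `t'` at `t'.g z`; the germ
`r t` at `z` has base map the identity; `ext`: `u ∈ 𝓕`, `u.a = t.a/t'.a` near `z`, `(t.a/t'.a)^m₀ = 1` near `z` and on the
ball. (2) `t.g z = z`. For `p ≤ n i` the germ of `t^p` at `z` extends to a `Big` element; two of them have the same base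
map (`GFIN`, pigeonhole), so for some `1 ≤ p ≤ n i` the base map of `t^p` is the identity near `z` (cancel; `t.g` is injective
near `z`), `det D(t^p).g z = 1`, `a^m₀ = 1` for `t^p`; `Jt (t^p) z = (Jt t z)^p` (chain rule at the fixed point). So
`(Jt t z)^(p m₀) = 1`, `p ∣ (n i)!`. `M₀ := m₀ ∏ (n i)!`. Multiples of `M₀` have the property too. -/
def S_MZ : Prop := ∀ {b N : ℕ} (c : Fin N → Cn b) (R : ℝ) (P : Set (Cn b) → Tri b → Prop)
  (Φ : Cn b → ℝ) (C : ℝ), AFol c R P Φ C → Disc c P → ∃ M₀ : ℕ, 1 ≤ M₀ ∧ ∀ k : ℕ,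
  JM c P (M₀ * k)

/-- Sum over the base maps. -/
noncomputable def bsum {b N : ℕ} (c : Fin N → Cn b) (n : Fin N → ℕ) (s : ∀ i, Fin (n i) → Tri b)
    (M : ℕ) (F : Cn b → ℂ) (z : Cn b) : ℂ :=
  ∑ i, (ball (c i) 2).indicator (fun y => ∑ k, F ((s i k).g y) * Jt (s i k) y ^ M) z

/-- BSUM. Automorphic sums over the base.
PROOF. (1) On the open set `ball (c i) 2` only the term `i` is nonzero (`sep`), and it is smooth (`(s i k).g`, `Jt` are
holomorphic on `ball (c i) 4`). (2) Let `z ∈ ball (c i) 2`, `y := t.g z ∈ ball (c j) 2`. The sets `K := {k | (s i k).g z ∈ Bd c 2}` and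
`L := {l | (s j l).g y ∈ Bd c 2}` are in bijection: for `l ∈ L` the germ of `(s j l).comp t` at `z` extends (`ext`) to a `Big`
element over `ball (c i) 4`, with base map that of a unique `s i k` (`cov`, `dist`), `(s i k).g z = (s j l).g y`; inverse map
through the inverse germ of `t`. For corresponding `k, l`: `Jt (s i k) z ^ M = (Jt (s j l) y * Jt t z) ^ M` (chain rule and the
first part of `JM`; for `M = 0` trivial). The other terms vanish (`F = 0` outside `C ⊆ Bd c 2`). -/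
def S_BSUM : Prop := ∀ {b N : ℕ} (c : Fin N → Cn b) (R : ℝ) (P : Set (Cn b) → Tri b → Prop)
  (Φ : Cn b → ℝ) (C : ℝ), AFol c R P Φ C → ∀ (n : Fin N → ℕ) (s : ∀ i, Fin (n i) → Tri b),
  GCl c P n s → ∀ M : ℕ, JM c P M → ∀ (F : Cn b → ℂ) (K : Set (Cn b)), ContDiff ℝ ∞ F →
  IsCompact K → K ⊆ Bd c 2 → (∀ z ∉ K, F z = 0) → ContDiffOn ℝ ∞ (bsum c n s M F) (Bd c 2) ∧
  ∀ U t, PB c P U t → ∀ z ∈ U, bsum c n s M F z = bsum c n s M F (t.g z) * Jt t z ^ M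

/-- SECW. Sections and weights from the base. USES: WCH, LMF.
PROOF. A local arrow `τ` near `x` is `pt (g z) (a w + β)` for the germ of `toP` (`τ` and this map have values
`Rel`-related to the argument by the same `γ`; `ARRB`), `det Dτ = Jt t (base x)`. Weight: `Φ z = Φ (g z) + log |Jt|²`.
`lev (f ∘ base) x v = lev f (base x) (base v)`. -/
def S_SECW : Prop := ∀ {b N : ℕ} {G : Type u} [Group G] (c : Fin N → Cn b) (R : ℝ)
  (Rel : G → Cn (b + 1) → Cn (b + 1) → Prop) (P : Set (Cn b) → Tri b → Prop) (Φ : Cn b → ℝ)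
  (C : ℝ) (H : Cn (b + 1) → Matrix (Fin (b + 1)) (Fin (b + 1)) ℂ), FEt c R Rel P Φ C H →
  (∀ (M : ℕ) (f : Cn b → ℂ), ContDiffOn ℝ ∞ f (Bd c 2) →
    (∀ U t, PB c P U t → ∀ z ∈ U, f z = f (t.g z) * Jt t z ^ M) →
    Sec (tubeS (Bd c 2)) Rel M fun x => f (base x)) ∧
  ∀ (M : ℕ) (η : Cn b → ℝ), ContDiffOn ℝ ∞ η (Bd c 2) →
    (∀ U t, PB c P U t → ∀ z ∈ U, η (t.g z) = η z) →
    Wt (tubeS (Bd c 2)) Rel (M + 1) (fun x => Real.exp (-(M * Φ (base x)) - η (base x))) ∧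
    ∀ x ∈ tubeS (Bd c 2), ∀ v,
      lev (fun y => Real.log (Real.exp (-(M * Φ (base y)) - η (base y)))) x v =
        - (M * lev Φ (base x) (base v)) - lev η (base x) (base v)

/-- LOCZ. Isolating balls.
PROOF. For each of the finitely many `k` with `(s i k).g z₀ ≠ z₀` continuity gives a small closed ball whose image
does not meet it. -/
def S_LOCZ : Prop := ∀ {b N : ℕ} (c : Fin N → Cn b) (R : ℝ) (P : Set (Cn b) → Tri b → Prop)
  (Φ : Cn b → ℝ) (C : ℝ), AFol c R P Φ C → ∀ (n : Fin N → ℕ) (s : ∀ i, Fin (n i) → Tri b),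
  GCl c P n s → ∀ i, ∀ z₀ ∈ ball (c i) 2, ∃ r₀ : ℝ, 0 < r₀ ∧ (b : ℝ) * r₀ ^ 2 ≤ 1 / 2 ∧
    closedBall z₀ r₀ ⊆ ball (c i) 2 ∧
    ∀ k, (∃ z ∈ closedBall z₀ r₀, (s i k).g z ∈ closedBall z₀ r₀) → (s i k).g z₀ = z₀

/-- A cut-off function at `z₀` with the isolating property. -/
structure CutOff {b N : ℕ} (c : Fin N → Cn b) (n : Fin N → ℕ) (s : ∀ i, Fin (n i) → Tri b)
    (i : Fin N) (z₀ : Cn b) (r₀ r₁ : ℝ) (χ : Cn b → ℝ) : Prop where
  mem : z₀ ∈ ball (c i) 2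
  pos : 0 < r₁
  lt : r₁ < r₀
  small : b * r₀ ^ 2 ≤ 1 / 2
  sub : closedBall z₀ r₀ ⊆ ball (c i) 2
  iso : ∀ k, (∃ z ∈ closedBall z₀ r₀, (s i k).g z ∈ closedBall z₀ r₀) → (s i k).g z₀ = z₀
  smooth : ContDiff ℝ ∞ χ
  range : ∀ z, 0 ≤ χ z ∧ χ z ≤ 1
  supp : ∀ z, z ∉ closedBall z₀ r₀ → χ z = 0
  one : ∀ z ∈ ball z₀ r₁, χ z = 1

/-- SONE. The smooth section. USES: BSUM.
PROOF. On `ball z₀ r₂` (`r₂ ≤ r₁/C`, `r₂ < r₀`): a term with `(s i k).g z ∈ closedBall z₀ r₀` has `(s i k).g z₀ = z₀` (`iso`), so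
`|(s i k).g z - z₀| ≤ C |z - z₀| < r₁` and `χ = 1`; so `s₁ = ∑_{k : (s i k).g z₀ = z₀} Jt (s i k) z ^ M` there: holomorphic, and at
`z₀` it is the number of these `k` (`JM` (2)), which is positive (the class of the identity). (b) If `z ∈ ball (c j) 2` and
`‖(s j k).g z - z₀‖ < r₂` for some `k` then by automorphy (`BSUM`, for the germ of `s j k` at `z`) `s₁ = (s₁ ∘ (s j k).g) Jt^M`
near `z` is holomorphic near `z`, so `cdb l s₁ z = 0`. -/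
def S_SONE : Prop := ∀ {b N : ℕ} (c : Fin N → Cn b) (R : ℝ) (P : Set (Cn b) → Tri b → Prop)
  (Φ : Cn b → ℝ) (C : ℝ), AFol c R P Φ C → ∀ (n : Fin N → ℕ) (s : ∀ i, Fin (n i) → Tri b),
  GCl c P n s → ∀ i z₀ r₀ r₁ χ, CutOff c n s i z₀ r₀ r₁ χ →
  ∃ r₂ > 0, ∀ M : ℕ, JM c P M → bsum c n s M (fun z => (χ z : ℂ)) z₀ ≠ 0 ∧
    DifferentiableOn ℂ (bsum c n s M fun z => (χ z : ℂ)) (ball z₀ r₂) ∧
    ∀ j, ∀ z ∈ ball (c j) 2, (∃ k, ‖(s j k).g z - z₀‖ < r₂) →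
      ∀ l, cdb l (bsum c n s M fun z => (χ z : ℂ)) z = 0

/-- ETA. The singular weights. USES: WCH, LMF, BSUM.
PROOF. `E z := ∑ j ‖z j - z₀ j‖²`, `h := #{k | (s i k).g z₀ = z₀} ≥ 1`, `F_ε z := χ z (b/h) log (E z + ε²)`, `η ε := Re (bsum 0 F_ε)`.
(1) `E + ε² ≤ b r₀² + 1/4 ≤ 1` on the support: `η ≤ 0`. Smooth and invariant by `BSUM` (`JM c P 0` is trivial). (2) `lev (log (E +
ε²)) ≥ 0` (it is `log` of a sum of squares of absolute values of holomorphic functions); `lev F_ε ≥ (b/h)(terms with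
derivatives of χ)`, which are bounded uniformly in `ε ∈ (0, 1/2]`, since they vanish on `ball z₀ r₁` and outside `log (E + ε²)`
and its derivatives are bounded: `lev F_ε y e ≥ - K' ‖e‖² ≥ - K'' lev Φ y e` for `y ∈ closedBall z₀ r₀`; compose with the isometries
`(s j k).g` (`lev Φ z e = lev Φ (g z) (Dg e)`, from `pot`) and sum over at most `max n` terms. (3) every term is
`≥ (b/h) log (r₂²)` if positive `χ`, as `E y ≥ ‖y - z₀‖²` (sup norm). (4) for `z` near `z₀` the terms with `(s i k).g z₀ = z₀`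
have `χ = 1`, and `E ((s i k).g z) ≤ b C² ‖z - z₀‖²`; there are `h` of them; the others are `≤ 0`. -/
def S_ETA : Prop := ∀ {b N : ℕ} (c : Fin N → Cn b) (R : ℝ) (P : Set (Cn b) → Tri b → Prop)
  (Φ : Cn b → ℝ) (C : ℝ), AFol c R P Φ C → ∀ (n : Fin N → ℕ) (s : ∀ i, Fin (n i) → Tri b),
  GCl c P n s → ∀ i z₀ r₀ r₁ χ, CutOff c n s i z₀ r₀ r₁ χ → ∀ r₂ > 0,
  ∃ (η : ℝ → Cn b → ℝ) (K r₃ : ℝ), 0 < K ∧ 0 < r₃ ∧ ball z₀ r₃ ⊆ ball (c i) 2 ∧
  ∀ ε, 0 < ε → ε ≤ 1 / 2 → ContDiffOn ℝ ∞ (η ε) (Bd c 2) ∧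
    (∀ U t, PB c P U t → ∀ z ∈ U, η ε (t.g z) = η ε z) ∧ (∀ z ∈ Bd c 2, η ε z ≤ 0) ∧
    (∀ z ∈ Bd c 2, ∀ e, - K * lev Φ z e ≤ lev (η ε) z e) ∧
    (∀ j, ∀ z ∈ ball (c j) 2, (∀ k, r₂ ≤ ‖(s j k).g z - z₀‖) → - K ≤ η ε z) ∧
    ∀ z ∈ ball z₀ r₃, η ε z ≤ b * Real.log (K * (‖z - z₀‖ ^ 2 + ε ^ 2))

/-- The squared length of `∂̄f` with respect to the curvature. -/
noncomputable def qdb {b : ℕ} (Φ : Cn b → ℝ) (f : Cn b → ℂ) (z : Cn b) : ℝ :=
  (∑ j, ∑ k, (LM Φ z)⁻¹ j k * cdb j f z * conj (cdb k f z)).re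

/-- UEST. The estimate. USES: WIRT, LMF, ARRB, DETI, BOX, PROJ, BOCH.
PROOF. `s := f ∘ base`. `PROJ`: `g` holomorphic, `h_j`, `nsE (s - g - boxO h_j) → 0`. `u := s - g`. `nsE u = lim ipE u (boxO h_j)`,
`ipE u (boxO h_j) = dipE u h_j = dipE s h_j` (`BOX`, `∂̄g = 0`) `= ∫ κ W ∑ k cdb_k s conj (v_j^k)`, `v_j = vfld H h_j`
(`∑ k (H⁻¹) j k conj (cdb_k h) = conj (vfld h j)`); `cdb_k s = cdb_k f` for `k` in the base and `0` for the last `k`. With `Θ = LM Φ`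
and `ξ := (Θᵀ)⁻¹ ∂̄f` (`∑ i Θ i j ξ^i = cdb_j f`): `∑ j cdb_j f conj v^j = hermi Θ ξ (base v)`, Cauchy-Schwarz:
`|…|² ≤ (hermi Θ ξ ξ) lev Φ (base v)`, `hermi Θ ξ ξ = qdb`. So `|ipE u (boxO h_j)|² ≤ (∫ κ W qdb) (∫ κ W lev Φ(base v_j)) ≤
(∫ κ W qdb) nsE (boxO h_j)` (`BOCH` and the hypothesis), and `nsE (boxO h_j) → nsE u`. -/
def S_UEST : Prop := ∀ {b N : ℕ} {G : Type u} [Group G] (c : Fin N → Cn b) (R : ℝ)
  (Rel : G → Cn (b + 1) → Cn (b + 1) → Prop) (P : Set (Cn b) → Tri b → Prop) (Φ : Cn b → ℝ)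
  (C : ℝ) (H : Cn (b + 1) → Matrix (Fin (b + 1)) (Fin (b + 1)) ℂ), FEt c R Rel P Φ C H →
  ∀ κ, IsPUE (tubeS (Bd c 2)) Rel κ → ∀ (M : ℕ) (W : Cn (b + 1) → ℝ),
  Wt (tubeS (Bd c 2)) Rel M W →
  (∀ x ∈ tubeS (Bd c 2), ∀ v, lev Φ (base x) (base v) ≤ - lev (fun y => Real.log (W y)) x v) →
  ∀ f : Cn b → ℂ, ContDiffOn ℝ ∞ f (Bd c 2) → Sec (tubeS (Bd c 2)) Rel M (fun x => f (base x)) →
  (∀ z ∈ Bd c 2, 0 ≤ qdb Φ f z ∧ ((∀ j, cdb j f z = 0) → qdb Φ f z = 0)) ∧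
  ContinuousOn (qdb Φ f) (Bd c 2) ∧
  ∃ g : Cn (b + 1) → ℂ, Sec (tubeS (Bd c 2)) Rel M g ∧ DifferentiableOn ℂ g (tubeS (Bd c 2)) ∧
    nsE (tubeS (Bd c 2)) κ W (fun x => f (base x) - g x) ≤
      ∫ x in tubeS (Bd c 2), κ x * W x * qdb Φ f (base x)

/-- PUE2. Partition functions which are positive on a given compact set. USES: ARRB, LFIN, ASI.
PROOF. As `PUE`, with `η > 0` on `C ∪ C₀`. -/
def S_PUE2 : Prop := ∀ {n : ℕ} (T : Set (Cn n)) {G : Type u} [Group G]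
  (R : G → Cn n → Cn n → Prop), Et T R → ∀ C ⊆ T, IsCompact C →
  ∃ κ, IsPUE T R κ ∧ ∀ x ∈ C, 0 < κ x

/-- NONI. PROOF. Disjoint shells `r 2^(-j-1) ≤ ‖z - z₀‖ < r 2^(-j)` have volume `c 2^(-2bj)`, `c > 0` (`volume` of a ball of
the sup norm in `ℂᵇ` is `(π r²)ᵇ`), and for `ε ≤ r 2^(-j)` the integrand is `≥ (2 K r² 2^(-2j))^(-b)` there: each of the shells
with `j ≤ J` contributes at least a constant `c' > 0` (`b ≥ 1`). -/
def S_NONI : Prop := ∀ {b : ℕ} (z₀ : Cn b) (r K : ℝ), 0 < b → 0 < r → 0 < K → ∀ L : ℝ,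
  ∃ ε₀ > 0, ∀ ε, 0 < ε → ε < ε₀ →
    L ≤ ∫ z in ball z₀ r, ((K * (‖z - z₀‖ ^ 2 + ε ^ 2)) ^ b)⁻¹

/-- LCPT. Compactness of holomorphic sections. USES: L2C (and Lin `S_MONTEL`).
PROOF. By `L2C` the `g_j` are bounded in `L²(C)` for every compact `C ⊆ T`, so (mean value inequality for
holomorphic functions on small polydiscs) locally uniformly bounded; Montel gives a subsequence converging locally
uniformly on `T` (diagonal over an exhaustion); the limit is holomorphic and automorphic. -/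
def S_LCPT : Prop := ∀ {n : ℕ} (T : Set (Cn n)) {G : Type u} [Group G]
  (R : G → Cn n → Cn n → Prop) (H : Cn n → Matrix (Fin n) (Fin n) ℂ), KEt T R H →
  ∀ κ, IsPUE T R κ → ∀ (m : ℕ) (W : Cn n → ℝ), Wt T R m W → ∀ (g : ℕ → Cn n → ℂ) (B : ℝ),
  (∀ j, Sec T R m (g j) ∧ DifferentiableOn ℂ (g j) T ∧ nsE T κ W (g j) ≤ B) →
  ∃ (φ : ℕ → ℕ) (g' : Cn n → ℂ), StrictMono φ ∧ Sec T R m g' ∧ DifferentiableOn ℂ g' T ∧
    TendstoLocallyUniformlyOn (fun j => g (φ j)) g' atTop T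

/-- XLIM. A section which does not vanish over `z₀`. USES: GFIN, MZ, BSUM, SECW, LOCZ, SONE, ETA, UEST, PUE2,
NONI, LCPT.
PROOF. `z₀ ∈ ball (c i) 2`. `n, s` (`GFIN`), `r₀` (`LOCZ`), `r₁ = r₀/2`, `χ` a cut-off; `r₂` from `SONE` (independent of the
weight), `η, K, r₃` from `ETA` for this `r₂`; `M + 1 := M₀ k` with `M ≥ K + 1`. `f := bsum (M+1) χ`,
`W_ε := exp(-M Φ - η ε)` (`SECW`). `lev Φ ≤ - lev log W_ε` since `M lev Φ + lev η ≥ (M - K) lev Φ`. `UEST`: `g_ε`,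
`nsE_{W_ε} (f - g_ε) ≤ ∫ κ W_ε qdb ≤ A`: where `qdb ≠ 0` all images are at distance `≥ r₂` from `z₀`, so `η ε ≥ - K`,
`W_ε ≤ exp(-M Φ + K)`. `W' := exp(-M Φ) ≤ W_ε`, so `nsE_{W'} g_ε ≤ 2 nsE_{W'} f + 2A`; `ε = 1/(j+2)`, `LCPT`: `g_ε → g`. If
`g (pt z₀ 0) = 0`: `|f(base x) - g_ε x| ≥ c > 0` on `prodS (ball z₀ r) (ball 0 r)` for the `ε` of the subsequence, small, `κ ≥ c'`
there (`PUE2` with `C = {pt z₀ 0}`), so by Fubini `A ≥ c'' ∫_{ball z₀ r} exp(-η ε) ≥ c'' ∫ (K(‖z - z₀‖² + ε²))^(-b)`, unbounded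
(`NONI`): contradiction. -/
def S_XLIM : Prop := ∀ {b N : ℕ} {G : Type u} [Group G] (c : Fin N → Cn b) (R : ℝ)
  (Rel : G → Cn (b + 1) → Cn (b + 1) → Prop) (P : Set (Cn b) → Tri b → Prop) (Φ : Cn b → ℝ)
  (C : ℝ) (H : Cn (b + 1) → Matrix (Fin (b + 1)) (Fin (b + 1)) ℂ), FEt c R Rel P Φ C H →
  Disc c P → ∀ z₀ ∈ Bd c 2, ∃ (M : ℕ) (g : Cn (b + 1) → ℂ), 1 ≤ M ∧
    Sec (tubeS (Bd c 2)) Rel M g ∧ DifferentiableOn ℂ g (tubeS (Bd c 2)) ∧ g (pt z₀ 0) ≠ 0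

/-- FCON. Holomorphic sections are constant on the fibres. USES: FIBT, SECW.
PROOF. `t₁, t₂` from `FIBT` at `z`: for a small ball `U ∋ z`, `PB c P U t_j`; the arrow `pt y w ↦ pt y (w + β_j y)` has Jacobian
determinant `1`, so `g (pt z w) = g (pt z (w + β_j z))` (`Sec`). The entire function `w ↦ g (pt z w)` has two independent
periods, so it is bounded and constant (Liouville). -/
def S_FCON : Prop := ∀ {b N : ℕ} {G : Type u} [Group G] (c : Fin N → Cn b) (R : ℝ)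
  (Rel : G → Cn (b + 1) → Cn (b + 1) → Prop) (P : Set (Cn b) → Tri b → Prop) (Φ : Cn b → ℝ)
  (C : ℝ) (H : Cn (b + 1) → Matrix (Fin (b + 1)) (Fin (b + 1)) ℂ), FEt c R Rel P Φ C H →
  Disc c P → ∀ (M : ℕ) (g : Cn (b + 1) → ℂ), Sec (tubeS (Bd c 2)) Rel M g →
  DifferentiableOn ℂ g (tubeS (Bd c 2)) → ∀ z ∈ Bd c 2, ∀ w w' : ℂ, g (pt z w) = g (pt z w')

/-- SECT. One weight for all points. USES: XLIM, FCON.
PROOF. For `z₀` in the compact set `⋃ closedBall (c i) 1` take `(M, g)` from `XLIM`; `g (pt z w) = g (pt z 0) ≠ 0` for `z` near `z₀`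
and all `w` (`FCON`, continuity). Finitely many such neighbourhoods cover; `M := ` product of the weights, powers. -/
def S_SECT : Prop := ∀ {b N : ℕ} {G : Type u} [Group G] (c : Fin N → Cn b) (R : ℝ)
  (Rel : G → Cn (b + 1) → Cn (b + 1) → Prop) (P : Set (Cn b) → Tri b → Prop) (Φ : Cn b → ℝ)
  (C : ℝ) (H : Cn (b + 1) → Matrix (Fin (b + 1)) (Fin (b + 1)) ℂ), FEt c R Rel P Φ C H →
  Disc c P → ∃ M : ℕ, 1 ≤ M ∧ ∀ z ∈ Bd c 1, ∃ g : Cn (b + 1) → ℂ,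
    Sec (tubeS (Bd c 2)) Rel M g ∧ DifferentiableOn ℂ g (tubeS (Bd c 2)) ∧
    ∀ w : ℂ, g (pt z w) ≠ 0

/-- BACK. From sections over `T` to canonical forms on `M`. USES: PARB.
PROOF. For `p : M` choose (`LMap.cov`) `γ_p`, `y_p ∈ tubeS (Bd c 1)` with `γ_p • p = E y_p` and put
`f p := g y_p * ((jac E y_p)⁻¹ * jac (γ_p •) p) ^ m`. CLAIM: the value is the same for any `γ`, `y ∈ tubeS (Bd c 2)` with
`γ • p = E y`: then `γ γ_p⁻¹ • E y_p = E y`, the local arrow `τ` (`PARB` (3)) satisfies `E ∘ τ = (γ γ_p⁻¹) • E` near `y_p`,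
`τ y_p = y`: `jac E y det Dτ = jac (γ γ_p⁻¹) (E y_p) jac E y_p` and `g y_p = g y (det Dτ)^m`; chain rule for `jac`.
So `f` is `G`-invariant (`InvForm`). `IsPluriForm`: for `ψ : V → M` holomorphic and `z₀ ∈ V`: let `γ • ψ z₀ = E y₀`; if `E` has local
inverse `ε` near `E y₀`, `ε ∘ (γ • ψ) =: σ` is holomorphic near `z₀`, `γ • ψ z = E (σ z)`, so
`f (ψ z) jac ψ z ^ m = g (σ z) ((jac E (σ z))⁻¹ jac (γ •) (ψ z) jac ψ z) ^ m = g (σ z) (det Dσ z) ^ m`: holomorphic.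
(`ψ` need not be a local parametrization: use the local inverse of `E` as an open embedding.) -/
def S_BACK : Prop := ∀ {b N : ℕ} {G : Type u} {M : Type v} [Group G] [MulAction G M]
  [TopologicalSpace M] [T2Space M] [ChartedSpace (Fin (b + 1) → ℂ) M]
  [IsManifold 𝓘(ℂ, Fin (b + 1) → ℂ) ω M] {h : M → Matrix (Fin (b + 1)) (Fin (b + 1)) ℂ}
  {v : M → ℝ}, Data b G M h v → ∀ (c : Fin N → Cn b) (R : ℝ) (E : Cn (b + 1) → M) (Φ : Cn b → ℝ),
  LMap G v c R E Φ → 2 ≤ R → ∀ (m : ℕ) (g : Cn (b + 1) → ℂ),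
  Sec (tubeS (Bd c 2)) (RelE (G := G) c 2 E) m g → DifferentiableOn ℂ g (tubeS (Bd c 2)) →
  ∃ f : M → ℂ, InvForm (b + 1) (⊤ : Subgroup G) m f ∧
    ∀ y ∈ tubeS (Bd c 2), g y ≠ 0 → f (E y) ≠ 0

/-- MAIN. The theorem for `Data`. USES: GEO, DISF, SECT, BACK.
PROOF. `S_GEO`; `DISF`: `Disc`; `SECT`: weight `m`. For `p : M`: `γ • p = E (pt z w)`, `z ∈ Bd c 1`; `g` nonzero at `pt z w`, `f` from `BACK`
nonzero at `E (pt z w) = γ • p`, and by invariance at `p`. -/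
def S_MAINSP : Prop := ∀ {b : ℕ} {G : Type u} {M : Type v} [Group G] [MulAction G M]
  [TopologicalSpace M] [T2Space M] [ConnectedSpace M] [ChartedSpace (Fin (b + 1) → ℂ) M]
  [IsManifold 𝓘(ℂ, Fin (b + 1) → ℂ) ω M] {h : M → Matrix (Fin (b + 1)) (Fin (b + 1)) ℂ}
  {v : M → ℝ}, 0 < b → Data b G M h v → OrbSemiample (b + 1) G M

end Pool.Agent.Helper10.SP
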