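import Pool.Agent.Helper95.Lin.GoalsI
import Pool.Agent.Helper95.Lin.GoalsH
import Pool.Agent.Helper92.Orb.TorusDefs

/-!
# Semipositive canonical bundles of corank one: definitions

Internal definitions for the theorem that a compact Kähler manifold whose canonical bundle has a smooth
Hermitian metric with semipositive curvature of corank one everywhere has semiample canonical bundle
(and its version for proper cocompact group actions). The paper proof is `paper.md` in this folder.
-/

open Complex Metric Set Filter Topology MeasureTheory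
open scoped ContDiff ComplexConjugate ComplexOrder Manifold

namespace Pool.Agent.Helper10.SP

open Pool.Agent.Helper95.Lin Pool.Agent.Helper16.Abund Pool.Agent.Helper92.Orb

universe u v

/-! ## Manifold level -/

section manifold

/-- `ψ` is a local parametrization of `M`: holomorphic on the open set `V` with invertible
differential. -/
def Par (n : ℕ) {M : Type*} [TopologicalSpace M] [ChartedSpace (Fin n → ℂ) M]
    (ψ : Cn n → M) (V : Set (Cn n)) : Prop :=
  HoloOn n ψ V ∧ ∀ z ∈ V, jac n ψ z ≠ 0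

/-- The logarithm of the density (with respect to Lebesgue measure) of the volume density `v` on `M`
(given by its coefficient in the preferred chart at each point) in the parametrization `ψ`; this is
the local weight of the corresponding Hermitian metric of the canonical bundle. -/
noncomputable def lpot (n : ℕ) {M : Type*} [TopologicalSpace M] [ChartedSpace (Fin n → ℂ) M]
    (v : M → ℝ) (ψ : Cn n → M) (z : Cn n) : ℝ :=
  Real.log (v (ψ z) * ‖jac n ψ z‖ ^ 2)

/-- `v` is a smooth positive volume density, i.e. a smooth Hermitian metric of the canonical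
bundle. -/
structure CanMetric (n : ℕ) (M : Type*) [TopologicalSpace M] [ChartedSpace (Fin n → ℂ) M]
    (v : M → ℝ) : Prop where
  pos : ∀ x, 0 < v x
  smooth : ∀ (V : Set (Cn n)) (ψ : Cn n → M), Par n ψ V → ContDiffOn ℝ ∞ (lpot n v ψ) V

/-- The Levi form of `Φ` is positive semidefinite on `W` and its kernel is one-dimensional at every
point. -/
def CorankOne {n : ℕ} (Φ : Cn n → ℝ) (W : Set (Cn n)) : Prop :=
  ∀ z ∈ W, (∀ e, 0 ≤ lev Φ z e) ∧ ∃ e₀ ≠ 0, ∀ e, lev Φ z e = 0 ↔ ∃ c : ℂ, e = c • e₀

/-- All the hypotheses of the main theorem: a proper cocompact action of `G` on `M`, an invariant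
Kähler metric `h` and an invariant volume density `v` whose curvature is semipositive of corank
one. -/
structure Data (b : ℕ) (G : Type u) (M : Type v) [Group G] [MulAction G M] [TopologicalSpace M]
    [ChartedSpace (Fin (b + 1) → ℂ) M] (h : M → Matrix (Fin (b + 1)) (Fin (b + 1)) ℂ)
    (v : M → ℝ) : Prop where
  act : OrbAction (b + 1) G M
  proper : ∀ K : Set M, IsCompact K → {γ : G | ∃ y ∈ K, γ • y ∈ K}.Finite
  kah : KahlerMetric (b + 1) M h
  inv : ∀ γ : G, InvMetric (b + 1) h (fun y : M => γ • y)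
  met : CanMetric (b + 1) M v
  vinv : ∀ (γ : G) (x : M), v (γ • x) * ‖jac (b + 1) (fun y : M => γ • y) x‖ ^ 2 = v x
  rank : ∀ (V : Set (Cn (b + 1))) (ψ : Cn (b + 1) → M), Par (b + 1) ψ V →
    CorankOne (lpot (b + 1) v ψ) V

end manifold

/-! ## Wirtinger derivatives -/

/-- Twice the derivative `∂/∂(conj z_l)`. -/
noncomputable def cdb {n : ℕ} (l : Fin n) (f : Cn n → ℂ) (x : Cn n) : ℂ :=
  fderiv ℝ f x (Pi.single l 1) + I * fderiv ℝ f x (Pi.single l I)

/-- The Levi matrix `(4 ∂_j ∂_{conj k} Φ)` of the real function `Φ`. -/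
noncomputable def LM {n : ℕ} (Φ : Cn n → ℝ) (x : Cn n) : Matrix (Fin n) (Fin n) ℂ :=
  Matrix.of fun j k => cd j (cdb k (fun y => (Φ y : ℂ))) x

/-! ## The space `ℂᵇ × ℂ` -/

/-- The point `(z, w)` of `ℂᵇ⁺¹`. -/
noncomputable def pt {b : ℕ} (z : Cn b) (w : ℂ) : Cn (b + 1) := Fin.append z fun _ : Fin 1 => w

/-- The last coordinate. -/
def lc {b : ℕ} (x : Cn (b + 1)) : ℂ := x (Fin.natAdd b 0)

/-- The vector `∂/∂w` of `ℂᵇ⁺¹`. -/
noncomputable def ew (b : ℕ) : Cn (b + 1) := Pi.single (Fin.natAdd b 0) 1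

/-- The product `U × Δ`. -/
def prodS {b : ℕ} (U : Set (Cn b)) (Δ : Set ℂ) : Set (Cn (b + 1)) := {x | base x ∈ U ∧ lc x ∈ Δ}

/-- Union of the balls of radius `r` about the points `c i`. -/
def Bd {b N : ℕ} (c : Fin N → Cn b) (r : ℝ) : Set (Cn b) := ⋃ i, ball (c i) r

/-! ## Pseudogroups of affine maps over a base -/

/-- The data of a map `(z, w) ↦ (g z, a z * w + β z)`. -/
structure Tri (b : ℕ) where
  g : Cn b → Cn b
  a : Cn b → ℂ
  β : Cn b → ℂ

namespace Tri

variable {b : ℕ}

/-- The identity. -/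
def one : Tri b := ⟨id, fun _ => 1, fun _ => 0⟩

/-- The composition `t ∘ s`. -/
def comp (t s : Tri b) : Tri b :=
  ⟨fun z => t.g (s.g z), fun z => t.a (s.g z) * s.a z, fun z => t.a (s.g z) * s.β z + t.β (s.g z)⟩

/-- `t` and `t'` agree on `U`. -/
def EqOn (t t' : Tri b) (U : Set (Cn b)) : Prop :=
  ∀ z ∈ U, t.g z = t'.g z ∧ t.a z = t'.a z ∧ t.β z = t'.β z

/-- `β/a`. -/
noncomputable def q (t : Tri b) (z : Cn b) : ℂ := t.β z / t.a z

end Tri

end Pool.Agent.Helper10.SP
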