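import Pool.Agent.Helper10.SP.GoalsK

/-! # From the theorem for actions to compact Kähler manifolds -/

open Complex Metric Set Filter Topology MeasureTheory
open scoped ContDiff ComplexConjugate ComplexOrder Manifold

namespace Pool.Agent.Helper10.SP

open Pool.Agent.Helper95.Lin Pool.Agent.Helper16.Abund Pool.Agent.Helper92.Orb

universe u v

/-- The curvature of the Hermitian metric of the canonical bundle given by the volume density `v` is
semipositive of rank `n - 1` at every point: in every local parametrization `ψ` the Levi form of the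
logarithm of the density is positive semidefinite with one-dimensional kernel. -/
def SemiposCorankOne (n : ℕ) (M : Type*) [TopologicalSpace M] [ChartedSpace (Fin n → ℂ) M]
    (v : M → ℝ) : Prop :=
  ∀ (V : Set (Fin n → ℂ)) (ψ : (Fin n → ℂ) → M), Par n ψ V → CorankOne (lpot n v ψ) V

theorem orb_of_main (hM : S_MAINSP.{u, v}) {n : ℕ} (hn : 2 ≤ n) {G : Type u} {M : Type v} [Group G]
    [MulAction G M] [TopologicalSpace M] [T2Space M] [ConnectedSpace M]
    [ChartedSpace (Fin n → ℂ) M] [IsManifold 𝓘(ℂ, Fin n → ℂ) ω M]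
    (hact : OrbAction n G M)
    (hprop : ∀ K : Set M, IsCompact K → {γ : G | ∃ y ∈ K, γ • y ∈ K}.Finite)
    {h : M → Matrix (Fin n) (Fin n) ℂ} (hh : KahlerMetric n M h)
    (hinv : ∀ γ : G, InvMetric n h (fun y : M => γ • y))
    {v : M → ℝ} (hv : CanMetric n M v)
    (hvinv : ∀ (γ : G) (x : M), v (γ • x) * ‖jac n (fun y : M => γ • y) x‖ ^ 2 = v x)
    (hr : SemiposCorankOne n M v) : OrbSemiample n G M := by
  obtain ⟨b, rfl⟩ : ∃ b, n = b + 1 := ⟨n - 1, by omega⟩
  exact hM (by omega) ⟨hact, hprop, hh, hinv, hv, hvinv, hr⟩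

theorem can_of_main (hM : S_MAINSP.{0, v}) {n : ℕ} (hn : 2 ≤ n) {X : Type v} [TopologicalSpace X]
    [T2Space X] [CompactSpace X] [ConnectedSpace X] [ChartedSpace (Fin n → ℂ) X]
    [IsManifold 𝓘(ℂ, Fin n → ℂ) ω X] {h : X → Matrix (Fin n) (Fin n) ℂ} (hh : KahlerMetric n X h)
    {v : X → ℝ} (hv : CanMetric n X v) (hr : SemiposCorankOne n X v) : CanSemiample n X := by
  let _ : MulAction Unit X :=
    { smul := fun _ x => x
      one_smul := fun _ => rfl
      mul_smul := fun _ _ _ => rfl }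
  have hid : ∀ γ : Unit, (fun y : X => γ • y) = id := fun _ => rfl
  have hmd : ∀ x : X, mfderiv 𝓘(ℂ, Fin n → ℂ) 𝓘(ℂ, Fin n → ℂ) (id : X → X) x =
      ContinuousLinearMap.id ℂ (TangentSpace 𝓘(ℂ, Fin n → ℂ) x) := fun x => mfderiv_id
  have hact : OrbAction n Unit X := by
    refine ⟨fun γ => ?_, fun x => ⟨univ, univ_mem, Set.toFinite _⟩, ⟨univ, isCompact_univ,
      fun x => ⟨1, mem_univ _⟩⟩⟩
    rw [hid γ]
    exact mdifferentiable_id
  obtain ⟨r, hr1, hr2⟩ := orb_of_main hM hn hact (fun K _ => Set.toFinite _) hh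
    (fun γ x u w => by
      rw [hid γ]
      show herm (h x) (mfderiv 𝓘(ℂ, Fin n → ℂ) 𝓘(ℂ, Fin n → ℂ) (id : X → X) x u)
        (mfderiv 𝓘(ℂ, Fin n → ℂ) 𝓘(ℂ, Fin n → ℂ) (id : X → X) x w) = _
      rw [hmd x]
      rfl) hv
    (fun γ x => by
      have : jac n (fun y : X => γ • y) x = 1 := by
        rw [hid γ]
        show ContinuousLinearMap.det (mfderiv 𝓘(ℂ, Fin n → ℂ) 𝓘(ℂ, Fin n → ℂ) (id : X → X) x) = 1
        rw [hmd x]
        exact LinearMap.det_id
      rw [this]
      show v x * ‖(1 : ℂ)‖ ^ 2 = v x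
      simp) hr
  refine ⟨r, hr1, fun x => ?_⟩
  obtain ⟨c, hc1, hc2⟩ := hr2 x
  exact ⟨c, hc1.1, hc2⟩

end Pool.Agent.Helper10.SP
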