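import Pool.Agent.Helper10.SP.Defs

/-! # Goals A, B: the kernel of the curvature is a holomorphic foliation; special charts -/

open Complex Metric Set Filter Topology MeasureTheory
open scoped ContDiff ComplexConjugate ComplexOrder Manifold Matrix

namespace Pool.Agent.Helper10.SP

open Pool.Agent.Helper95.Lin Pool.Agent.Helper16.Abund Pool.Agent.Helper92.Orb

universe u v

/-! ## Wirtinger calculus -/

/-- WIRT. Calculus of `cd`, `cdb` (twice the Wirtinger derivatives) for smooth functions.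
PROOF: everything is the product rule, linearity and symmetry of second derivatives for `fderiv ℝ`
(`fderiv` of `conj ∘ f`: `conj` is real linear, `Complex.conjCLE`). For the last item:
`cdb l f x = 0` for all `l` says that the real linear map `fderiv ℝ f x` commutes with
multiplication by `I` on the vectors `Pi.single l 1`, so on all vectors, i.e. it is complex linear;
then `f` is complex differentiable at `x` (`HasFDerivAt` with the complex linear map,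
`HasFDerivAt.restrictScalars` the other way; see `differentiableAt_complex_iff...` or
`real_linearMap_map_smul_complex`). -/
def S_WIRT : Prop := ∀ {n : ℕ} (W : Set (Cn n)), IsOpen W → ∀ f g : Cn n → ℂ,
  ContDiffOn ℝ ∞ f W → ContDiffOn ℝ ∞ g W →
  (∀ l, ContDiffOn ℝ ∞ (cd l f) W ∧ ContDiffOn ℝ ∞ (cdb l f) W) ∧
  (∀ l, ∀ x ∈ W, cd l (fun y => f y + g y) x = cd l f x + cd l g x ∧
    cdb l (fun y => f y + g y) x = cdb l f x + cdb l g x) ∧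
  (∀ l, ∀ x ∈ W, cd l (fun y => f y * g y) x = f x * cd l g x + g x * cd l f x ∧
    cdb l (fun y => f y * g y) x = f x * cdb l g x + g x * cdb l f x) ∧
  (∀ l, ∀ x ∈ W, cd l (fun y => conj (f y)) x = conj (cdb l f x) ∧
    cdb l (fun y => conj (f y)) x = conj (cd l f x)) ∧
  (∀ l m, ∀ x ∈ W, cd l (cd m f) x = cd m (cd l f) x ∧ cdb l (cdb m f) x = cdb m (cdb l f) x ∧
    cd l (cdb m f) x = cdb m (cd l f) x) ∧
  ((∀ l, ∀ x ∈ W, cdb l f x = 0) ↔ DifferentiableOn ℂ f W)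

/-- WCH. Chain rule with holomorphic maps; `log |h|²` is pluriharmonic.
PROOF: `fderiv ℝ (f ∘ σ) x e = fderiv ℝ f (σ x) (fderiv ℂ σ x e)` and the complex linearity of
`fderiv ℂ σ x`. With `u := fderiv ℂ σ x (Pi.single l 1)`: `fderiv ℝ f y u - I fderiv ℝ f y (I u)`
is complex linear in `u`, hence `= ∑ m, u m * cd m f y`. For `lev`: `lev φ x e` is four times
`∂∂̄`, use the second derivative of the composition, the term with `D²σ` cancels because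
`D²σ(e,e) + D²σ(Ie,Ie) = 0`; see helper22's `PhNat` for the same computation. Last item: locally
`h = exp k` with `k` holomorphic, `log ‖h‖² = 2 Re k`; or compute directly: `log ‖h‖² =
log (normSq h)` (`lev` of `Re k` vanishes for holomorphic `k`). -/
def S_WCH : Prop := (∀ {n m : ℕ} (W : Set (Cn n)) (W' : Set (Cn m)), IsOpen W → IsOpen W' →
  ∀ (σ : Cn m → Cn n), DifferentiableOn ℂ σ W' → MapsTo σ W' W →
  (∀ f : Cn n → ℂ, ContDiffOn ℝ ∞ f W → ∀ l, ∀ x ∈ W',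
    cd l (f ∘ σ) x = ∑ j, fderiv ℂ σ x (Pi.single l 1) j * cd j f (σ x) ∧
    cdb l (f ∘ σ) x = ∑ j, conj (fderiv ℂ σ x (Pi.single l 1) j) * cdb j f (σ x)) ∧
  (∀ Φ : Cn n → ℝ, ContDiffOn ℝ ∞ Φ W → ∀ x ∈ W',
    (∀ e, lev (Φ ∘ σ) x e = lev Φ (σ x) (fderiv ℂ σ x e)) ∧
    ∀ j k, LM (Φ ∘ σ) x j k = ∑ p, ∑ q, fderiv ℂ σ x (Pi.single j 1) p *
      conj (fderiv ℂ σ x (Pi.single k 1) q) * LM Φ (σ x) p q)) ∧
  ∀ {n : ℕ} (W : Set (Cn n)), IsOpen W → ∀ h : Cn n → ℂ, DifferentiableOn ℂ h W →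
    (∀ x ∈ W, h x ≠ 0) → ContDiffOn ℝ ∞ (fun y => Real.log (‖h y‖ ^ 2)) W ∧ ∀ x ∈ W,
    (∀ e, lev (fun y => Real.log (‖h y‖ ^ 2)) x e = 0) ∧
    LM (fun y => Real.log (‖h y‖ ^ 2)) x = 0 ∧
    ∀ l, cd l (fun y => ((Real.log (‖h y‖ ^ 2) : ℝ) : ℂ)) x = cd l h x / h x

/-- LMF. The Levi matrix. USES: WIRT.
PROOF: `LM` is Hermitian: `conj (cd k (cdb j Φ)) = cdb k (cd j Φ) = cd j (cdb k Φ)` for real `Φ`.
`hermi (LM Φ x) e e = ∑ j k, e_j conj e_k cd_j cdb_k Φ = lev Φ x e`: expand `fderiv` of `Φ` in the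
directions `e` and `I e` in terms of the coordinates (bilinearity of the second derivative). The
closedness relations are commutations of derivatives. -/
def S_LMF : Prop := ∀ {n : ℕ} (W : Set (Cn n)), IsOpen W → ∀ Φ : Cn n → ℝ, ContDiffOn ℝ ∞ Φ W →
  (∀ j k, ContDiffOn ℝ ∞ (fun x => LM Φ x j k) W) ∧ (∀ x ∈ W, (LM Φ x).IsHermitian) ∧
  (∀ x ∈ W, ∀ e, ((lev Φ x e : ℝ) : ℂ) = hermi (LM Φ x) e e) ∧
  ∀ x ∈ W, ∀ j k l, cd l (fun y => LM Φ y j k) x = cd j (fun y => LM Φ y l k) x ∧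
    cdb l (fun y => LM Φ y j k) x = cdb k (fun y => LM Φ y j l) x

/-! ## The kernel field -/

/-- The kernel field normalized by `v i = 1`. -/
noncomputable def kv {n : ℕ} (i : Fin n) (Φ : Cn n → ℝ) (x : Cn n) : Cn n := fun j =>
  (LM Φ x).adjugate i j / (LM Φ x).adjugate i i

/-- The set where the normalization `i` is possible. -/
def Wi {n : ℕ} (i : Fin n) (Φ : Cn n → ℝ) (W : Set (Cn n)) : Set (Cn n) :=
  {x | x ∈ W ∧ (LM Φ x).adjugate i i ≠ 0}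

/-- KV. The kernel field. USES: LMF.
PROOF. Let `H = LM Φ x`, positive semidefinite Hermitian (`LMF`) with one-dimensional kernel:
`lev Φ x e = 0` iff `hermi H e e = 0` iff `∑ j, H j k * e j = 0` for all `k` (Cauchy-Schwarz for
semidefinite forms), so `e ↦ Hᵀ e` has kernel `ℂ e₀`, rank `n - 1`, `det H = 0`, and some minor of
order `n - 1` is not zero. `adj H * H = 0`, so each row of `adj H` is in the kernel of `Hᵀ`.
The diagonal cofactors are determinants of principal submatrices, so they are real and `≥ 0`, and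
`adj i i ≠ 0` iff `e₀ i ≠ 0`: if `e₀ i ≠ 0` the principal submatrix without `i` is positive definite
(a vector `e` with `e i = 0` and `hermi H e e = 0` is a multiple of `e₀`, so it is `0`); conversely if
`adj i i ≠ 0` then row `i` of `adj H` is a nonzero multiple of `e₀` with nonzero `i`-th component.
Smoothness: the entries of the adjugate are polynomials in the entries of `LM Φ`. -/
def S_KV : Prop := ∀ {n : ℕ} (W : Set (Cn n)), IsOpen W → ∀ Φ : Cn n → ℝ, ContDiffOn ℝ ∞ Φ W →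
  CorankOne Φ W →
  (∀ x ∈ W, ∃ i, x ∈ Wi i Φ W) ∧ (∀ x ∈ W, ∀ i, ((LM Φ x).adjugate i i).im = 0 ∧
    0 ≤ ((LM Φ x).adjugate i i).re) ∧
  (∀ i, IsOpen (Wi i Φ W) ∧ ContDiffOn ℝ ∞ (kv i Φ) (Wi i Φ W)) ∧
  ∀ i, ∀ x ∈ Wi i Φ W, kv i Φ x i = 1 ∧ (∀ k, ∑ j, LM Φ x j k * kv i Φ x j = 0) ∧
    (∀ e : Cn n, (∀ k, ∑ j, LM Φ x j k * e j = 0) → ∃ c : ℂ, e = c • kv i Φ x) ∧
    ∀ e : Cn n, lev Φ x e = 0 ↔ ∃ c : ℂ, e = c • kv i Φ x

/-- The derivation `∑ v_j ∂_j` (times 2). -/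
noncomputable def Dv {n : ℕ} (v : Cn n → Cn n) (f : Cn n → ℂ) (x : Cn n) : ℂ :=
  ∑ j, v x j * cd j f x

/-- The derivation `∑ conj v_j ∂̄_j` (times 2). -/
noncomputable def Dvb {n : ℕ} (v : Cn n → Cn n) (f : Cn n → ℂ) (x : Cn n) : ℂ :=
  ∑ j, conj (v x j) * cdb j f x

/-- The matrix `(∂̄_l v_j)`. -/
noncomputable def Tm {n : ℕ} (v : Cn n → Cn n) (x : Cn n) : Matrix (Fin n) (Fin n) ℂ :=
  Matrix.of fun j l => cdb l (fun y => v y j) x

/-- The matrix `(∂_l v_j)`. -/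
noncomputable def Bm {n : ℕ} (v : Cn n → Cn n) (x : Cn n) : Matrix (Fin n) (Fin n) ℂ :=
  Matrix.of fun j l => cd l (fun y => v y j) x

/-- Entrywise conjugation. -/
noncomputable def mc {n : ℕ} (X : Matrix (Fin n) (Fin n) ℂ) : Matrix (Fin n) (Fin n) ℂ :=
  X.map (starRingEnd ℂ)

/-- `v` is a smooth normalized kernel field of the smooth closed Hermitian matrix `H` on `W`. -/
structure KerF {n : ℕ} (i : Fin n) (H : Cn n → Matrix (Fin n) (Fin n) ℂ) (W : Set (Cn n))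
    (v : Cn n → Cn n) : Prop where
  isOpen : IsOpen W
  smH : ∀ j k, ContDiffOn ℝ ∞ (fun x => H x j k) W
  herm : ∀ x ∈ W, (H x).PosSemidef
  clos : ∀ x ∈ W, ∀ j k l, cd l (fun y => H y j k) x = cd j (fun y => H y l k) x ∧
    cdb l (fun y => H y j k) x = cdb k (fun y => H y j l) x
  smv : ContDiffOn ℝ ∞ v W
  norm : ∀ x ∈ W, v x i = 1
  ker : ∀ x ∈ W, ∀ k, ∑ j, H x j k * v x j = 0
  only : ∀ x ∈ W, ∀ e : Cn n, (∀ k, ∑ j, H x j k * e j = 0) → ∃ c : ℂ, e = c • v x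

/-- DER. The structure equations. USES: WIRT.
PROOF. (1) Differentiate `∑ j, H j k * v j = 0` by `cdb l`: `∑ j, H j k T j l = - ∑ j, (cdb l H j k) v j`,
symmetric in `k, l` by `clos`. (2) `∑ k, conj (v k) * (Hᵀ T) k l = ∑ j, (∑ k, H j k conj (v k)) T j l = 0`
(conjugate of `ker`, `H` Hermitian), so by symmetry `∑ l, (Hᵀ T) k l * conj (v l) = 0`, i.e. the vector
`e j := ∑ l, T j l conj (v l) = Dvb v (v j)` satisfies `∑ j, H j k e j = 0`, so `e = c • v`, and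
`e i = 0` because `v i = 1` is constant (`T i l = 0`); so `e = 0`. (3) `Dv v (Dvb v f) - Dvb v (Dv v f) =
∑ (Dv v (conj v k)) cdb k f - ∑ (Dvb v (v k)) cd k f = 0` since `Dv v (conj (v k)) = conj (Dvb v (v k))`.
(4) `Dvb v (cdb l (v j)) = ∑ m, conj (v m) cdb m (cdb l (v j)) = cdb l (Dvb v (v j)) -
∑ m, cdb l (conj (v m)) cdb m (v j) = - ∑ m, conj (B m l) T j m`. (5) the same with `cd l`:
`cd l (conj (v m)) = conj (T m l)`. (6) `Dv v (H j k) = ∑ m, v m cd m (H j k) = ∑ m, v m cd j (H m k) =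
cd j (∑ m, v m H m k) - ∑ m, (cd j (v m)) H m k`. (7) row `i`: derivatives of the constant `v i`
(`EventuallyEq.fderiv_eq`). -/
def S_DER : Prop := ∀ {n : ℕ} (i : Fin n) (H : Cn n → Matrix (Fin n) (Fin n) ℂ) (W : Set (Cn n))
  (v : Cn n → Cn n), KerF i H W v → ∀ x ∈ W,
  ((H x)ᵀ * Tm v x).IsSymm ∧ (∀ j, Dvb v (fun y => v y j) x = 0) ∧
  (∀ f : Cn n → ℂ, ContDiffOn ℝ ∞ f W → Dv v (Dvb v f) x = Dvb v (Dv v f) x) ∧
  (∀ j l, Dvb v (fun y => Tm v y j l) x = - (Tm v x * mc (Bm v x)) j l) ∧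
  (∀ j l, Dvb v (fun y => Bm v y j l) x = - (Tm v x * mc (Tm v x)) j l) ∧
  (∀ j k, Dv v (fun y => H y j k) x = - ∑ m, Bm v x m j * H x m k) ∧
  ∀ l, Tm v x i l = 0 ∧ Bm v x i l = 0

/-- LA. Linear algebra of the second fundamental form.
PROOF. Work with the indices `≠ i` (the row `i` of `X`, `Y` is zero, so in `tr (X Ȳ) = ∑ j m, X j m conj (Y m j)`
only `j, m ≠ i` contribute; also `X conj(v) = 0`: `∑ k, conj (v k) (Hᵀ X) k l = 0`, by symmetry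
`∑ l, (Hᵀ X) k l conj (v l) = 0`, i.e. `X conj v` is in the kernel of `Hᵀ` with `i`-th component `0`).
`A := ` the submatrix of `Hᵀ` on the indices `≠ i` is positive definite; write `A = Q Qᴴ` with `Q`
invertible (`Matrix.PosDef` square root, or `posSemidef_iff_eq_conjTranspose_mul_self`), `X' = A⁻¹ S`
with `S` symmetric (here `S = ` submatrix of `Hᵀ X`; note `(Hᵀ X)` restricted to indices `≠ i` is `A X'`
since row `i` of `X` is zero), `Z := Q⁻¹ S (Q⁻¹)ᵀ` symmetric. Then `X' = (Q⁻¹)ᴴ Z Qᵀ`, `conj X' = (Q⁻¹)ᵀ (conj Z) Qᴴ`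
and so `X' conj(Y') = (Q⁻¹)ᴴ Z_X conj(Z_Y) Qᴴ`, `tr (X Ȳ) = tr (Z_X Z_Yᴴ)`: the Frobenius inner product.
(a), (b) follow; if `tr (X X̄) = 0` then `X' = 0`, and the column `i` of `X` vanishes by `X conj v = 0`,
`v i = 1`. (c) `tr ((X X̄)²) = tr ((Z Zᴴ)²) = ‖Z Zᴴ‖²_F` and `tr(Z Zᴴ)² ≤ n ‖Z Zᴴ‖²_F` by Cauchy-Schwarz
(`Z Zᴴ` Hermitian, the trace is the inner product with the identity). -/
def S_LA : Prop := ∀ {n : ℕ} (i : Fin n) (H : Matrix (Fin n) (Fin n) ℂ) (v : Cn n),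
  H.PosSemidef → v i = 1 → (∀ k, ∑ j, H j k * v j = 0) →
  (∀ e : Cn n, (∀ k, ∑ j, H j k * e j = 0) → ∃ c : ℂ, e = c • v) →
  ∀ X Y : Matrix (Fin n) (Fin n) ℂ, (∀ l, X i l = 0) → (∀ l, Y i l = 0) → (Hᵀ * X).IsSymm →
  (Hᵀ * Y).IsSymm →
  (Matrix.trace (X * mc X)).im = 0 ∧ 0 ≤ (Matrix.trace (X * mc X)).re ∧
  (Matrix.trace (X * mc X) = 0 → X = 0) ∧
  ‖Matrix.trace (X * mc Y)‖ ^ 2 ≤
    (Matrix.trace (X * mc X)).re * (Matrix.trace (Y * mc Y)).re ∧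
  (Matrix.trace (X * mc X * (X * mc X))).im = 0 ∧
  (Matrix.trace (X * mc X)).re ^ 2 ≤ n * (Matrix.trace (X * mc X * (X * mc X))).re

/-- `q = tr (T T̄)`. -/
noncomputable def qf {n : ℕ} (v : Cn n → Cn n) (x : Cn n) : ℂ :=
  Matrix.trace (Tm v x * mc (Tm v x))

/-- DDQ. The second derivative of `q`. USES: WIRT, DER.
PROOF. `P := (Dv v (T j l))`, `P' := P - B T`. Row `i` is zero. `Hᵀ P' = Dv (Hᵀ T)` is symmetric: by (6) of
DER `Dv (Hᵀ) = - Hᵀ B`: `(Dv Hᵀ) k j = Dv (H j k) = -∑ m, B m j H m k = -(Hᵀ B) k j`. `Dvb q = ∑ (Dvb T) T̄ +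
∑ T conj (Dv T)`: `= - tr(T B̄ T̄) + tr (T P̄) = tr (T P̄')` (as `P̄' = P̄ - B̄ T̄`). Next, with `[Dv,Dvb] = 0`:
`Dvb P = Dv (Dvb T) = - Dv (T B̄) = - P B̄ - T Dv(B̄)`, `Dv (B̄) = conj (Dvb B) = - T̄ T`, so `Dvb P = - P B̄ + T T̄ T`,
`Dv (P̄) = conj (Dvb P) = - P̄ B + T̄ T T̄`, `Dv (T̄) = conj (Dvb T) = - T̄ B`. Therefore `Dv (Dvb q) =
Dv (- tr (T B̄ T̄) + tr (T P̄)) = - tr (P B̄ T̄) + tr (T T̄ T T̄) + tr (T B̄ T̄ B) + tr (P P̄) - tr (T P̄ B) +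
tr (T T̄ T T̄) = 2 tr ((T T̄)²) + tr (P' P̄')`. (`mc` is multiplicative: `mc (X * Y) = mc X * mc Y`.) -/
def S_DDQ : Prop := ∀ {n : ℕ} (i : Fin n) (H : Cn n → Matrix (Fin n) (Fin n) ℂ) (W : Set (Cn n))
  (v : Cn n → Cn n), KerF i H W v → ∀ x ∈ W, ∃ P' : Matrix (Fin n) (Fin n) ℂ,
  (∀ l, P' i l = 0) ∧ ((H x)ᵀ * P').IsSymm ∧
  Dvb v (qf v) x = Matrix.trace (Tm v x * mc P') ∧
  Dv v (qf v) x = conj (Matrix.trace (Tm v x * mc P')) ∧
  Dv v (Dvb v (qf v)) x =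
    2 * Matrix.trace (Tm v x * mc (Tm v x) * (Tm v x * mc (Tm v x))) + Matrix.trace (P' * mc P')

/-- The logarithm of the leafwise area density. -/
noncomputable def laf {n : ℕ} (i : Fin n) (Φ : Cn n → ℝ) (x : Cn n) : ℝ :=
  Φ x - Real.log ((LM Φ x).adjugate i i).re

/-- DDA. The curvature of the leafwise metric. USES: WIRT, LMF, KV, DER.
PROOF. `v = kv i Φ`, `H = LM Φ`. `Dvb Φ`: `Dv v (Dvb v Φ) = ∑ v_j conj (v_k) H_jk + ∑ (Dv v (conj v_k)) cdb k Φ = 0`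
(both vanish). `d := ` principal cofactor `adj i i = det H'`, `H'` = submatrix of `H` without `i`. For
`j, k ≠ i`: `Dv v (H j k) = - ∑ m, B m j H m k` and `B i j = 0`, so `Dv H' = - B'ᵀ H'` and
`Dv (det H') = - tr(B') det H' = - tr(B) d` (Jacobi's formula, or: differentiate the determinant row by
row). So `Dv v (log d) = - tr B`, and `Dvb v (Dv v (log d)) = - Dvb (tr B) = tr (T T̄) = q`. -/
def S_DDA : Prop := ∀ {n : ℕ} (i : Fin n) (W : Set (Cn n)), IsOpen W → ∀ Φ : Cn n → ℝ,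
  ContDiffOn ℝ ∞ Φ W → CorankOne Φ W → ∀ x ∈ Wi i Φ W,
  Dv (kv i Φ) (Dvb (kv i Φ) (fun y => ((laf i Φ y : ℝ) : ℂ))) x = - qf (kv i Φ) x

/-- The invariant function `f = q / a`. -/
noncomputable def ff {n : ℕ} (i : Fin n) (Φ : Cn n → ℝ) (x : Cn n) : ℝ :=
  (qf (kv i Φ) x).re * Real.exp (- laf i Φ x)

/-- FINV. Invariance of `f` under holomorphic maps and change of the index. USES: WIRT, WCH, LMF, KV,
DER, DDA.
PROOF. Let `J = Dφ`, `Φ' = Φ ∘ φ + log |det J|²` so `LM Φ' = Jᵗ (LM Φ ∘ φ) J̄` (`WCH`; the entries of `J` as in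
`WCH`). The kernel lines correspond: `J v'` is a multiple of `v ∘ φ`: `J v' = c • v ∘ φ` where `c = (J v') i` is
smooth near `x`. `Dvb v' c = ∑ conj (v'_l) cdb_l ((J v')_i) = (J (Dvb v' v'))_i = 0` (`J` holomorphic, (2) of
`DER`), and `c ≠ 0`. `Dv v' (f ∘ φ) = c · (Dv v f) ∘ φ`, `Dvb v' (f ∘ φ) = c̄ (Dvb v f) ∘ φ`. Adjugates:
`adj (LM Φ') = |det J|² J⁻¹ (adj ...) ...`, giving `adj' i' i' = |det J|² |c|⁻² adj i i ∘ φ`
[`adj (LM Φ')` is the rank one matrix with rows proportional to `v'` and columns to `conj v'`: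
`adj(H)_{jk} = adj(H)_{ii} conj(v_j) v_k`, so that `adj(H)(ℓ) := ∑ adj(H)_{jk} conj(ℓ_j) ℓ_k`...; any proof is
fine]. So `laf' = laf ∘ φ + log |c|²` and by `DDA` `- q' = Dv' Dvb' (laf') = |c|² (Dv Dvb laf) ∘ φ +
Dv' Dvb' log |c|² = - |c|² q ∘ φ + 0` [first term: `Dv' (c̄ (Dvb laf)∘φ) = c̄ c (Dv Dvb laf)∘φ` as `Dv' c̄ =
conj (Dvb' c) = 0`; second: `Dvb' log|c|² = (Dvb' c̄)/c̄`, and `Dv' ((Dvb' c̄)/c̄) = (Dvb' Dv' c̄)/c̄ - ... = 0`].
Hence `q' exp(-laf') = |c|² q exp(-laf) |c|⁻²`. -/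
def S_FINV : Prop := ∀ {n : ℕ} (W W' : Set (Cn n)), IsOpen W → IsOpen W' → ∀ Φ : Cn n → ℝ,
  ContDiffOn ℝ ∞ Φ W → CorankOne Φ W → ∀ φ : Cn n → Cn n, DifferentiableOn ℂ φ W' →
  MapsTo φ W' W → (∀ x ∈ W', (fderiv ℂ φ x).det ≠ 0) → ∀ Φ' : Cn n → ℝ,
  (∀ x ∈ W', Φ' x = Φ (φ x) + Real.log (‖(fderiv ℂ φ x).det‖ ^ 2)) →
  ∀ i i', ∀ x ∈ Wi i' Φ' W', φ x ∈ Wi i Φ W → ff i' Φ' x = ff i Φ (φ x)

/-- AMAX. Local form of the maximum principle. USES: WIRT, LMF, KV, DER, LA, DDQ, DDA.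
PROOF. Suppose `f = ff i Φ` has a local maximum at `x` and `f x > 0`. Near `x`: `q > 0`, `log f = log q - laf`.
`Dv Dvb (log f) x = ∑ v_j conj(v_k) LM(log f)_jk + ∑ (Dv conj v_k) cdb_k (log f) = lev (log f) x v ≤ 0` (second
derivative test on the real plane `x + ζ v`; second term zero by `DER`). But `Dv Dvb log q =
(Dv Dvb q)/q - (Dv q)(Dvb q)/q² ≥ (2 tr((TT̄)²) + tr(P'P̄'))/q - |tr (T P̄')|²/q² ≥ 2 tr((TT̄)²)/q ≥ 2 q/n`
by `LA`, `DDQ`, and `Dv Dvb (-laf) = q` (`DDA`): so it is `≥ (1 + 2/n) q > 0`, contradiction. -/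
def S_AMAX : Prop := ∀ {n : ℕ} (W : Set (Cn n)), IsOpen W → ∀ Φ : Cn n → ℝ, ContDiffOn ℝ ∞ Φ W →
  CorankOne Φ W → ∀ i, ∀ x ∈ Wi i Φ W, 0 ≤ ff i Φ x ∧
  (IsLocalMax (ff i Φ) x → ff i Φ x = 0)

/-- KHOL. The kernel field is holomorphic. USES: WIRT, LMF, KV, DER, LA, FINV, AMAX.
PROOF. `F : M → ℝ`, `F p := ff i (lpot v (chartAt p).symm) (chartAt p p)` for some `i` with nonvanishing
cofactor. By `FINV` (applied to transition maps of parametrizations and to the group elements: if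
`ψ' = γ ψ ∘ φ` near `x` then `lpot ψ' = lpot ψ ∘ φ + log |det Dφ|²` by `vinv` and the chain rule for `jac`),
`F (ψ x) = ff i (lpot v ψ) x` for every local parametrization `ψ` and `x ∈ Wi i`, and `F (γ p) = F p`. `F` is
continuous, and `M` is covered by the translates of a compact set, so `F` attains its maximum; by
`AMAX` the maximum is `0`, and `F ≥ 0`: so `F = 0`, so `q = 0` on `Wi i`, `T = 0` by `LA`, and `kv` is
holomorphic by `WIRT`. (Local inverses of parametrizations: `jac ≠ 0`, inverse function theorem; `ψ` and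
the chart differ by a local biholomorphism.) -/
def S_KHOL : Prop := ∀ {b : ℕ} {G : Type u} {M : Type v} [Group G] [MulAction G M]
  [TopologicalSpace M] [T2Space M] [ChartedSpace (Fin (b + 1) → ℂ) M]
  [IsManifold 𝓘(ℂ, Fin (b + 1) → ℂ) ω M] {h : M → Matrix (Fin (b + 1)) (Fin (b + 1)) ℂ}
  {v : M → ℝ}, Data b G M h v → ∀ (V : Set (Cn (b + 1))) (ψ : Cn (b + 1) → M),
  Par (b + 1) ψ V → ∀ i, DifferentiableOn ℂ (kv i (lpot (b + 1) v ψ))
    (Wi i (lpot (b + 1) v ψ) V)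

/-! ## Special charts -/

/-- STR. Straightening a holomorphic vector field.
PROOF. `x₀(z) := p + i.insertNth 0 z` (a point of the hyperplane `y_i = p_i`). Let `ξ` be bounded by `A` and
`L`-Lipschitz on `closedBall p (2ρ) ⊆ W` (Cauchy estimates). In the complete metric space of continuous
(bounded) maps `f : closed polydisc → closedBall p (2ρ)` that are holomorphic inside, the map
`(𝒫 f)(z,t) := x₀(z) + t ∫₀¹ ξ(f(z,rt)) dr` is a contraction for `|z|, |t| ≤ r` small; iterate and take the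
uniform limit (limits of holomorphic maps are holomorphic, S_DLIM of Lin or
`TendstoLocallyUniformlyOn.differentiableOn`). The fixed point `σ` satisfies `σ(z,t) = x₀(z) + ∫_[0,t] ξ(σ(z,s)) ds`,
so `∂_t σ = ξ(σ)` (primitive of a holomorphic function of `t`). `Dσ(0)(ẑ,t̂) = insertNth 0 ẑ + t̂ ξ(p)` is
injective since `ξ_i = 1`; by the inverse function theorem `σ` is injective with `det ≠ 0` near `0`.
Alternative: real flows for complex time directions. -/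
def S_STR : Prop := ∀ {b : ℕ} (W : Set (Cn (b + 1))), IsOpen W → ∀ p ∈ W, ∀ (i : Fin (b + 1))
  (ξ : Cn (b + 1) → Cn (b + 1)), DifferentiableOn ℂ ξ W → (∀ x ∈ W, ξ x i = 1) →
  ∃ r > 0, ∃ σ : Cn (b + 1) → Cn (b + 1),
    DifferentiableOn ℂ σ (prodS (ball 0 r) (ball 0 r)) ∧ InjOn σ (prodS (ball 0 r) (ball 0 r)) ∧
    MapsTo σ (prodS (ball 0 r) (ball 0 r)) W ∧ σ 0 = p ∧
    ∀ x ∈ prodS (ball 0 r) (ball 0 r), (fderiv ℂ σ x).det ≠ 0 ∧
      fderiv ℂ σ x (ew b) = ξ (σ x)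

/-- NORMW. Normalization of the fibre coordinate. USES: WIRT, WCH, LMF.
PROOF. `n := ` the last index (`Fin.natAdd b 0`). `lev Φ x (ew b) = 0` and semidefiniteness give
`LM Φ x j n = 0 = LM Φ x n k` for all `j, k`, so `g := cd n Φ / 2 = ∂_t Φ` satisfies `cdb k g = 0` for all `k`: `g`
is holomorphic. `G(z,t) := t ∫₀¹ g(z,rt) dr` is holomorphic with `∂_t G = g`. `Φ - 2 Re G` is killed by `cd n`
and `cdb n`, hence independent of `t` (`ball` is connected): `Φ = 2 Re G + Ψ(z)`. Let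
`w(z,t) := t ∫₀¹ exp(G(z,rt)) dr`, `∂_t w = exp G`; the map `(z,t) ↦ (z, w(z,t))` has Jacobian `exp G(0) = 1 ≠ 0` at
`0` and is a local biholomorphism; let `σ` be its inverse on a small polydisc. `det Dσ = exp(-G ∘ σ)`, so
`Φ ∘ σ + log |det Dσ|² = 2 Re G∘σ + Ψ(z) - 2 Re G∘σ = Ψ(base x)`. Positivity: `lev (Ψ ∘ base) x e = lev Ψ (base x)
(base e)`, `CorankOne` transported by `σ` (`WCH`): the kernel is spanned by `ew b`. -/
def S_NORMW : Prop := ∀ {b : ℕ} (r : ℝ), 0 < r → ∀ Φ : Cn (b + 1) → ℝ,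
  ContDiffOn ℝ ∞ Φ (prodS (ball 0 r) (ball 0 r)) → CorankOne Φ (prodS (ball 0 r) (ball 0 r)) →
  (∀ x ∈ prodS (ball (0 : Cn b) r) (ball 0 r), lev Φ x (ew b) = 0) →
  ∃ r' > 0, ∃ (σ : Cn (b + 1) → Cn (b + 1)) (Ψ : Cn b → ℝ),
    DifferentiableOn ℂ σ (prodS (ball 0 r') (ball 0 r')) ∧
    InjOn σ (prodS (ball 0 r') (ball 0 r')) ∧
    MapsTo σ (prodS (ball 0 r') (ball 0 r')) (prodS (ball 0 r) (ball 0 r)) ∧ σ 0 = 0 ∧
    ContDiffOn ℝ ∞ Ψ (ball 0 r') ∧ (∀ z ∈ ball (0 : Cn b) r', ∀ e, e ≠ 0 → 0 < lev Ψ z e) ∧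
    ∀ x ∈ prodS (ball (0 : Cn b) r') (ball 0 r'), (fderiv ℂ σ x).det ≠ 0 ∧ base (σ x) = base x ∧
      Φ (σ x) + Real.log (‖(fderiv ℂ σ x).det‖ ^ 2) = Ψ (base x)

/-- SPEC. Special charts exist. USES: KV, KHOL, STR, NORMW, WCH.
PROOF. Chart `ψ₀ = (chartAt p).symm` on `V₀ = target`, `x₀ = chartAt p p`, `i` with `x₀ ∈ Wi i`. `STR` for
`W = Wi i`, `ξ = kv i` (holomorphic by `KHOL`, `kv i i = 1`): `σ₁`. `Φ₁ := lpot v (ψ₀ ∘ σ₁) = lpot v ψ₀ ∘ σ₁ +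
log |det Dσ₁|²` (chain rule for `jac`; `ψ₀ ∘ σ₁` is a parametrization) and `lev Φ₁ x (ew b) = lev (lpot ψ₀) (σ₁ x)
(kv i (σ₁ x)) = 0` (`WCH`, `KV`). `NORMW`: `σ₂`. Take `ψ := ψ₀ ∘ σ₁ ∘ σ₂`. -/
def S_SPEC : Prop := ∀ {b : ℕ} {G : Type u} {M : Type v} [Group G] [MulAction G M]
  [TopologicalSpace M] [T2Space M] [ChartedSpace (Fin (b + 1) → ℂ) M]
  [IsManifold 𝓘(ℂ, Fin (b + 1) → ℂ) ω M] {h : M → Matrix (Fin (b + 1)) (Fin (b + 1)) ℂ}
  {v : M → ℝ}, Data b G M h v → ∀ p : M, ∃ r > 0, ∃ (ψ : Cn (b + 1) → M) (Ψ : Cn b → ℝ),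
    Par (b + 1) ψ (prodS (ball 0 r) (ball 0 r)) ∧ InjOn ψ (prodS (ball 0 r) (ball 0 r)) ∧
    ψ 0 = p ∧ ContDiffOn ℝ ∞ Ψ (ball 0 r) ∧
    (∀ z ∈ ball (0 : Cn b) r, ∀ e, e ≠ 0 → 0 < lev Ψ z e) ∧
    ∀ x ∈ prodS (ball (0 : Cn b) r) (ball 0 r), lpot (b + 1) v ψ x = Ψ (base x)

/-- AFFT. Transition maps between special charts are affine in the fibre coordinate. USES: WIRT,
WCH.
PROOF. On `prodS U Δ` the functions `Ψ₁ ∘ base` and `Ψ₂ ∘ base ∘ τ` differ by the pluriharmonic function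
`log |det Dτ|²`, so `lev Ψ₁ (base x) (base e) = lev Ψ₂ (base (τ x)) (base (Dτ x e))` (`WCH`; `base` is linear). For
`e = ew b` (base `0`): `base (Dτ x (ew b)) = 0` by positivity, i.e. `∂_w (base ∘ τ) = 0`; `Δ` is a disc, so
`base (τ (pt z w)) =: g z` does not depend on `w` (`g z := base (τ (pt z w₀))`). With `k := lc ∘ τ`:
`det Dτ (pt z w) = det Dg z * ∂_w k` (block triangular), so `|∂_w k|² = exp(Ψ₁ z - Ψ₂ (g z)) / |det Dg z|²` does not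
depend on `w`; a holomorphic function of `w` on a disc with constant modulus is constant (open mapping,
or `Complex.eqOn_of_...`); so `∂_w k = a z` and `k (pt z w) = a z * w + β z`, `a z := ∂_w k (pt z w₀)`,
`β z := k (pt z w₀) - a z * w₀`, holomorphic. -/
def S_AFFT : Prop := ∀ {b : ℕ} (U U' : Set (Cn b)) (w₀ : ℂ) (r : ℝ), IsOpen U → IsOpen U' →
  0 < r → ∀ Ψ₁ Ψ₂ : Cn b → ℝ, ContDiffOn ℝ ∞ Ψ₁ U → ContDiffOn ℝ ∞ Ψ₂ U' →
  (∀ z ∈ U', ∀ e, e ≠ 0 → 0 < lev Ψ₂ z e) → ∀ τ : Cn (b + 1) → Cn (b + 1),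
  DifferentiableOn ℂ τ (prodS U (ball w₀ r)) →
  (∀ x ∈ prodS U (ball w₀ r), base (τ x) ∈ U' ∧ (fderiv ℂ τ x).det ≠ 0 ∧
    Ψ₁ (base x) = Ψ₂ (base (τ x)) + Real.log (‖(fderiv ℂ τ x).det‖ ^ 2)) →
  ∃ t : Tri b, DifferentiableOn ℂ t.g U ∧ DifferentiableOn ℂ t.a U ∧ DifferentiableOn ℂ t.β U ∧
    (∀ z ∈ U, t.g z ∈ U' ∧ t.a z ≠ 0 ∧ (fderiv ℂ t.g z).det ≠ 0 ∧
      Ψ₁ z = Ψ₂ (t.g z) + Real.log (‖(fderiv ℂ t.g z).det‖ ^ 2) + Real.log (‖t.a z‖ ^ 2)) ∧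
    ∀ z ∈ U, ∀ w ∈ ball w₀ r, τ (pt z w) = pt (t.g z) (t.a z * w + t.β z)

end Pool.Agent.Helper10.SP
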