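import Pool.Agent.Helper10.SP.GoalsA
import Pool.Agent.Helper10.SP.DefsT

/-! # Goals T: analysis on étale relations with a Kähler metric -/

open Complex Metric Set Filter Topology MeasureTheory
open scoped ContDiff ComplexConjugate ComplexOrder Manifold

namespace Pool.Agent.Helper10.SP

open Pool.Agent.Helper95.Lin Pool.Agent.Helper16.Abund Pool.Agent.Helper92.Orb

universe u v

/-! ## Arrows -/

/-- `τ` is a local arrow on `U` with group element `γ`. -/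
def LAr {n : ℕ} {G : Type u} (R : G → Cn n → Cn n → Prop) (γ : G) (U : Set (Cn n))
    (τ : Cn n → Cn n) : Prop :=
  IsOpen U ∧ DifferentiableOn ℂ τ U ∧ ∀ x ∈ U, R γ x (τ x)

/-- Sum over the arrows from `x`. -/
noncomputable def AS {n : ℕ} {G : Type u} {E : Type v} [AddCommMonoid E]
    (R : G → Cn n → Cn n → Prop) (x : Cn n) (f : G → Cn n → E) : E :=
  ∑ᶠ (p : G × Cn n) (_ : R p.1 x p.2), f p.1 p.2

/-- The Jacobian determinant at `x` of the arrow `(γ, x, y)`. -/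
noncomputable def aJ {n : ℕ} {G : Type u} (R : G → Cn n → Cn n → Prop) (γ : G) (x y : Cn n) : ℂ :=
  Classical.epsilon fun d : ℂ => ∀ U τ, LAr R γ U τ → x ∈ U → τ x = y → (fderiv ℂ τ x).det = d

/-- ARRB. Basics on arrows.
PROOF. Let `(τ₀, U₀, W₀)` be given by `Et.loc` at `(γ, x, y)` (then `τ₀ x = y`). A local arrow `τ` with group
element `γ` and `τ x = y` has values in `W₀` near `x`, so it agrees with `τ₀` near `x`; so (3) and (2). (1): `τ₀` is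
injective with invertible differential on `U₀`: open image, the inverse is holomorphic (inverse function
theorem), and `R γ⁻¹ (τ x) x` by `Et.inv`. (4): chain rule. (5): `W := W₀`. -/
def S_ARRB : Prop := ∀ {n : ℕ} (T : Set (Cn n)) {G : Type u} [Group G]
  (R : G → Cn n → Cn n → Prop), Et T R →
  (∀ γ x y, R γ x y → ∃ (U : Set (Cn n)) (τ σ : Cn n → Cn n), x ∈ U ∧ U ⊆ T ∧ LAr R γ U τ ∧
    τ x = y ∧ InjOn τ U ∧ LAr R γ⁻¹ (τ '' U) σ ∧ ∀ x' ∈ U, σ (τ x') = x') ∧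
  (∀ γ U τ, LAr R γ U τ → ∀ x ∈ U, (fderiv ℂ τ x).det ≠ 0 ∧
    aJ R γ x (τ x) = (fderiv ℂ τ x).det) ∧
  (∀ γ U U' τ τ', LAr R γ U τ → LAr R γ U' τ' → ∀ x ∈ U, x ∈ U' → τ x = τ' x → τ =ᶠ[𝓝 x] τ') ∧
  ((∀ x ∈ T, aJ R 1 x x = 1) ∧ (∀ γ x y, R γ x y → aJ R γ x y ≠ 0) ∧
    ∀ γ γ' x y z, R γ x y → R γ' y z → aJ R (γ' * γ) x z = aJ R γ' y z * aJ R γ x y) ∧
  ∀ γ x y, R γ x y → ∃ W ∈ 𝓝 y, ∀ y' ∈ W, R γ x y' → y' = y

/-- LFIN. Local finiteness. USES: ARRB.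
PROOF. `D := C ∪ closedBall x₀ r ⊆ T` compact, so only finitely many `γ` occur between `x ∈ closedBall x₀ r`
and `C` (`Et.fin`). For each `γ` the set `{y ∈ C | R γ x₀ y}` is closed (`Et.closed`) and discrete (`ARRB` (5)),
so finite: arrows `(γ_k, x₀, y_k)`, `k < m`. Take `τ_k` on `U_k` from `ARRB`, and `W_k ∋ y_k` from `Et.loc` with
`R γ_k x' y' ↔ y' = τ_k x'` on `U_k × W_k`. CLAIM: for `x` near `x₀` all arrows `(γ, x, y)`, `y ∈ C`, are of the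
form `(γ_k, x, τ_k x)`: otherwise there are `x_j → x₀`, `(γ, x_j, y_j)` (one `γ`, pass to a subsequence),
`y_j → y ∈ C`, so `R γ x₀ y` by `Et.closed`, `(γ, y) = (γ_k, y_k)`, and `y_j ∈ W_k` for large `j`: contradiction.
Distinctness persists near `x₀` by continuity. The formula for `AS`: `finsum` over a set in bijection
with a subset of `Fin m`; the other terms vanish. -/
def S_LFIN : Prop := ∀ {n : ℕ} (T : Set (Cn n)) {G : Type u} [Group G]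
  (R : G → Cn n → Cn n → Prop), Et T R → ∀ C ⊆ T, IsCompact C → ∀ x₀ ∈ T,
  ∃ (U : Set (Cn n)) (m : ℕ) (γ : Fin m → G) (τ : Fin m → Cn n → Cn n), x₀ ∈ U ∧ IsOpen U ∧
    U ⊆ T ∧ (∀ k, LAr R (γ k) U (τ k) ∧ InjOn (τ k) U) ∧
    (∀ x ∈ U, ∀ k l, γ k = γ l → τ k x = τ l x → k = l) ∧
    (∀ x ∈ U, ∀ γ' y, R γ' x y → y ∈ C → ∃ k, γ' = γ k ∧ y = τ k x) ∧
    ∀ (E : Type) [AddCommMonoid E] (f : G → Cn n → E), (∀ γ' y, y ∉ C → f γ' y = 0) →
      ∀ x ∈ U, AS R x f = ∑ k, f (γ k) (τ k x)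

/-- ASI. Reindexing.
PROOF. `(γ, y) ↦ (γ * γ₀, y)` is a bijection from the arrows at `x'` to the arrows at `x` (`Et.mul`, `Et.inv`);
`finsum_mem_eq_of_bijOn` or `finsum_comp_equiv`. -/
def S_ASI : Prop := ∀ {n : ℕ} (T : Set (Cn n)) {G : Type u} [Group G]
  (R : G → Cn n → Cn n → Prop), Et T R → ∀ (E : Type) [AddCommMonoid E] (f : G → Cn n → E)
  (γ₀ : G) (x x' : Cn n), R γ₀ x x' → AS R x' f = AS R x fun γ y => f (γ * γ₀⁻¹) y

/-- Partition function. -/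
structure IsPUE {n : ℕ} (T : Set (Cn n)) {G : Type u} (R : G → Cn n → Cn n → Prop)
    (κ : Cn n → ℝ) : Prop where
  test : TestF T κ
  nonneg : ∀ x, 0 ≤ κ x
  sum : ∀ x ∈ T, AS R x (fun _ y => κ y) = 1

/-- PUE. Partition functions exist. USES: ARRB, LFIN, ASI.
PROOF. `C` from `Et.coc`; `η ≥ 0` smooth, compact support in `T`, `η > 0` on `C`
(`exists_contDiff_tsupport_subset` and a finite cover, or `exists_smooth_one_nhds...`). `S x := AS R x (η y)` is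
smooth on `T` (`LFIN`: locally a finite sum of `η ∘ τ_k`), positive, and invariant (`ASI`). `κ := η / S` on
`T`, `0` outside. -/
def S_PUE : Prop := ∀ {n : ℕ} (T : Set (Cn n)) {G : Type u} [Group G]
  (R : G → Cn n → Cn n → Prop), Et T R → ∃ κ, IsPUE T R κ

/-- SWAP. USES: ARRB, LFIN.
PROOF. Let `x₀ ∈ C` and `U, γ_k, τ_k` from `LFIN` for `C'`. By linearity (finitely many such `U` cover `C`; cut `f`
into measurable pieces) we may assume that `f` vanishes outside `U` (and outside `C`). Left side: `∑ k ∫_U f(x)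
g(τ_k x) ρ(x) dx`; substitution `y = τ_k x` (injective on `U`, real Jacobian `|det Dτ_k|²`:
`integral_image_eq_integral_abs_det_fderiv_smul` and `|det_ℝ| = |det_ℂ|²`, see helper proofs of `S_CHV` in Lin)
and `ρ x = ρ (τ_k x) |det Dτ_k x|²` give `∑ k ∫_{τ_k U} f(τ_k⁻¹ y) g(y) ρ(y) dy`. Right side: for `y ∈ C'` the arrows
`(γ', y, x)` with `x ∈ U` are the inverses of the arrows `(γ_k, x, τ_k x)`, `τ_k x = y`, so
`AS R y f = ∑ k, [y ∈ τ_k U] f(τ_k⁻¹ y)`. Integrability: bounded factor times an integrable function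
(substituted). -/
def S_SWAP : Prop := ∀ {n : ℕ} (T : Set (Cn n)) {G : Type u} [Group G]
  (R : G → Cn n → Cn n → Prop), Et T R → ∀ ρ : Cn n → ℝ, ContinuousOn ρ T →
  (∀ U τ, Arr R U τ → ∀ x ∈ U, ρ x = ρ (τ x) * ‖(fderiv ℂ τ x).det‖ ^ 2) →
  ∀ C ⊆ T, IsCompact C → ∀ C' ⊆ T, IsCompact C' → ∀ f g : Cn n → ℂ, Integrable f →
  (∀ x ∉ C, f x = 0) → Continuous g → (∀ x ∉ C', g x = 0) →
  IntegrableOn (fun x => f x * AS R x (fun _ y => g y) * (ρ x : ℂ)) T ∧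
  IntegrableOn (fun x => g x * AS R x (fun _ y => f y) * (ρ x : ℂ)) T ∧
  ∫ x in T, f x * AS R x (fun _ y => g y) * (ρ x : ℂ) =
    ∫ x in T, g x * AS R x (fun _ y => f y) * (ρ x : ℂ)

/-- DETI. The determinant of the metric and the inverse metric. USES: ARRB, WCH.
PROOF. `hermi (H (τ x)) (Dτ u) (Dτ v) = hermi (H x) u v` says `H x = Jᵗ (H (τ x)) J̄` with `J p j = Dτ(e_j)_p`; take
determinants and inverses. The determinant of a positive definite matrix is a positive real. The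
`cdb` form of closedness: conjugate `closed`. The last item: derivative of the adjugate, or
`∑ k, cd k (adj H j k) = 0` from helper's `PHDIV` (Lin), `H⁻¹ = (det H)⁻¹ adj H`. -/
def S_DETI : Prop := ∀ {n : ℕ} (T : Set (Cn n)) {G : Type u} [Group G]
  (R : G → Cn n → Cn n → Prop) (H : Cn n → Matrix (Fin n) (Fin n) ℂ), KEt T R H →
  (∀ x ∈ T, (H x).det.im = 0 ∧ 0 < (H x).det.re ∧ (H x)⁻¹.PosDef ∧ H x * (H x)⁻¹ = 1) ∧
  ContDiffOn ℝ ∞ (fun x => (H x).det.re) T ∧ (∀ j k, ContDiffOn ℝ ∞ (fun x => (H x)⁻¹ j k) T) ∧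
  (∀ x ∈ T, ∀ j k l, cdb l (fun y => H y j k) x = cdb k (fun y => H y j l) x) ∧
  (∀ U τ, Arr R U τ → ∀ x ∈ U,
    (H x).det.re = (H (τ x)).det.re * ‖(fderiv ℂ τ x).det‖ ^ 2 ∧
    ∀ j k, (H (τ x))⁻¹ j k = ∑ p, ∑ q, conj (fderiv ℂ τ x (Pi.single p 1) j) * (H x)⁻¹ p q *
      fderiv ℂ τ x (Pi.single q 1) k) ∧
  ∀ x ∈ T, ∀ j, ∑ k, cd k (fun y => ((H y).det.re : ℂ) * (H y)⁻¹ j k) x = 0

/-- DIVC. The divergence theorem. USES: WIRT, WCH, ARRB, LFIN, SWAP, DETI.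
PROOF. `ρ := det H`, `X := Y / ρ`: `X (τ x) = Dτ (X x)`. Integration by parts:
`∫ κ ∑ cd_k Y^k = - ∫ ∑ (cd_k κ) Y^k = - ∫ f ρ`, `f := ∑ k (cd_k κ) X^k` (continuous, compact support). By
`IsPUE.sum` and `SWAP`: `∫ f ρ = ∫ f AS(κ) ρ = ∫ κ AS(f) ρ`. On `U` of `LFIN` (for `C = tsupport κ`):
`AS(f)(x) = ∑_l f(τ_l x) = ∑_l ∑_j X^j(x) cd_j (κ ∘ τ_l) (x)` (`WCH`) `= ∑ j X^j(x) cd_j (AS κ)(x) = 0`. -/
def S_DIVC : Prop := ∀ {n : ℕ} (T : Set (Cn n)) {G : Type u} [Group G]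
  (R : G → Cn n → Cn n → Prop) (H : Cn n → Matrix (Fin n) (Fin n) ℂ), KEt T R H →
  ∀ κ, IsPUE T R κ → ∀ Y : Cn n → Cn n, ContDiffOn ℝ ∞ Y T →
  (∀ U τ, Arr R U τ → ∀ x ∈ U, fderiv ℂ τ x (Y x) =
    ((‖(fderiv ℂ τ x).det‖ ^ 2 : ℝ) : ℂ) • Y (τ x)) →
  ∫ x in T, (κ x : ℂ) * ∑ k, cd k (fun y => Y y k) x = 0

/-! ## Sections of powers of the canonical bundle -/

/-- Smooth automorphic functions of weight `m`. -/
def Sec {n : ℕ} (T : Set (Cn n)) {G : Type u} (R : G → Cn n → Cn n → Prop) (m : ℕ)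
    (s : Cn n → ℂ) : Prop :=
  ContDiffOn ℝ ∞ s T ∧ ∀ U τ, Arr R U τ → ∀ x ∈ U, s x = s (τ x) * (fderiv ℂ τ x).det ^ m

/-- Weights. -/
structure Wt {n : ℕ} (T : Set (Cn n)) {G : Type u} (R : G → Cn n → Cn n → Prop) (m : ℕ)
    (W : Cn n → ℝ) : Prop where
  pos : ∀ x ∈ T, 0 < W x
  smooth : ContDiffOn ℝ ∞ W T
  inv : ∀ U τ, Arr R U τ → ∀ x ∈ U,
    W (τ x) * ‖(fderiv ℂ τ x).det‖ ^ 2 = W x * ‖(fderiv ℂ τ x).det‖ ^ (2 * m)

/-- The vector field dual to `∂̄h`. -/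
noncomputable def vfld {n : ℕ} (H : Cn n → Matrix (Fin n) (Fin n) ℂ) (h : Cn n → ℂ) (x : Cn n) :
    Cn n := fun k => ∑ j, (H x)⁻¹ j k * cdb j h x

/-- The operator `∂̄^* ∂̄` on functions, for the weight `W` and the metric `H`. -/
noncomputable def boxO {n : ℕ} (H : Cn n → Matrix (Fin n) (Fin n) ℂ) (W : Cn n → ℝ)
    (h : Cn n → ℂ) (x : Cn n) : ℂ :=
  - ((W x : ℂ)⁻¹ * ∑ k, cd k (fun y => (W y : ℂ) * vfld H h y k) x)

/-- The inner product of sections. -/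
noncomputable def ipE {n : ℕ} (T : Set (Cn n)) (κ W : Cn n → ℝ) (s t : Cn n → ℂ) : ℂ :=
  ∫ x in T, ((κ x * W x : ℝ) : ℂ) * (s x * conj (t x))

/-- The square of the norm. -/
noncomputable def nsE {n : ℕ} (T : Set (Cn n)) (κ W : Cn n → ℝ) (s : Cn n → ℂ) : ℝ :=
  ∫ x in T, κ x * W x * ‖s x‖ ^ 2

/-- The pointwise inner product of the `(0,1)`-forms `∂̄s`, `∂̄t`. -/
noncomputable def dbp {n : ℕ} (H : Cn n → Matrix (Fin n) (Fin n) ℂ) (s t : Cn n → ℂ) (x : Cn n) :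
    ℂ := ∑ j, ∑ k, (H x)⁻¹ j k * cdb j s x * conj (cdb k t x)

/-- The inner product of the `(0,1)`-forms `∂̄s`, `∂̄t`. -/
noncomputable def dipE {n : ℕ} (T : Set (Cn n)) (κ W : Cn n → ℝ)
    (H : Cn n → Matrix (Fin n) (Fin n) ℂ) (s t : Cn n → ℂ) : ℂ :=
  ∫ x in T, ((κ x * W x : ℝ) : ℂ) * dbp H s t x

/-- BOX. USES: WIRT, WCH, ARRB, DETI, DIVC.
PROOF. Naturality: for an arrow `τ`, `J = det Dτ`: `h = (h ∘ τ) J^m`, so `vfld h x = J^m (Dτ)⁻¹ (vfld h (τ x))`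
(`DETI`, `WCH`, `J^m` holomorphic), `W x = W (τ x) |J|² |J|^(-2m)`, so `W vfld h = (conj J)^(-m) |J|² (Dτ)⁻¹ ((W vfld h)
∘ τ)`; `cd k` kills antiholomorphic factors, and for smooth `Z`: `∑ k cd_k (J ((Dτ)⁻¹ (Z ∘ τ))_k) = J (∑ cd_k Z_k) ∘ τ`
(Piola: `∑ k ∂_k (J (Dτ)⁻¹_{k j}) = 0`, i.e. the cofactors of a Jacobian matrix are divergence free; or derive the
weak form of naturality from the change of variables formula and test functions). Symmetry: `Y := W conj(t) vfld s`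
satisfies the hypothesis of `DIVC` and `∑ cd_k Y^k = - W conj(t) boxO s + W ∑ conj(cdb_k t) vfld s k`,
`∑ k, conj (cdb_k t) vfld s k = dbp s t`. The second identity: conjugate (`(H⁻¹)` is Hermitian). -/
def S_BOX : Prop := ∀ {n : ℕ} (T : Set (Cn n)) {G : Type u} [Group G]
  (R : G → Cn n → Cn n → Prop) (H : Cn n → Matrix (Fin n) (Fin n) ℂ), KEt T R H →
  ∀ κ, IsPUE T R κ → ∀ (m : ℕ) (W : Cn n → ℝ), Wt T R m W → ∀ s t, Sec T R m s → Sec T R m t →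
  Sec T R m (boxO H W s) ∧ ipE T κ W (boxO H W s) t = dipE T κ W H s t ∧
  ipE T κ W s (boxO H W t) = dipE T κ W H s t

/-- L2C. The global norm controls local norms. USES: WCH, ARRB, DETI.
PROOF. Let `x₀ ∈ C`; some arrow `(γ, x₀, y₀)` has `κ y₀ > 0` (`IsPUE.sum`); let `τ` be the local arrow on a small
ball `U` about `x₀`, injective, `κ ∘ τ ≥ c > 0` on `U`. `∫_U |s|² = ∫_U |s ∘ τ|² |J|^(2m) ≤ C' ∫_{τ U} |s|² ≤ C'' ∫ κ W |s|²`
(change of variables). Same for the derivatives: `cdb_j s = ∑ conj(∂_j τ_k) (cdb_k s) ∘ τ J^m`, and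
`dbp s s ≥ c' ∑ |cdb_k s|²` on compact sets. Finite cover of `C`. -/
def S_L2C : Prop := ∀ {n : ℕ} (T : Set (Cn n)) {G : Type u} [Group G]
  (R : G → Cn n → Cn n → Prop) (H : Cn n → Matrix (Fin n) (Fin n) ℂ), KEt T R H →
  ∀ κ, IsPUE T R κ → ∀ (m : ℕ) (W : Cn n → ℝ), Wt T R m W → ∀ C ⊆ T, IsCompact C →
  ∃ B : ℝ, ∀ s, Sec T R m s → ∫ x in C, ‖s x‖ ^ 2 ≤ B * nsE T κ W s ∧
    ∫ x in C, ∑ j, ‖cdb j s x‖ ^ 2 ≤ B * (dipE T κ W H s s).re

/-- The automorphic sum of `η`. -/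
noncomputable def aut {n : ℕ} {G : Type u} (R : G → Cn n → Cn n → Prop) (m : ℕ) (η : Cn n → ℂ)
    (x : Cn n) : ℂ := AS R x fun γ y => η y * aJ R γ x y ^ m

/-- AUT. Automorphic sums and unfolding. USES: WIRT, WCH, ARRB, LFIN, ASI, SWAP, DETI.
PROOF. (1) On `U` of `LFIN` (`C ⊇ supp η`): `aut η x = ∑ k, η (τ_k x) (det Dτ_k x)^m`, smooth. For an arrow `τ` from
`x` to `x'` with group element `γ₀`: `ASI` and `aJ (γ γ₀) x y = aJ γ x' y * aJ γ₀ x x'`. (2) With `ρ = det H`,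
`F := s conj(η) W / ρ` (compact support): for an arrow `x → y` with Jacobian `J`:
`s x conj(η(y) J^m) W x = s(y) conj(η(y)) |J|^(2m) W x = F(y) ρ(y) |J|² = F(y) ρ(x)`. So `ipE s (aut η) =
∫ κ AS(F) ρ = ∫ F AS(κ) ρ = ∫ F ρ` (`SWAP` with `g = κ`). (2') the same with the forms: `cdb_k (aut η)(x) =
∑ conj(∂_k τ_l) (cdb_l η)(τ x) J^m`, and `dbp` is natural by `DETI`. (3) `s(y) aJ^m = s(x)`, so `aut (κ s) x =
s x AS κ = s x`. (4) number of arrows from `tsupport κ` to `C` at most `N` (compactness, `LFIN`):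
`|aut η x|² ≤ N ∑ |η(y)|² |J|^(2m)`, and `∫ κ(x) ∑ W(x) |J|^(2m) |η(y)|² = ∫ κ AS(W |η|²/ρ) ρ = ∫ W |η|²` by `SWAP`;
`W` is bounded on `C`. Same for the forms. -/
def S_AUT : Prop := ∀ {n : ℕ} (T : Set (Cn n)) {G : Type u} [Group G]
  (R : G → Cn n → Cn n → Prop) (H : Cn n → Matrix (Fin n) (Fin n) ℂ), KEt T R H →
  ∀ κ, IsPUE T R κ → ∀ (m : ℕ) (W : Cn n → ℝ), Wt T R m W → ∀ C ⊆ T, IsCompact C →
  (∀ η : Cn n → ℂ, ContDiff ℝ ∞ η → (∀ x ∉ C, η x = 0) → Sec T R m (aut R m η) ∧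
    ∀ s, Sec T R m s → ipE T κ W s (aut R m η) = ∫ x in T, (W x : ℂ) * (s x * conj (η x)) ∧
      dipE T κ W H s (aut R m η) = ∫ x in T, (W x : ℂ) * dbp H s η x) ∧
  (∀ s, Sec T R m s → ∀ x ∈ T, aut R m (fun y => (κ y : ℂ) * s y) x = s x) ∧
  ∃ B : ℝ, ∀ η : Cn n → ℂ, ContDiff ℝ ∞ η → (∀ x ∉ C, η x = 0) →
    nsE T κ W (aut R m η) ≤ B * ∫ x in C, ‖η x‖ ^ 2 ∧
    (dipE T κ W H (aut R m η) (aut R m η)).re ≤ B * ∫ x in C, ∑ j, ‖cdb j η x‖ ^ 2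

/-! ## Local regularity -/

/-- Mollification of a complex function. -/
noncomputable def mollc {n : ℕ} (f : Cn n → ℂ) (ε : ℝ) (x : Cn n) : ℂ :=
  ∫ y, f (x - y) * (mol n ε y : ℂ)

/-- MOL2. Mollification in `L²`.
PROOF. `mol n ε ≥ 0` is smooth, has integral `1` (if `n ≥ 1`; for `n = 0` everything is trivial: check that
`mol 0 ε` is `1`... `Cn 0` is a point) and support in `closedBall 0 ε`. Smoothness: convolution with a smooth
compactly supported function (`HasCompactSupport.contDiff_convolution_right`). Norm bound: Jensen or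
Cauchy-Schwarz `|f*φ|² ≤ |f|²*φ` and Tonelli. Convergence: dense subspace of continuous functions with
compact support (`MemLp.exists_hasCompactSupport_integral_rpow_sub_le` or
`Memℒp...`) and the norm bound. -/
def S_MOL2 : Prop := ∀ {n : ℕ} (f : Cn n → ℂ), MemLp f 2 volume →
  (∀ ε : ℝ, 0 < ε → ContDiff ℝ ∞ (mollc f ε) ∧ MemLp (mollc f ε) 2 volume ∧
    ∫ x, ‖mollc f ε x‖ ^ 2 ≤ ∫ x, ‖f x‖ ^ 2) ∧
  Tendsto (fun ε => ∫ x, ‖mollc f ε x - f x‖ ^ 2) (𝓝[>] 0) (𝓝 0)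

/-- FRIE. The commutator lemma of Friedrichs. USES: WIRT, MOL2.
PROOF. `cdb_l` acts on `y ↦ (a y - a x) mol(x - y)`. The kernel is `(cdb_l a)(y) mol_ε(x-y) - (a y - a x)
(cdb_l mol_ε)(x-y)`, bounded by `C ε^(-2n)` on `|x - y| ≤ ε` and zero elsewhere (`a` is Lipschitz;
`mol_ε(y) = ε^(-2n) mol_1(y/ε)`), so the operators `K_ε : L² → L²` have uniformly bounded norms (Schur test).
For `f` smooth with compact support integrate by parts: `K_ε f(x) = - ∫ (cdb_l f)(y) (a y - a x) mol_ε(x-y) dy`,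
uniformly `O(ε)` with support in a fixed compact set. Density. -/
def S_FRIE : Prop := ∀ {n : ℕ} (a f : Cn n → ℂ), ContDiff ℝ ∞ a → HasCompactSupport a →
  MemLp f 2 volume → ∀ l : Fin n,
  (∀ ε : ℝ, 0 < ε → MemLp (fun x => ∫ y, f y * cdb l (fun y' => (a y' - a x) *
    (mol n ε (x - y') : ℂ)) y) 2 volume) ∧
  Tendsto (fun ε => ∫ x, ‖∫ y, f y * cdb l (fun y' => (a y' - a x) *
    (mol n ε (x - y') : ℂ)) y‖ ^ 2) (𝓝[>] 0) (𝓝 0)

/-- CACC. The Caccioppoli inequality. USES: WIRT.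
PROOF. Multiply the equation by `χ² conj(u)` and integrate by parts (`cd_j (conj u) = conj (cdb_j u)`):
`∫ χ² ∑ A k j cdb_k u conj(cdb_j u) = - ∫ 2 χ ∑ (cd_j χ) conj(u) A k j cdb_k u + ∫ ∑ F_j (χ² conj(cdb_j u) +
2 χ (cd_j χ) conj(u))`. `A` is bounded above and below by positive constants on `tsupport χ` (compact);
Young's inequality. -/
def S_CACC : Prop := ∀ {n : ℕ} (T : Set (Cn n)) (A : Cn n → Matrix (Fin n) (Fin n) ℂ), IsOpen T →
  (∀ j k, ContDiffOn ℝ ∞ (fun x => A x j k) T) → (∀ x ∈ T, (A x).PosDef) → ∀ χ : Cn n → ℝ,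
  TestF T χ → ∃ B : ℝ, ∀ (u : Cn n → ℂ) (F : Cn n → Cn n), ContDiffOn ℝ ∞ u T →
    ContDiffOn ℝ ∞ F T →
    (∀ x ∈ tsupport χ, ∑ j, cd j (fun y => ∑ k, A y k j * cdb k u y) x =
      ∑ j, cd j (fun y => F y j) x) →
    ∫ x in T, χ x ^ 2 * ∑ k, ‖cdb k u x‖ ^ 2 ≤
      B * ((∫ x in tsupport χ, ‖u x‖ ^ 2) + ∫ x in tsupport χ, ∑ j, ‖F x j‖ ^ 2)

/-- REGL. Local regularity of weak solutions. USES: WIRT, MOL2, FRIE, CACC.
PROOF. Let `C ⊆ T` be compact, `χ` a test function equal to `1` near `C`, `C₁` a compact neighbourhood of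
`tsupport χ` in `T`. Replace `f` by `f 1_{C₁}` and the entries of `A` by smooth functions with compact support in
`T`, equal to `A` near `C₁`: for `x` near `tsupport χ` and small `ε` the test function `ζ(y) = mol n ε (x - y)` sees
only `C₁`. The weak equation for this `ζ`: `0 = ∫ f(y) ∑ cdb_k^y (A k j (y) cd_j^y mol(x-y)) dy = - ∑ j cd_j^x V_j(x)`,
`V_j(x) := ∑ k ∫ f(y) cdb_k^y (A k j (y) mol(x-y)) dy = - ∑ k A k j (x) cdb_k f_ε(x) + F_j(x)`, where `f_ε = mollc f ε`,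
`F_j(x) = ∑ k ∫ f(y) cdb_k^y ((A k j (y) - A k j (x)) mol(x-y)) dy`, because `∫ f(y) cdb_k^y (mol(x-y)) dy =
- cdb_k f_ε (x)`. So `∑ j cd_j (∑ k A k j cdb_k f_ε) = ∑ j cd_j F_j` near `tsupport χ`, `F_j → 0` in `L²` by `FRIE`. Apply
`CACC` to `u = f_ε - f_ε'`, `F = F^ε - F^ε'` (they are smooth near `tsupport χ`, multiply by a cutoff or use a
smaller `T`): `∫_C ∑ |cdb_k u|² ≤ B(∫|f_ε - f_ε'|² + ∫|F^ε - F^ε'|²)`, small by `MOL2`. `f_j := mollc (f 1_{C₁}) (1/(j+1))`. -/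
def S_REGL : Prop := ∀ {n : ℕ} (T : Set (Cn n)) (A : Cn n → Matrix (Fin n) (Fin n) ℂ), IsOpen T →
  (∀ j k, ContDiffOn ℝ ∞ (fun x => A x j k) T) → (∀ x ∈ T, (A x).PosDef) → ∀ f : Cn n → ℂ,
  (∀ C ⊆ T, IsCompact C → MemLp f 2 (volume.restrict C)) →
  (∀ ζ : Cn n → ℂ, ContDiff ℝ ∞ ζ → HasCompactSupport ζ → tsupport ζ ⊆ T →
    ∫ x in T, f x * ∑ k, ∑ j, cdb k (fun y => A y k j * cd j ζ y) x = 0) →
  ∀ C ⊆ T, IsCompact C → ∃ F : ℕ → Cn n → ℂ, (∀ j, ContDiff ℝ ∞ (F j)) ∧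
    Tendsto (fun j => ∫ x in C, ‖F j x - f x‖ ^ 2) atTop (𝓝 0) ∧
    ∀ ε > 0, ∃ J, ∀ i ≥ J, ∀ j ≥ J, ∫ x in C, ∑ l, ‖cdb l (F i) x - cdb l (F j) x‖ ^ 2 ≤ ε

/-- HOLL. `L²` limits with `∂̄ → 0` are holomorphic. USES: WIRT, MOL2.
PROOF. Let `C₁ ⊆ T` be compact and `x` in its interior at distance `> ε` from the complement. `mollc (h_j) ε →
mollc f ε` uniformly near `x` with all derivatives and `cdb_l (mollc h_j ε)(x) = ∫ (cdb_l h_j)(x-y) mol(y) dy → 0`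
uniformly; so `f_ε := mollc f ε` (for `f` cut off outside `C₁`) is holomorphic (`WIRT`: `cdb_l f_ε = 0`, or
limit of ... ). Holomorphic functions satisfy `mollc g ε' = g` (mean value property; `mol` depends only on the
absolute values of the coordinates), and `mollc (mollc f ε) ε' = mollc (mollc f ε') ε` (Fubini), so
`f_ε = f_ε'` where both are defined. By `MOL2` `f_ε → f` in `L²_loc`, so `f = f_ε` a.e. locally; glue to a
holomorphic `x` on `T` (e.g. `g x := lim_{ε → 0} f_ε(x)`, eventually constant in `ε` near each point). -/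
def S_HOLL : Prop := ∀ {n : ℕ} (T : Set (Cn n)), IsOpen T → ∀ (h : ℕ → Cn n → ℂ) (f : Cn n → ℂ),
  (∀ j, ContDiffOn ℝ ∞ (h j) T) → (∀ C ⊆ T, IsCompact C → MemLp f 2 (volume.restrict C) ∧
    Tendsto (fun j => ∫ x in C, ‖h j x - f x‖ ^ 2) atTop (𝓝 0) ∧
    Tendsto (fun j => ∫ x in C, ∑ l, ‖cdb l (h j) x‖ ^ 2) atTop (𝓝 0)) →
  ∃ g : Cn n → ℂ, DifferentiableOn ℂ g T ∧ ∀ᵐ x ∂(volume.restrict T), f x = g x

/-- L2LIM. Completeness of `L²_loc`.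
PROOF. Exhaust `T` by compact sets `C_k` (`T` open in `ℂⁿ`); the restrictions to `C_k` are Cauchy in `L²(C_k)`
(`MeasureTheory.Lp` complete), the limits are compatible a.e.; or: a subsequence converges a.e. on `T`
(diagonal), define `f` as the pointwise limit, Fatou. -/
def S_L2LIM : Prop := ∀ {n : ℕ} (T : Set (Cn n)), IsOpen T → ∀ s : ℕ → Cn n → ℂ,
  (∀ j, ContinuousOn (s j) T) → (∀ C ⊆ T, IsCompact C → ∀ ε > 0, ∃ J, ∀ i ≥ J, ∀ j ≥ J,
    ∫ x in C, ‖s i x - s j x‖ ^ 2 ≤ ε) → ∃ f : Cn n → ℂ, ∀ C ⊆ T, IsCompact C →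
    MemLp f 2 (volume.restrict C) ∧ Tendsto (fun j => ∫ x in C, ‖s j x - f x‖ ^ 2) atTop (𝓝 0)

/-- REG. Weak solutions are holomorphic. USES: WIRT, WCH, ARRB, DETI, BOX, L2C, AUT, REGL, HOLL,
L2LIM.
PROOF. By `L2C` `s_j` is Cauchy in `L²_loc(T)`; `f` its limit (`L2LIM`). Weak equation: let `ζ` be a test function and
`η := conj ζ`. `ipE (s_j) (boxO (aut η)) = dipE (s_j) (aut η)` (`BOX`) `= ∫ W dbp s_j η` (`AUT`) `= - ∫ s_j ∑ cdb_k (A k i
cd_i ζ)` with `A k i := W (H⁻¹) k i` (integration by parts; `conj(cdb_i η) = cd_i ζ`). The left side tends to `0`,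
the right side to `- ∫ f ∑ cdb_k (A k i cd_i ζ)`. `REGL` for `C = tsupport κ`: `F_j`. `h_j := aut (κ F_j)`, `Sec` by `AUT`.
`nsE (h_j - s_i) = nsE (aut (κ (F_j - s_i))) ≤ B ∫ |F_j - s_i|² κ²` (by (3) of `AUT` and additivity of `aut`), so
`nsE (h_j - s_j) → 0`. `dipE (h_i - h_j) (h_i - h_j) ≤ B ∫ ∑ |cdb_l (κ(F_i - F_j))|² → 0`: the `∂̄h_j` are Cauchy in the
(semi) inner product `dipE`. For fixed `i`: `dipE h_j h_i = ipE h_j (boxO h_i) → 0` as `j → ∞` (`BOX`, hypothesis and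
`nsE (h_j - s_j) → 0`). So `dipE h_j h_j = dipE h_j (h_j - h_i) + dipE h_j h_i → 0` (Cauchy-Schwarz, `i` large
fixed, then `j → ∞`). By `L2C` `h_j → f` and `cdb_l h_j → 0` in `L²_loc(T)` (`h_j - s_j` and `h_j` are `Sec`). `HOLL` gives
`g`. `g` is automorphic: on a small ball both sides of `s_j = (s_j ∘ τ) J^m` converge in `L²` to `g` and
`(g ∘ τ) J^m` (change of variables), continuity. `nsE (s_j - g) → 0` since `κ` has compact support. -/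
def S_REG : Prop := ∀ {n : ℕ} (T : Set (Cn n)) {G : Type u} [Group G]
  (R : G → Cn n → Cn n → Prop) (H : Cn n → Matrix (Fin n) (Fin n) ℂ), KEt T R H →
  ∀ κ, IsPUE T R κ → ∀ (m : ℕ) (W : Cn n → ℝ), Wt T R m W → ∀ s : ℕ → Cn n → ℂ,
  (∀ j, Sec T R m (s j)) → (∀ ε > 0, ∃ J, ∀ i ≥ J, ∀ j ≥ J,
    nsE T κ W (fun x => s i x - s j x) ≤ ε) →
  (∀ h, Sec T R m h → Tendsto (fun j => ipE T κ W (s j) (boxO H W h)) atTop (𝓝 0)) →
  ∃ g : Cn n → ℂ, Sec T R m g ∧ DifferentiableOn ℂ g T ∧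
    Tendsto (fun j => nsE T κ W (fun x => s j x - g x)) atTop (𝓝 0)

/-- PROJ. Projection to the holomorphic sections. USES: BOX, REG (and `L2C` for definiteness if
needed).
PROOF. `d := inf nsE (s - boxO h)` over `Sec h`; a minimizing sequence `h_j`; `s_j := s - boxO (h_j)`. By the
parallelogram law (`boxO` is linear on smooth functions) `s_j` is Cauchy, and `ipE (s_j) (boxO h) → 0` for every
`h` (otherwise `nsE (s_j - c boxO h) < d` for a suitable `c`, with `nsE (boxO h)` finite; Cauchy-Schwarz argument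
`|ipE (s_j) (boxO h)|² ≤ (nsE s_j - d) nsE (boxO h)`). `REG`. -/
def S_PROJ : Prop := ∀ {n : ℕ} (T : Set (Cn n)) {G : Type u} [Group G]
  (R : G → Cn n → Cn n → Prop) (H : Cn n → Matrix (Fin n) (Fin n) ℂ), KEt T R H →
  ∀ κ, IsPUE T R κ → ∀ (m : ℕ) (W : Cn n → ℝ), Wt T R m W → ∀ s, Sec T R m s →
  ∃ (g : Cn n → ℂ) (h : ℕ → Cn n → ℂ), Sec T R m g ∧ DifferentiableOn ℂ g T ∧
    (∀ j, Sec T R m (h j)) ∧
    Tendsto (fun j => nsE T κ W (fun x => s x - g x - boxO H W (h j) x)) atTop (𝓝 0)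

/-- BOCH. The basic inequality. USES: WIRT, WCH, LMF, ARRB, DETI, DIVC, BOX.
PROOF. `v := vfld H h`, `δ := W⁻¹ ∑ cd_k (W v^k) = - boxO h`. `W |δ|² = δ ∑ cdb_l (W conj v^l) = ∑ cdb_l (δ W conj v^l) -
∑ W conj(v^l) cdb_l δ`. The first term is the conjugate of the divergence of `Y^l := conj(δ) W v^l`, which satisfies the
hypothesis of `DIVC`. `cdb_l δ = ∑ cd_k cdb_l v^k + (cdb_l cd_k log W) v^k + (cd_k log W) cdb_l v^k`, so
`- ∑ W conj(v^l) cdb_l δ = - W ∑ (cd_k cdb_l log W) v^k conj(v^l) - ∑ conj(v^l) cd_k (W cdb_l v^k)` and the last sum is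
`- ∑ cd_k (Z^k) + W ∑ (cdb_l v^k) conj(cdb_k v^l)`, `Z^k := W ∑ conj(v^l) cdb_l v^k` (again of the type of `DIVC`).
Finally `X k l := cdb_l v^k`: `(Hᵀ X) k l = ∑ j H j k cdb_l v^j = cdb_l (cdb_k h) - ∑ (cdb_l H j k) v^j` is symmetric
(`∑ j H j k v^j = cdb_k h`, `DETI`), so `tr (X X̄) ≥ 0` (`Pool.Agent.Helper63.SP.core2`, or: `X = (Hᵀ)⁻¹ S`). -/
def S_BOCH : Prop := ∀ {n : ℕ} (T : Set (Cn n)) {G : Type u} [Group G]
  (R : G → Cn n → Cn n → Prop) (H : Cn n → Matrix (Fin n) (Fin n) ℂ), KEt T R H →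
  ∀ κ, IsPUE T R κ → ∀ (m : ℕ) (W : Cn n → ℝ), Wt T R m W → ∀ h, Sec T R m h →
  ∫ x in T, κ x * W x * (- lev (fun y => Real.log (W y)) x (vfld H h x)) ≤
    nsE T κ W (boxO H W h)

/-! ## Hodge theory for functions -/

/-- CONI. Invariant holomorphic functions are constant. USES: ARRB.
PROOF. `|g|` is invariant and continuous and attains its maximum at some `x₀ ∈ C` (`Et.coc`). `S := {x ∈ T |
|g x| = max}`: closed in `T`, open by the maximum principle, invariant; so `S = T`, `|g|` is constant, `g` is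
locally constant (open mapping / `Complex.eqOn_of_isPreconnected_of_isMaxOn_norm`), and `{x | g x = g x₀}` is
open, closed, invariant. -/
def S_CONI : Prop := ∀ {n : ℕ} (T : Set (Cn n)) {G : Type u} [Group G]
  (R : G → Cn n → Cn n → Prop), Et T R → ∀ g : Cn n → ℂ, Sec T R 0 g → DifferentiableOn ℂ g T →
  ∃ a : ℂ, ∀ x ∈ T, g x = a

/-- POIL. The local Poincaré inequality.
PROOF. `f x - f y = ∫₀¹ Df(y + t(x-y))(x-y) dt`, so `(f x - f y)² ≤ (2r)² ∫₀¹ |Df(y + t(x-y))|² dt`. For `t ≥ 1/2`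
substitute `x ↦ y + t(x-y)` for fixed `y` (Jacobian `t^(2n) ≥ 2^(-2n)`, image in the ball by convexity); for
`t ≤ 1/2` the same in `y`. -/
def S_POIL : Prop := ∀ {n : ℕ} (x₀ : Cn n) (r : ℝ), 0 < r → ∃ K : ℝ, ∀ (f : Cn n → ℝ)
  (U : Set (Cn n)), IsOpen U → closedBall x₀ r ⊆ U → ContDiffOn ℝ ∞ f U →
  ∫ x in ball x₀ r, ∫ y in ball x₀ r, (f x - f y) ^ 2 ≤ K * ∫ x in ball x₀ r, ‖fderiv ℝ f x‖ ^ 2

/-- Smooth invariant real functions. -/
def InvF {n : ℕ} (T : Set (Cn n)) {G : Type u} (R : G → Cn n → Cn n → Prop) (φ : Cn n → ℝ) :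
    Prop :=
  ContDiffOn ℝ ∞ φ T ∧ ∀ γ x y, R γ x y → φ y = φ x

/-- POIN. The Poincaré inequality. USES: ARRB, DETI, L2C, POIL.
PROOF. Let `C = tsupport κ ∪ (the compact set of Et.coc)`, covered by finitely many balls `B_i`, `i ∈ I`, with
`closedBall ⊆ T`. For `i, j ∈ I` write `i ~ j` if some arrow maps a point of `B_i` to a point of `B_j`; then for the
means `m_i` of `φ` over `B_i`: `|m_i - m_j|² ≤ K' (∫_{B_i} |dφ|² + ∫_{B_j} |dφ|²)` (compare with the mean over a small ball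
`B ⊆ B_i` that an arrow maps into `B_j`; `φ` is invariant; `POIL`). The graph is connected: for a connected
component `I₁` the set of points having an arrow to `⋃_{I₁} B_i` is open, invariant, and its complement is the
analogous set for `I \ I₁`; `Et.conn`. So all `|m_i - m_1|² ≤ K'' ∫_{⋃ B_i} |dφ|²` and `∫_C (φ - m_1)² ≤ K''' ∫ |dφ|²`. By
`L2C` (`m = 0`, `W = det H`, closed balls) the right side is `≤ K (dipE φ φ).re` (`|dφ|² ≤ c ∑ |cdb_j φ|²` for real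
`φ`). If `∫ κ ρ φ = 0` then `∫ κ ρ φ² ≤ ∫ κ ρ (φ - m_1)²`. -/
def S_POIN : Prop := ∀ {n : ℕ} (T : Set (Cn n)) {G : Type u} [Group G]
  (R : G → Cn n → Cn n → Prop) (H : Cn n → Matrix (Fin n) (Fin n) ℂ), KEt T R H →
  ∀ κ, IsPUE T R κ → ∃ K : ℝ, ∀ φ, InvF T R φ → ∫ x in T, κ x * (H x).det.re * φ x = 0 →
  ∫ x in T, κ x * (H x).det.re * φ x ^ 2 ≤
    K * (dipE T κ (fun x => (H x).det.re) H (fun x => (φ x : ℂ)) fun x => (φ x : ℂ)).re

/-- The trace of the Levi matrix. -/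
noncomputable def trL {n : ℕ} (H : Cn n → Matrix (Fin n) (Fin n) ℂ) (u : Cn n → ℝ) (x : Cn n) :
    ℂ := Matrix.trace ((H x)⁻¹ * LM u x)

/-- `du` is invariant. -/
def DInv {n : ℕ} {G : Type u} (R : G → Cn n → Cn n → Prop) (u : Cn n → ℝ) : Prop :=
  ∀ U τ, Arr R U τ → ∀ x ∈ U, fderiv ℝ (fun y => u (τ y)) x = fderiv ℝ u x

/-- LMID. The integral of the second elementary symmetric function of the Levi form vanishes.
USES: WIRT, WCH, LMF, ARRB, DETI, DIVC.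
PROOF. `L := LM u`, `K := H⁻¹`, `B j k l m := det H (K j k K l m - K l k K j m)`. (a) `∑ k cd_k (B j k l m) = 0`: with
`T k q p := cd_k H q p = T q k p`: `cd_k det H = det H ∑ K p q T k q p`, `cd_k (K j m) = - ∑ K j q T k q p K p m`; expand, six
terms cancel in pairs after the exchange `k ↔ q`. (b) `det H ((tr K L)² - tr (K L K L)) = ∑ B j k l m L k j L m l =
∑ k cd_k (Y^k)`, `Y^k := ∑ B j k l m (cdb_j u) L m l`, since `∑ B j k l m cdb_j u cd_k (L m l) = 0` (`cd_k L m l` is symmetric in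
`k, m`, `B` antisymmetric). `Y` satisfies the hypothesis of `DIVC` (`du` and `LM u` are invariant, `DETI`). (c) first
moment: `det H tr (K L) = ∑ k cd_k (∑ j det H K j k cdb_j u)`. -/
def S_LMID : Prop := ∀ {n : ℕ} (T : Set (Cn n)) {G : Type u} [Group G]
  (R : G → Cn n → Cn n → Prop) (H : Cn n → Matrix (Fin n) (Fin n) ℂ), KEt T R H →
  ∀ κ, IsPUE T R κ → ∀ u : Cn n → ℝ, ContDiffOn ℝ ∞ u T → DInv R u →
  (∀ x ∈ T, (trL H u x).im = 0) ∧ InvF T R (fun x => (trL H u x).re) ∧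
  ∫ x in T, κ x * (H x).det.re * (trL H u x).re = 0 ∧
  ∫ x in T, κ x * (H x).det.re * (Matrix.trace ((H x)⁻¹ * LM u x * ((H x)⁻¹ * LM u x))).re =
    ∫ x in T, κ x * (H x).det.re * (trL H u x).re ^ 2

/-- LML2. Local bound for the Levi matrix by the global integral. USES: WCH, LMF, ARRB, DETI.
PROOF. As `L2C`: the function `tr (K L K L)` (`≥ 0`, `= |Q⁻¹ L Q⁻ᴴ|²` for `H = Q Qᴴ`; `≥ c |L|²` on compact sets) is
invariant, and `|lev u x e| ≤ |L| |e|²` up to a constant. -/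
def S_LML2 : Prop := ∀ {n : ℕ} (T : Set (Cn n)) {G : Type u} [Group G]
  (R : G → Cn n → Cn n → Prop) (H : Cn n → Matrix (Fin n) (Fin n) ℂ), KEt T R H →
  ∀ κ, IsPUE T R κ → ∀ C ⊆ T, IsCompact C → ∃ B : ℝ, ∀ u : Cn n → ℝ, ContDiffOn ℝ ∞ u T →
  DInv R u → ∀ e : Cn n, ‖e‖ ≤ 1 → ∫ x in C, lev u x e ^ 2 ≤
    B * ∫ x in T, κ x * (H x).det.re *
      (Matrix.trace ((H x)⁻¹ * LM u x * ((H x)⁻¹ * LM u x))).re

/-- WEYL. Weakly pluriharmonic functions.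
PROOF. `MOLW` of Lin (helper95's GoalsH, proved; real functions): `moll u ε` is continuous with the mean value
property and independent of `ε` locally; so it is its own mollification, hence smooth, and pluriharmonic
(the mean value property on all complex discs gives `lev = 0`, or: `lev (moll u ε) x e = ∫ u(y) lev (mol(x - ·)) = 0`
directly). `moll u ε → u` in `L¹_loc`, so `u = moll u ε` a.e. locally; glue. -/
def S_WEYL : Prop := ∀ {n : ℕ} (T : Set (Cn n)), IsOpen T → ∀ f : Cn n → ℝ,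
  (∀ C ⊆ T, IsCompact C → IntegrableOn f C) →
  (∀ ψ, TestF T ψ → ∀ e, ∫ x in T, f x * lev ψ x e = 0) →
  ∃ g : Cn n → ℝ, ContDiffOn ℝ ∞ g T ∧ (∀ x ∈ T, ∀ e, lev g x e = 0) ∧
    ∀ᵐ x ∂(volume.restrict T), f x = g x

/-- HODG. Hodge decomposition of closed forms. USES: WIRT, WCH, LMF, ARRB, DETI, PUE, BOX, L2C, L2LIM,
PROJ, CONI, POIN, LMID, LML2, WEYL (and `S_LEVIBP` of Lin, proved).
PROOF. `W := det H` is a weight for `m = 0`; `boxO H W (φ : ℂ) = - trL H φ` for real smooth `φ` (last item of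
`DETI`). `ρ₀ := (trL H v).re` is invariant with `∫ κ W ρ₀ = 0` (`LMID`). `PROJ` for `s = ρ₀`: `g` (constant `a` by `CONI`) and
`h_j`. `∫ κ W boxO (h_j) = dipE (h_j) 1 = 0` (`BOX` with `t = 1`), so `a = 0` (Cauchy-Schwarz, `∫ κ W > 0`), and
`boxO (h_j) → ρ₀`. `φ_j := - Re h_j + const` with `∫ κ W φ_j = 0`: real part of `boxO`: `trL H φ_j → ρ₀` in the norm `nsE`.
`u_j := v - φ_j`: `DInv`, `∫ κ W (trL u_j)² → 0`, so by `LMID` and `LML2` `lev (u_j) · e → 0` in `L²_loc(T)`. `POIN` for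
`φ_i - φ_j`: `nsE (φ_i - φ_j) ≤ K (dipE ..).re = K (ipE (boxO (φ_i - φ_j)) (φ_i - φ_j)).re ≤ K nsE(trL(φ_i - φ_j))^(1/2)
nsE(φ_i - φ_j)^(1/2)`: Cauchy. `L2C`, `L2LIM`: `φ_j → φ'` in `L²_loc`. For a test function `ψ`: `∫ (v - φ') lev ψ e =
lim ∫ u_j lev ψ e = lim ∫ ψ lev u_j e = 0`. `WEYL`: `v - φ' = u` a.e.; `φ := v - u` is smooth, and invariant: a.e. on
small balls (limits of invariant functions, change of variables), so everywhere by continuity. -/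
def S_HODG : Prop := ∀ {n : ℕ} (T : Set (Cn n)) {G : Type u} [Group G]
  (R : G → Cn n → Cn n → Prop) (H : Cn n → Matrix (Fin n) (Fin n) ℂ), KEt T R H →
  ∀ v : Cn n → ℝ, ContDiffOn ℝ ∞ v T → DInv R v → ∃ φ, InvF T R φ ∧
    ∀ x ∈ T, ∀ e, lev (fun y => v y - φ y) x e = 0

end Pool.Agent.Helper10.SP
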